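import Mathlib

/-!
# Arithmetic bounds (helper13)
-/

set_option autoImplicit false

open Finset

namespace Pool.Agent.H13.TD

/-- product over a set of integers `≥ 2` -/
lemma prod_ge (S : Finset ℕ) : (∀ p ∈ S, 2 ≤ p) → 1 / ((S.card : ℝ) + 1) ≤ ∏ p ∈ S, (1 - (p : ℝ)⁻¹) := by
  induction S using Finset.induction_on_max with
  | empty => intro _; simp
  | insert a s hlt ih =>
    intro hS
    have ha : a ∉ s := fun h => lt_irrefl _ (hlt a h)
    have h2 : ∀ p ∈ s, 2 ≤ p := fun p hp => hS p (mem_insert_of_mem hp)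
    have ih' := ih h2
    have hsub : s ⊆ Ico 2 a := fun p hp => mem_Ico.mpr ⟨h2 p hp, hlt p hp⟩
    have hc := card_le_card hsub
    rw [Nat.card_Ico] at hc
    have ha2 : 2 ≤ a := hS a (mem_insert_self _ _)
    have hca : s.card + 2 ≤ a := by omega
    have hca' : (s.card : ℝ) + 2 ≤ a := by exact_mod_cast hca
    rw [prod_insert ha, card_insert_of_notMem ha]
    have hc0 : (0 : ℝ) ≤ s.card := Nat.cast_nonneg _
    have h3 : ((s.card : ℝ) + 1) / ((s.card : ℝ) + 2) ≤ 1 - (a : ℝ)⁻¹ := by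
      have h4 : (a : ℝ)⁻¹ ≤ ((s.card : ℝ) + 2)⁻¹ := inv_anti₀ (by positivity) hca'
      have h5 : ((s.card : ℝ) + 1) / ((s.card : ℝ) + 2) = 1 - ((s.card : ℝ) + 2)⁻¹ := by
        field_simp
        ring
      rw [h5]; linarith
    have h6 : 1 / (((s.card + 1 : ℕ) : ℝ) + 1) =
        (((s.card : ℝ) + 1) / ((s.card : ℝ) + 2)) * (1 / ((s.card : ℝ) + 1)) := by
      push_cast
      field_simp
      ring
    rw [h6]
    exact mul_le_mul h3 ih' (by positivity) (le_trans (by positivity) h3)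

/-- lower bound for Euler's function -/
theorem totient_ge {q : ℕ} (hq : 3 ≤ q) : (q : ℝ) / (3 * Real.log q) ≤ q.totient := by
  have hq0 : (0 : ℝ) < q := by exact_mod_cast (by omega : 0 < q)
  have h1 : (q.totient : ℝ) = q * ∏ p ∈ q.primeFactors, (1 - (p : ℝ)⁻¹) := by
    have := Nat.totient_eq_mul_prod_factors q
    have h2 := congrArg (fun x : ℚ => (x : ℝ)) this
    push_cast at h2
    exact h2
  have h2 := prod_ge q.primeFactors (fun p hp => (Nat.prime_of_mem_primeFactors hp).two_le)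
  have h3 : 2 ^ q.primeFactors.card ≤ q := by
    have h4 : 2 ^ q.primeFactors.card ≤ ∏ p ∈ q.primeFactors, p :=
      Finset.pow_card_le_prod _ _ _ fun p hp => (Nat.prime_of_mem_primeFactors hp).two_le
    exact h4.trans (Nat.le_of_dvd (by omega) (Nat.prod_primeFactors_dvd q))
  have hlog2 := Real.log_two_gt_d9
  have h4 : (q.primeFactors.card : ℝ) * Real.log 2 ≤ Real.log q := by
    rw [← Real.log_pow]
    apply Real.log_le_log (by positivity)
    exact_mod_cast h3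
  have hl3 : 1 ≤ Real.log q := by
    rw [Real.le_log_iff_exp_le hq0]
    have := Real.exp_one_lt_d9
    have h5 : (3 : ℝ) ≤ q := by exact_mod_cast hq
    linarith
  have h5 : (q.primeFactors.card : ℝ) + 1 ≤ 3 * Real.log q := by
    have h6 : (q.primeFactors.card : ℝ) * 0.69 ≤ Real.log q := by
      have : (0 : ℝ) ≤ q.primeFactors.card := Nat.cast_nonneg _
      nlinarith
    linarith
  rw [h1, div_eq_mul_inv]
  apply mul_le_mul_of_nonneg_left _ hq0.le
  refine le_trans ?_ h2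
  rw [one_div]
  exact inv_anti₀ (by positivity) h5

/-- the sum of `d ^ (1 - δ)` over the divisors -/
theorem sum_div_le {q : ℕ} (hq : 1 ≤ q) {δ : ℝ} (hδ : 0 ≤ δ) (hδ1 : δ ≤ 1) :
    ∑ d ∈ q.divisors, (d : ℝ) ^ (1 - δ) ≤ (2 + Real.log q) * (q : ℝ) ^ (1 - δ / 2) := by
  have hq1 : (1 : ℝ) ≤ q := by exact_mod_cast hq
  have hq0 : (0 : ℝ) < q := by linarith
  set x : ℝ := Real.sqrt q with hx
  have hx0 : 0 < x := Real.sqrt_pos.mpr hq0
  have hxx : x = (q : ℝ) ^ (1 / 2 : ℝ) := Real.sqrt_eq_rpow _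
  have hx1 : 1 ≤ x := Real.one_le_sqrt.mpr hq1
  -- each term
  have h1 : ∀ d ∈ q.divisors, (d : ℝ) ^ (1 - δ) ≤ (q : ℝ) ^ (1 - δ / 2) * (((q / d : ℕ) : ℝ)⁻¹) +
      (if (d : ℝ) < x then (d : ℝ) ^ (1 - δ) else 0) := by
    intro d hd
    have hdq : d ∣ q := Nat.dvd_of_mem_divisors hd
    have hd0 : 0 < d := Nat.pos_of_mem_divisors hd
    have hd0' : (0 : ℝ) < d := by exact_mod_cast hd0
    split_ifs with h
    · have : 0 ≤ (q : ℝ) ^ (1 - δ / 2) * (((q / d : ℕ) : ℝ)⁻¹) := by positivity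
      linarith
    · rw [add_zero, Nat.cast_div hdq hd0'.ne', inv_div]
      have h2 : (d : ℝ) ^ (-δ) ≤ (q : ℝ) ^ (-(δ / 2)) := by
        have h3 : (d : ℝ) ^ (-δ) ≤ x ^ (-δ) :=
          Real.rpow_le_rpow_of_nonpos hx0 (not_lt.mp h) (by linarith)
        refine h3.trans (le_of_eq ?_)
        rw [hxx, ← Real.rpow_mul hq0.le]
        congr 1
        ring
      calc (d : ℝ) ^ (1 - δ) = d * (d : ℝ) ^ (-δ) := by
            rw [sub_eq_add_neg, Real.rpow_add hd0', Real.rpow_one]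
        _ ≤ d * (q : ℝ) ^ (-(δ / 2)) := mul_le_mul_of_nonneg_left h2 hd0'.le
        _ = (q : ℝ) ^ (1 - δ / 2) * (d / q) := by
            rw [sub_eq_add_neg, Real.rpow_add hq0, Real.rpow_one]
            field_simp
  refine (Finset.sum_le_sum h1).trans ?_
  rw [Finset.sum_add_distrib, ← Finset.mul_sum]
  -- the first sum
  have h2 : ∑ d ∈ q.divisors, ((q / d : ℕ) : ℝ)⁻¹ ≤ 1 + Real.log q := by
    rw [Nat.sum_div_divisors q (fun d => ((d : ℕ) : ℝ)⁻¹)]
    have h3 := harmonic_le_one_add_log q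
    have h4 : ((harmonic q : ℚ) : ℝ) = ∑ i ∈ Icc 1 q, ((i : ℝ))⁻¹ := by
      rw [harmonic_eq_sum_Icc]
      push_cast
      rfl
    rw [h4] at h3
    refine le_trans ?_ h3
    apply Finset.sum_le_sum_of_subset_of_nonneg
    · intro d hd
      rw [Finset.mem_Icc]
      exact ⟨Nat.pos_of_mem_divisors hd, Nat.divisor_le hd⟩
    · intro i _ _
      positivity
  -- the second sum
  have h3 : ∑ d ∈ q.divisors, (if (d : ℝ) < x then (d : ℝ) ^ (1 - δ) else 0) ≤
      (q : ℝ) ^ (1 - δ / 2) := by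
    rw [← Finset.sum_filter]
    have h4 : ∀ d ∈ q.divisors.filter (fun d : ℕ => (d : ℝ) < x), (d : ℝ) ^ (1 - δ) ≤ x ^ (1 - δ) := by
      intro d hd
      rw [Finset.mem_filter] at hd
      exact Real.rpow_le_rpow (Nat.cast_nonneg _) hd.2.le (by linarith)
    refine (Finset.sum_le_sum h4).trans ?_
    rw [Finset.sum_const, nsmul_eq_mul]
    have h5 : ((q.divisors.filter (fun d : ℕ => (d : ℝ) < x)).card : ℝ) ≤ x := by
      have h6 : q.divisors.filter (fun d : ℕ => (d : ℝ) < x) ⊆ Icc 1 ⌊x⌋₊ := by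
        intro d hd
        rw [Finset.mem_filter] at hd
        rw [Finset.mem_Icc]
        exact ⟨Nat.pos_of_mem_divisors hd.1, Nat.le_floor hd.2.le⟩
      have h7 := Finset.card_le_card h6
      rw [Nat.card_Icc] at h7
      have h8 : ((q.divisors.filter (fun d : ℕ => (d : ℝ) < x)).card : ℝ) ≤ (⌊x⌋₊ : ℝ) := by
        exact_mod_cast (by omega : (q.divisors.filter (fun d : ℕ => (d : ℝ) < x)).card ≤ ⌊x⌋₊)
      exact h8.trans (Nat.floor_le hx0.le)
    calc _ ≤ x * x ^ (1 - δ) := mul_le_mul_of_nonneg_right h5 (by positivity)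
      _ = (q : ℝ) ^ (1 - δ / 2) := by
          rw [hxx, ← Real.rpow_mul hq0.le, ← Real.rpow_add hq0]
          congr 1
          ring
  have h0 : 0 ≤ (q : ℝ) ^ (1 - δ / 2) := by positivity
  calc (q : ℝ) ^ (1 - δ / 2) * ∑ d ∈ q.divisors, ((q / d : ℕ) : ℝ)⁻¹ +
        ∑ d ∈ q.divisors, (if (d : ℝ) < x then (d : ℝ) ^ (1 - δ) else 0)
      ≤ (q : ℝ) ^ (1 - δ / 2) * (1 + Real.log q) + (q : ℝ) ^ (1 - δ / 2) :=
        add_le_add (mul_le_mul_of_nonneg_left h2 h0) h3
    _ = _ := by ring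

end Pool.Agent.H13.TD
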