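import Pool.Agent.Helper13.TD.Mul

/-!
# Bounds for the coefficients (helper13)
-/

set_option autoImplicit false

open Finset

namespace Pool.Agent.H13.TD

open ArithmeticFunction (IsMultiplicative)

/-- the complete homogeneous sums -/
lemma hsum (α β : ℂ) (k : ℕ) : ∑ i ∈ range (k + 2 + 1), α ^ i * β ^ (k + 2 - i) =
    (α + β) * ∑ i ∈ range (k + 1 + 1), α ^ i * β ^ (k + 1 - i) -
      α * β * ∑ i ∈ range (k + 1), α ^ i * β ^ (k - i) := by
  have h : ∀ k : ℕ, ∑ i ∈ range (k + 1 + 1), α ^ i * β ^ (k + 1 - i) =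
      α * ∑ i ∈ range (k + 1), α ^ i * β ^ (k - i) + β ^ (k + 1) := by
    intro k
    rw [Finset.sum_range_succ', Finset.mul_sum]
    congr 1
    · refine Finset.sum_congr rfl fun i _ => ?_
      rw [Nat.add_sub_add_right, pow_succ]
      ring
    · simp
  rw [h (k + 1), h k]
  ring

/-- the prime powers under the bound `|λ(p)| ≤ 2` -/
lemma lam_pp {N : ℕ} {lam : ℕ → ℝ} (hlam : W388.HeckeSeq N lam) {p : ℕ} (hp : p.Prime)
    (hpN : ¬ p ∣ N) (h2 : |lam p| ≤ 2) (k : ℕ) : |lam (p ^ k)| ≤ k + 1 := by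
  obtain ⟨h3, h4⟩ := abs_le.mp h2
  set y : ℝ := Real.sqrt (4 - lam p ^ 2) with hy
  have hy2 : y ^ 2 = 4 - lam p ^ 2 := Real.sq_sqrt (by nlinarith)
  set α : ℂ := ⟨lam p / 2, y / 2⟩ with hα
  set β : ℂ := ⟨lam p / 2, -(y / 2)⟩ with hβ
  have hs : α + β = (lam p : ℂ) := by
    apply Complex.ext
    · simp [hα, hβ]
    · simp [hα, hβ]
  have hm : α * β = 1 := by
    apply Complex.ext
    · simp [hα, hβ]; nlinarith
    · simp [hα, hβ]; ring
  have hnα : ‖α‖ = 1 := by
    have : ‖α‖ ^ 2 = 1 := by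
      rw [← Complex.normSq_eq_norm_sq, Complex.normSq_apply, hα]
      nlinarith
    have h0 := norm_nonneg α
    nlinarith
  have hnβ : ‖β‖ = 1 := by
    have : ‖β‖ ^ 2 = 1 := by
      rw [← Complex.normSq_eq_norm_sq, Complex.normSq_apply, hβ]
      nlinarith
    have h0 := norm_nonneg β
    nlinarith
  have key : ∀ k : ℕ, (lam (p ^ k) : ℂ) = ∑ i ∈ range (k + 1), α ^ i * β ^ (k - i) ∧
      (lam (p ^ (k + 1)) : ℂ) = ∑ i ∈ range (k + 1 + 1), α ^ i * β ^ (k + 1 - i) := by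
    intro k
    induction k with
    | zero =>
      refine ⟨?_, ?_⟩
      · simp [hlam.one]
      · simp [Finset.sum_range_succ]
        rw [← hs]; ring
    | succ k ih =>
      refine ⟨ih.2, ?_⟩
      rw [show k + 1 + 1 = k + 2 by ring, hlam.pow p k hp, if_neg hpN, hsum, hs, hm, ← ih.1, ← ih.2]
      push_cast
      ring
  have h5 : ‖(lam (p ^ k) : ℂ)‖ ≤ k + 1 := by
    rw [(key k).1]
    refine (norm_sum_le _ _).trans ?_
    have : ∀ i ∈ range (k + 1), ‖α ^ i * β ^ (k - i)‖ ≤ 1 := by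
      intro i _
      rw [norm_mul, norm_pow, norm_pow, hnα, hnβ]; simp
    refine (Finset.sum_le_sum this).trans ?_
    simp
  rwa [Complex.norm_real, Real.norm_eq_abs] at h5

section

variable {N : ℕ} {lam : ℕ → ℝ} {s0 : ℕ}

/-- `|λ(p)| ≤ 2` outside of `s0` -/
def Ram (N : ℕ) (lam : ℕ → ℝ) (s0 : ℕ) : Prop :=
  ∀ p : ℕ, p.Prime → ¬ p ∣ s0 → ¬ p ∣ N ∧ |lam p| ≤ 2

lemma ls_le (hlam : W388.HeckeSeq N lam) (hR : Ram N lam s0) (n : ℕ) : |ls lam s0 n| ≤ dd n := by
  apply mulf_le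
  intro p k hp
  split_ifs with h1 h2
  · simp
  · simp; positivity
  · exact lam_pp hlam hp (hR p hp h2).1 (hR p hp h2).2 k

lemma mu_le (hR : Ram N lam s0) (n : ℕ) : |mu N lam s0 n| ≤ dd n := by
  apply mulf_le
  intro p k hp
  split_ifs with h1 h2
  · simp
  · simp; positivity
  · unfold gi
    have hp' := hR p hp h2
    have hk0 : (0 : ℝ) ≤ k := Nat.cast_nonneg k
    split_ifs with h4 h5 h6
    · rw [abs_neg, h4]; push_cast; linarith [hp'.2]
    · rw [abs_zero]; linarith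
    · rw [abs_one]; linarith
    · rw [abs_zero]; linarith

lemma nu_supp (hs0 : s0 ≠ 0) {n : ℕ} (hn : nu N lam s0 n ≠ 0) : n ∣ s0 ^ 2 := by
  have hn0 : n ≠ 0 := by
    rintro rfl
    exact hn (by simp)
  unfold nu at hn
  rw [mulf_apply _ hn0, Finsupp.prod, Finset.prod_ne_zero_iff] at hn
  rw [← Nat.factorization_le_iff_dvd hn0 (pow_ne_zero 2 hs0)]
  intro p
  by_cases hp : p ∈ n.factorization.support
  · have h1 := hn p hp
    have hk : n.factorization p ≠ 0 := Finsupp.mem_support_iff.mp hp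
    have hpp : p.Prime := Nat.prime_of_mem_primeFactors (by rwa [Nat.support_factorization] at hp)
    simp only [hk, if_false] at h1
    have hd : p ∣ s0 := by
      by_contra h
      rw [if_neg h] at h1
      exact h1 rfl
    rw [if_pos hd] at h1
    have h2 : n.factorization p ≤ 2 := by
      by_contra h
      apply h1
      unfold gi
      have e1 : n.factorization p ≠ 1 := by omega
      have e2 : n.factorization p ≠ 2 := by omega
      simp [hk, e1, e2]
    have h3 : 1 ≤ s0.factorization p := (hpp.dvd_iff_one_le_factorization hs0).mp hd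
    rw [Nat.factorization_pow]
    simp only [Finsupp.smul_apply, smul_eq_mul]
    omega
  · rw [Finsupp.notMem_support_iff.mp hp]
    exact Nat.zero_le _

/-- the truncated inverse -/
noncomputable def muX (N : ℕ) (lam : ℕ → ℝ) (s0 X : ℕ) (n : ℕ) : ℝ :=
  if n ≤ X then mu N lam s0 n else 0

lemma muX_le (hR : Ram N lam s0) (X n : ℕ) : |muX N lam s0 X n| ≤ dd n := by
  unfold muX
  split_ifs
  · exact mu_le hR n
  · simp [dd_nonneg]

/-- the coefficients of the mollified function -/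
noncomputable def cX (N : ℕ) (lam : ℕ → ℝ) (s0 X : ℕ) (n : ℕ) : ℝ :=
  cv (muX N lam s0 X) (ls lam s0) n

lemma cX_zero' (X : ℕ) : cX N lam s0 X 0 = 0 := by simp [cX, cv]

lemma cX_small (hlam : W388.HeckeSeq N lam) {X n : ℕ} (hn0 : n ≠ 0) (hn : n ≤ X) :
    cX N lam s0 X n = if n = 1 then 1 else 0 := by
  have h1 : cX N lam s0 X n = (mu N lam s0 * ls lam s0) n := by
    unfold cX cv
    rw [ArithmeticFunction.mul_apply]
    refine Finset.sum_congr rfl fun x hx => ?_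
    have h2 := (Nat.mem_divisorsAntidiagonal.mp hx).1
    have h3 : x.1 ≤ n := Nat.le_of_dvd (Nat.pos_of_ne_zero hn0) (Dvd.intro _ h2)
    unfold muX
    rw [if_pos (h3.trans hn)]
  rw [h1, mu_mul hlam]
  split_ifs with h
  · rw [h, ArithmeticFunction.one_one]
  · exact ArithmeticFunction.one_apply_ne h

lemma sum_cX (hlam : W388.HeckeSeq N lam) (hR : Ram N lam s0) (X Y : ℕ) (s : ℝ) :
    ∑ n ∈ Icc 1 Y, cX N lam s0 X n ^ 2 * (n : ℝ) ^ (-s) ≤ ZN Y s ^ 16 :=
  sum_conv_sq (muX_le hR X) (ls_le hlam hR) Y s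

lemma sum_mu (hR : Ram N lam s0) (Y : ℕ) (s : ℝ) :
    ∑ n ∈ Icc 1 Y, mu N lam s0 n ^ 2 * (n : ℝ) ^ (-s) ≤ ZN Y s ^ 4 := by
  refine le_trans (Finset.sum_le_sum fun n _ => ?_) (sum_dd2 Y s)
  apply mul_le_mul_of_nonneg_right _ (by positivity)
  have := mu_le hR n
  calc mu N lam s0 n ^ 2 = |mu N lam s0 n| ^ 2 := (sq_abs _).symm
    _ ≤ _ := pow_le_pow_left₀ (abs_nonneg _) this 2

end

end Pool.Agent.H13.TD
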