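import Pool.Graph.R_pool_sql_team_seeded_620a6dc7.A856.SD.Cnt

/-!
# The number of zeros from the first mean of the mollified functions (helper13)

The same as `Pool.Agent.A856.SD.one_char` and `sum_char` of helper856, with the first mean in place
of the mean square.
-/

set_option autoImplicit false

open Complex Filter Topology MeasureTheory

namespace Pool.Agent.H13.TD

open Pool.Agent.A856.SD

lemma norm_le_one_sub1 {u : ℂ} (hu : ‖u‖ ≤ 1 / 2) : -Real.log ‖1 - u‖ ≤ 2 * ‖u‖ := by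
  have h0 := norm_nonneg u
  have h1 : 1 - ‖u‖ ≤ ‖1 - u‖ := by
    have := norm_sub_norm_le (1 : ℂ) u
    rw [norm_one] at this
    exact this
  have h3 : 0 < 1 - ‖u‖ := by linarith
  have h4 := Real.log_le_log h3 h1
  have h5 := Real.one_sub_inv_le_log_of_pos h3
  have h6 : (1 - ‖u‖)⁻¹ ≤ 1 + 2 * ‖u‖ := by
    rw [inv_le_iff_one_le_mul₀ h3]
    nlinarith [sq_nonneg ‖u‖]
  linarith

lemma log_norm_le1 {u : ℂ} : Real.log ‖1 - u‖ ≤ ‖u‖ := by
  have h1 : ‖1 - u‖ ≤ 1 + ‖u‖ := by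
    refine (norm_sub_le _ _).trans ?_
    rw [norm_one]
  rcases (norm_nonneg (1 - u)).eq_or_lt with h | h
  · rw [← h, Real.log_zero]; positivity
  · have h2 := Real.log_le_sub_one_of_pos h
    linarith

lemma phi_cont1 {H : ℂ → ℂ} (hH : Continuous H) (s₀ : ℂ) (lam : ℝ) {R : ℝ} (hR : 0 ≤ R) :
    CircleIntegrable (fun w => ‖1 - H (phi s₀ lam w)‖) ((R : ℂ) + 1) R := by
  apply ContinuousOn.circleIntegrable hR
  have h1 : ContinuousOn (fun w : ℂ => phi s₀ lam w) (Metric.sphere ((R : ℂ) + 1) R) := by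
    unfold phi
    apply ContinuousOn.add continuousOn_const
    apply ContinuousOn.mul continuousOn_const
    intro w hw
    have hw' : ‖w - ((R : ℂ) + 1)‖ = R := by
      rwa [Metric.mem_sphere, dist_eq_norm] at hw
    have h2 := circ_re hw'
    exact (continuousAt_clog (Complex.mem_slitPlane_iff.mpr (Or.inl (by linarith)))).continuousWithinAt
  have h2 : ContinuousOn (fun w : ℂ => H (phi s₀ lam w)) (Metric.sphere ((R : ℂ) + 1) R) :=
    hH.comp_continuousOn h1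
  exact (continuousOn_const.sub h2).norm

/-- **one L-function** -/
theorem one_char1 {F M : ℂ → ℂ} (hF : Differentiable ℂ F) (hM : Differentiable ℂ M)
    {c δ t L x0 : ℝ} (hc0 : 0 < c) (hc1 : c ≤ 1) (hx0 : x0 = 4 / c) (hδ0 : 0 ≤ δ)
    (hL1 : 4 ≤ c * L) (hL2 : 2 * x0 ≤ L)
    (hfar : ∀ s : ℂ, 2 ≤ s.re → ‖1 - F s * M s‖ ≤ 1 / 2) (Z : Finset ℂ)
    (hZ : ∀ ρ ∈ Z, 1 / 2 + δ ≤ ρ.re ∧ ρ.re ≤ 1 ∧ |ρ.im - t| ≤ 1 / L) :
    1 / (2 * Real.exp (c * L)) * ∑ ρ ∈ Z, (analyticOrderNatAt F ρ : ℝ) ≤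
      Real.circleAverage (fun w => ‖1 - F (phi (((1 / 2 + δ - x0 / L : ℝ) : ℂ) + t * I) (c * L / 2) w) *
        M (phi (((1 / 2 + δ - x0 / L : ℝ) : ℂ) + t * I) (c * L / 2) w)‖)
        ((Real.exp (c * L) : ℝ) + 1) (Real.exp (c * L)) +
      2 * ‖1 - F (phi (((1 / 2 + δ - x0 / L : ℝ) : ℂ) + t * I) (c * L / 2)
          ((Real.exp (c * L) : ℝ) + 1)) *
        M (phi (((1 / 2 + δ - x0 / L : ℝ) : ℂ) + t * I) (c * L / 2)
          ((Real.exp (c * L) : ℝ) + 1))‖ := by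
  obtain ⟨s₀, hs₀⟩ : ∃ s₀ : ℂ, s₀ = ((1 / 2 + δ - x0 / L : ℝ) : ℂ) + t * I := ⟨_, rfl⟩
  obtain ⟨lam, hlam⟩ : ∃ lam : ℝ, lam = c * L / 2 := ⟨_, rfl⟩
  obtain ⟨R, hR⟩ : ∃ R : ℝ, R = Real.exp (c * L) := ⟨_, rfl⟩
  rw [← hs₀, ← hlam, ← hR]
  have hL0 : 0 < L := by
    by_contra h
    have : c * L ≤ 0 := mul_nonpos_of_nonneg_of_nonpos hc0.le (not_lt.mp h)
    linarith
  have hlam0 : 0 < lam := by rw [hlam]; linarith
  have hR1 : 1 ≤ R := by rw [hR]; exact Real.one_le_exp (by linarith)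
  have hR0 : 0 < R := by linarith
  have hx0p : 0 < x0 := by rw [hx0]; positivity
  have hcx : c * x0 = 4 := by rw [hx0]; field_simp
  have hs₀re : s₀.re = 1 / 2 + δ - x0 / L := by rw [hs₀]; simp
  have hs₀im : s₀.im = t := by rw [hs₀]; simp
  have hxL : x0 / L ≤ 1 / 2 := by rw [div_le_iff₀ hL0]; linarith
  -- the function `g`
  obtain ⟨H, hH⟩ : ∃ H : ℂ → ℂ, H = M := ⟨_, rfl⟩
  have hHd : Differentiable ℂ H := by
    rw [hH]; exact hM
  obtain ⟨g, hg⟩ : ∃ g : ℂ → ℂ, g = fun s => F s * H s := ⟨_, rfl⟩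
  have hgd : Differentiable ℂ g := by rw [hg]; exact hF.mul hHd
  have hgu : ∀ s, g s = 1 - (1 - F s * M s) := by
    intro s
    rw [hg, hH]
    simp only
    ring
  -- the centre
  obtain ⟨sc, hsc⟩ : ∃ sc : ℂ, sc = phi s₀ lam ((R : ℂ) + 1) := ⟨_, rfl⟩
  rw [← hsc]
  have hlogc : Complex.log ((R : ℂ) + 1) = ((Real.log (R + 1) : ℝ) : ℂ) := by
    rw [show (R : ℂ) + 1 = ((R + 1 : ℝ) : ℂ) by push_cast; rfl, Complex.ofReal_log (by linarith)]
  have hscre : 2 ≤ sc.re := by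
    have h1 : sc.re = s₀.re + 1 / lam * Real.log (R + 1) := by
      rw [hsc]
      unfold phi
      rw [hlogc]
      have : (1 / (lam : ℂ) * ((Real.log (R + 1) : ℝ) : ℂ)) =
          ((1 / lam * Real.log (R + 1) : ℝ) : ℂ) := by push_cast; rfl
      rw [this, Complex.add_re, Complex.ofReal_re]
    have h2 : c * L ≤ Real.log (R + 1) := by
      rw [Real.le_log_iff_exp_le (by linarith), ← hR]
      linarith
    have h3 : 2 ≤ 1 / lam * Real.log (R + 1) := by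
      rw [div_mul_eq_mul_div, le_div_iff₀ hlam0, hlam]
      linarith
    rw [h1, hs₀re]
    linarith
  have hu := hfar sc hscre
  have hne : g sc ≠ 0 := by
    intro h0
    rw [hgu, sub_eq_zero] at h0
    have h1 : ‖(1 - F sc * M sc)‖ = 1 := by rw [← h0, norm_one]
    linarith [norm_nonneg (1 - F sc * M sc)]
  -- the points
  have hpt : ∀ ρ ∈ Z, 2 ≤ ((lam : ℂ) * (ρ - s₀)).re ∧ ((lam : ℂ) * (ρ - s₀)).re ≤ c * L / 4 + 2 ∧
      |((lam : ℂ) * (ρ - s₀)).im| ≤ 1 / 2 := by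
    intro ρ hρ
    obtain ⟨h1, h2, h3⟩ := hZ ρ hρ
    have hre : ((lam : ℂ) * (ρ - s₀)).re = lam * (ρ.re - s₀.re) := by
      rw [Complex.re_ofReal_mul, Complex.sub_re]
    have him : ((lam : ℂ) * (ρ - s₀)).im = lam * (ρ.im - s₀.im) := by
      rw [Complex.im_ofReal_mul, Complex.sub_im]
    rw [hre, him, hs₀re, hs₀im, abs_mul, abs_of_pos hlam0]
    have hkey : lam * (x0 / L) = 2 := by
      rw [hlam]
      field_simp
      linarith
    refine ⟨?_, ?_, ?_⟩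
    · have h4 : x0 / L ≤ ρ.re - (1 / 2 + δ - x0 / L) := by linarith
      calc (2 : ℝ) = lam * (x0 / L) := hkey.symm
        _ ≤ _ := mul_le_mul_of_nonneg_left h4 hlam0.le
    · have h4 : ρ.re - (1 / 2 + δ - x0 / L) ≤ 1 / 2 + x0 / L := by linarith
      calc _ ≤ lam * (1 / 2 + x0 / L) := mul_le_mul_of_nonneg_left h4 hlam0.le
        _ = lam * (1 / 2) + lam * (x0 / L) := by ring
        _ = c * L / 4 + 2 := by rw [hkey, hlam]; ring
    · calc lam * |ρ.im - t| ≤ lam * (1 / L) := mul_le_mul_of_nonneg_left h3 hlam0.le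
        _ = c / 2 := by rw [hlam]; field_simp
        _ ≤ 1 / 2 := by linarith
  have hexp2 : (7 : ℝ) ≤ Real.exp 2 := by
    have := Real.exp_one_gt_d9
    have h2 : Real.exp 2 = Real.exp 1 * Real.exp 1 := by rw [← Real.exp_add]; norm_num
    rw [h2]
    nlinarith
  have hcos : ∀ ρ ∈ Z, 7 / 8 * Real.exp ((lam : ℂ) * (ρ - s₀)).re ≤
      (cexp ((lam : ℂ) * (ρ - s₀))).re := by
    intro ρ hρ
    obtain ⟨-, -, h3⟩ := hpt ρ hρ
    rw [Complex.exp_re, mul_comm]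
    have h4 := Real.one_sub_sq_div_two_le_cos (x := ((lam : ℂ) * (ρ - s₀)).im)
    have h5 : ((lam : ℂ) * (ρ - s₀)).im ^ 2 ≤ (1 / 2) ^ 2 := by
      rw [← sq_abs]
      gcongr
    apply mul_le_mul_of_nonneg_left _ (Real.exp_pos _).le
    linarith
  have hJ := jensen_log hgd (s₀ := s₀) (lam := lam) (R := R) (c₁ := 1) hlam0 hR1 one_pos Z
    (fun ρ hρ => by
      have := (hpt ρ hρ).2.2
      linarith [Real.pi_gt_three])
    (fun ρ hρ => by
      obtain ⟨h1, -, -⟩ := hpt ρ hρ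
      have h2 := hcos ρ hρ
      have h3 := Real.exp_le_exp.mpr h1
      linarith)
    (fun ρ hρ => by
      obtain ⟨h1, h1', -⟩ := hpt ρ hρ
      have h2 := hcos ρ hρ
      rw [Complex.norm_exp]
      obtain ⟨x, hx⟩ : ∃ x : ℝ, x = ((lam : ℂ) * (ρ - s₀)).re := ⟨_, rfl⟩
      rw [← hx] at h1 h1' h2 ⊢
      have h3 := Real.exp_le_exp.mpr h1
      have h4 : 2 * Real.exp x ≤ R := by
        have h5 : (2 : ℝ) ≤ Real.exp 1 := by
          have := Real.exp_one_gt_d9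
          linarith
        rw [hR]
        calc 2 * Real.exp x ≤ Real.exp 1 * Real.exp x :=
              mul_le_mul_of_nonneg_right h5 (Real.exp_pos _).le
          _ = Real.exp (1 + x) := (Real.exp_add _ _).symm
          _ ≤ _ := Real.exp_le_exp.mpr (by linarith)
      have h5 : 1 / 2 * Real.exp x ≤ (cexp ((lam : ℂ) * (ρ - s₀))).re - 1 := by linarith
      have h6 := Real.exp_pos x
      calc Real.exp x ^ 2 = (2 * Real.exp x) * (1 / 2 * Real.exp x) := by ring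
        _ ≤ R * ((cexp ((lam : ℂ) * (ρ - s₀))).re - 1) :=
            mul_le_mul h4 h5 (by positivity) hR0.le)
    (by
      change g (phi s₀ lam ((R : ℂ) + 1)) ≠ 0
      rw [← hsc]; exact hne)
    (fun w => ‖1 - F (phi s₀ lam w) * M (phi s₀ lam w)‖)
    (phi_cont1 (H := fun s => F s * M s) (hF.continuous.mul hM.continuous) s₀ lam hR0.le)
    (fun w _ => by
      change Real.log ‖g (phi s₀ lam w)‖ ≤ _
      rw [hgu]
      exact log_norm_le1)
  have hJ' : 1 / (2 * R) * ∑ ρ ∈ Z, (analyticOrderNatAt g ρ : ℝ) ≤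
      Real.circleAverage (fun w => ‖1 - F (phi s₀ lam w) * M (phi s₀ lam w)‖) ((R : ℂ) + 1) R -
        Real.log ‖g sc‖ := by
    rw [hsc]; exact hJ
  have h7 : ∑ ρ ∈ Z, (analyticOrderNatAt F ρ : ℝ) ≤ ∑ ρ ∈ Z, (analyticOrderNatAt g ρ : ℝ) := by
    refine Finset.sum_le_sum fun ρ _ => ?_
    have := ord_mul_le hF hHd ⟨sc, by rw [hg] at hne; exact hne⟩ ρ
    rw [hg]
    exact_mod_cast this
  have h8 : -Real.log ‖g sc‖ ≤ 2 * ‖1 - F sc * M sc‖ := by
    rw [hgu]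
    exact norm_le_one_sub1 hu
  have h9 : 1 / (2 * R) * ∑ ρ ∈ Z, (analyticOrderNatAt F ρ : ℝ) ≤
      1 / (2 * R) * ∑ ρ ∈ Z, (analyticOrderNatAt g ρ : ℝ) :=
    mul_le_mul_of_nonneg_left h7 (by positivity)
  linarith


/-- the sum over the characters -/
theorem sum_char1 {α : Type} (Y : Finset α) {F M : α → ℂ → ℂ} (hF : ∀ i ∈ Y, Differentiable ℂ (F i))
    (hM : ∀ i ∈ Y, Differentiable ℂ (M i))
    {c δ t L x0 C₀ : ℝ} {q : ℕ} (hc0 : 0 < c) (hc1 : c ≤ 1) (hx0 : x0 = 4 / c) (hδ0 : 0 ≤ δ)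
    (hδ1 : δ ≤ 1 / 2) (hL1 : 4 ≤ c * L) (hL2 : 2 * x0 ≤ L) (hC₀ : 0 ≤ C₀)
    (hfar : ∀ i ∈ Y, ∀ s : ℂ, 2 ≤ s.re → ‖1 - F i s * M i s‖ ≤ 1 / 2)
    (hms : ∀ s : ℂ, -(x0 / L) ≤ s.re - 1 / 2 → s.re - 1 / 2 ≤ 4 →
      ∑ i ∈ Y, ‖1 - F i s * M i s‖ ≤
        C₀ * (1 + ‖s‖) ^ q * Real.exp (L - c * L * (s.re - 1 / 2)))
    (Z : α → Finset ℂ)
    (hZ : ∀ i ∈ Y, ∀ ρ ∈ Z i, 1 / 2 + δ ≤ ρ.re ∧ ρ.re ≤ 1 ∧ |ρ.im - t| ≤ 1 / L) :
    ∑ i ∈ Y, ∑ ρ ∈ Z i, (analyticOrderNatAt (F i) ρ : ℝ) ≤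
      6 * Real.exp 4 * C₀ * (7 * (1 + |t|)) ^ q * Real.exp (L - c * L * δ) := by
  obtain ⟨s₀, hs₀⟩ : ∃ s₀ : ℂ, s₀ = ((1 / 2 + δ - x0 / L : ℝ) : ℂ) + t * I := ⟨_, rfl⟩
  obtain ⟨lam, hlam⟩ : ∃ lam : ℝ, lam = c * L / 2 := ⟨_, rfl⟩
  obtain ⟨R, hR⟩ : ∃ R : ℝ, R = Real.exp (c * L) := ⟨_, rfl⟩
  have hL0 : 0 < L := by
    by_contra h
    have : c * L ≤ 0 := mul_nonpos_of_nonneg_of_nonpos hc0.le (not_lt.mp h)
    linarith
  have hlam0 : 0 < lam := by rw [hlam]; linarith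
  have hR1 : 1 ≤ R := by rw [hR]; exact Real.one_le_exp (by linarith)
  have hR0 : 0 < R := by linarith
  have hx0p : 0 < x0 := by rw [hx0]; positivity
  have hcx : c * x0 = 4 := by rw [hx0]; field_simp
  have hs₀re : s₀.re = 1 / 2 + δ - x0 / L := by rw [hs₀]; simp
  have hs₀im : s₀.im = t := by rw [hs₀]; simp
  have hxL : x0 / L ≤ 1 / 2 := by rw [div_le_iff₀ hL0]; linarith
  have hxL0 : 0 ≤ x0 / L := by positivity
  -- the coordinates of `phi`
  have hre : ∀ w : ℂ, (phi s₀ lam w).re = 1 / 2 + δ - x0 / L + 1 / lam * Real.log ‖w‖ := by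
    intro w
    unfold phi
    rw [Complex.add_re, hs₀re]
    have : (1 / (lam : ℂ) * Complex.log w) = ((1 / lam : ℝ) : ℂ) * Complex.log w := by push_cast; rfl
    rw [this, Complex.re_ofReal_mul, Complex.log_re]
  have him : ∀ w : ℂ, (phi s₀ lam w).im = t + 1 / lam * Complex.arg w := by
    intro w
    unfold phi
    rw [Complex.add_im, hs₀im]
    have : (1 / (lam : ℂ) * Complex.log w) = ((1 / lam : ℝ) : ℂ) * Complex.log w := by push_cast; rfl
    rw [this, Complex.im_ofReal_mul, Complex.log_im]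
  obtain ⟨D, hD⟩ : ∃ D : ℝ, D = C₀ * (7 * (1 + |t|)) ^ q * Real.exp 4 * Real.exp (L - c * L * δ) :=
    ⟨_, rfl⟩
  have hD0 : 0 ≤ D := by rw [hD]; positivity
  -- the mean square at a point `phi w`
  have hpt : ∀ w : ℂ, 1 ≤ ‖w‖ → ‖w‖ ≤ 2 * R + 1 →
      ∑ i ∈ Y, ‖1 - F i (phi s₀ lam w) * M i (phi s₀ lam w)‖ ≤ D * (‖w‖ ^ 2)⁻¹ := by
    intro w hw1 hw2
    have hw0 : 0 < ‖w‖ := by linarith
    have hlog0 : 0 ≤ Real.log ‖w‖ := Real.log_nonneg hw1
    have hlog1 : 1 / lam * Real.log ‖w‖ ≤ 3 := by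
      rw [div_mul_eq_mul_div, div_le_iff₀ hlam0, one_mul]
      have h1 : ‖w‖ ≤ Real.exp (c * L + c * L / 2) := by
        refine hw2.trans ?_
        rw [Real.exp_add, ← hR]
        have h3 : (3 : ℝ) ≤ Real.exp (c * L / 2) := by
          have := Real.add_one_le_exp (c * L / 2)
          linarith
        nlinarith
      have h2 := Real.log_le_log hw0 h1
      rw [Real.log_exp] at h2
      rw [hlam]
      linarith
    have hlog0' : 0 ≤ 1 / lam * Real.log ‖w‖ := by positivity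
    have harg : |1 / lam * Complex.arg w| ≤ 2 := by
      rw [abs_mul, abs_of_pos (by positivity : 0 < 1 / lam)]
      have h1 := Complex.abs_arg_le_pi w
      have h2 : 1 / lam ≤ 1 / 2 := by
        apply one_div_le_one_div_of_le (by norm_num)
        rw [hlam]; linarith
      have h3 := Real.pi_le_four
      calc 1 / lam * |Complex.arg w| ≤ 1 / 2 * 4 :=
            mul_le_mul h2 (h1.trans h3) (abs_nonneg _) (by norm_num)
        _ = 2 := by norm_num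
    refine (hms (phi s₀ lam w) (by rw [hre]; linarith) (by rw [hre]; linarith)).trans ?_
    have hn : 1 + ‖phi s₀ lam w‖ ≤ 7 * (1 + |t|) := by
      have h1 := Complex.norm_le_abs_re_add_abs_im (phi s₀ lam w)
      have h2 : |(phi s₀ lam w).re| ≤ 4 := by
        rw [hre, abs_le]
        constructor <;> linarith
      have h3 : |(phi s₀ lam w).im| ≤ |t| + 2 := by
        rw [him]
        exact (abs_add_le _ _).trans (add_le_add le_rfl harg)
      have := abs_nonneg t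
      linarith
    have hn' : (1 + ‖phi s₀ lam w‖) ^ q ≤ (7 * (1 + |t|)) ^ q :=
      pow_le_pow_left₀ (by positivity) hn q
    have hexp : Real.exp (L - c * L * ((phi s₀ lam w).re - 1 / 2)) =
        Real.exp 4 * Real.exp (L - c * L * δ) * (‖w‖ ^ 2)⁻¹ := by
      rw [hre]
      have h1 : c * L * (1 / lam * Real.log ‖w‖) = 2 * Real.log ‖w‖ := by
        rw [hlam]; field_simp
      have h2 : c * L * (x0 / L) = 4 := by
        rw [← hcx]; field_simp
      have h3 : L - c * L * (1 / 2 + δ - x0 / L + 1 / lam * Real.log ‖w‖ - 1 / 2) =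
          4 + (L - c * L * δ) + -(2 * Real.log ‖w‖) := by
        linear_combination h2 - h1
      rw [h3, Real.exp_add, Real.exp_add, Real.exp_neg]
      congr 2
      rw [two_mul, Real.exp_add, Real.exp_log hw0, sq]
    rw [hexp, hD]
    calc C₀ * (1 + ‖phi s₀ lam w‖) ^ q * (Real.exp 4 * Real.exp (L - c * L * δ) * (‖w‖ ^ 2)⁻¹)
        ≤ C₀ * (7 * (1 + |t|)) ^ q * (Real.exp 4 * Real.exp (L - c * L * δ) * (‖w‖ ^ 2)⁻¹) := by
          gcongr
      _ = _ := by ring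
  -- one character
  have hone : ∀ i ∈ Y, 1 / (2 * R) * ∑ ρ ∈ Z i, (analyticOrderNatAt (F i) ρ : ℝ) ≤
      Real.circleAverage (fun w => ‖1 - F i (phi s₀ lam w) * M i (phi s₀ lam w)‖)
        ((R : ℂ) + 1) R +
      2 * ‖1 - F i (phi s₀ lam ((R : ℂ) + 1)) * M i (phi s₀ lam ((R : ℂ) + 1))‖ := by
    intro i hi
    have := one_char1 (hF i hi) (hM i hi) (t := t) hc0 hc1 hx0 hδ0 hL1 hL2 (hfar i hi) (Z i) (hZ i hi)
    rw [← hs₀, ← hlam, ← hR] at this
    exact this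
  have hsum := Finset.sum_le_sum hone
  rw [← Finset.mul_sum, Finset.sum_add_distrib, ← Finset.mul_sum] at hsum
  have hci : ∀ i ∈ Y, CircleIntegrable
      (fun w => ‖1 - F i (phi s₀ lam w) * M i (phi s₀ lam w)‖) ((R : ℂ) + 1) R := fun i hi =>
    phi_cont1 (H := fun s => F i s * M i s) ((hF i hi).continuous.mul (hM i hi).continuous) s₀ lam
      hR0.le
  obtain ⟨hcirc1, hcirc2⟩ := circ_inv hR0
  have havg : ∑ i ∈ Y, Real.circleAverage
      (fun w => ‖1 - F i (phi s₀ lam w) * M i (phi s₀ lam w)‖) ((R : ℂ) + 1) R ≤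
      D * (1 / (2 * R + 1)) := by
    rw [← Real.circleAverage_fun_sum hci]
    have h1 : CircleIntegrable (fun w : ℂ => ∑ i ∈ Y,
        ‖1 - F i (phi s₀ lam w) * M i (phi s₀ lam w)‖) ((R : ℂ) + 1) R := by
      have := CircleIntegrable.sum Y hci
      convert this using 1
      ext w
      simp
    have h2 : CircleIntegrable (fun w : ℂ => D * (‖w‖ ^ 2)⁻¹) ((R : ℂ) + 1) R := by
      have := hcirc1.const_smul (a := D)
      simpa [Pi.smul_def] using this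
    have h3 := Real.circleAverage_mono h1 h2 (fun w hw => by
      have hw' : ‖w - ((R : ℂ) + 1)‖ = R := by
        rwa [Metric.mem_sphere, dist_eq_norm, abs_of_pos hR0] at hw
      obtain ⟨h4, h5⟩ := circ_norm hR0.le hw'
      exact hpt w h4 h5)
    refine h3.trans ?_
    have h4 : Real.circleAverage (fun w : ℂ => D * (‖w‖ ^ 2)⁻¹) ((R : ℂ) + 1) R =
        D * Real.circleAverage (fun w : ℂ => (‖w‖ ^ 2)⁻¹) ((R : ℂ) + 1) R := by
      have := Real.circleAverage_fun_smul (a := D) (f := fun w : ℂ => (‖w‖ ^ 2)⁻¹)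
        (c := (R : ℂ) + 1) (R := R)
      simpa [smul_eq_mul] using this
    rw [h4]
    exact mul_le_mul_of_nonneg_left hcirc2 hD0
  have hcen : ∑ i ∈ Y, ‖1 - F i (phi s₀ lam ((R : ℂ) + 1)) * M i (phi s₀ lam ((R : ℂ) + 1))‖ ≤
      D * ((R + 1) ^ 2)⁻¹ := by
    have h2 : ‖(R : ℂ) + 1‖ = R + 1 := by
      rw [show (R : ℂ) + 1 = ((R + 1 : ℝ) : ℂ) by push_cast; rfl, Complex.norm_real,
        Real.norm_of_nonneg (by linarith)]
    have := hpt ((R : ℂ) + 1) (by rw [h2]; linarith) (by rw [h2]; linarith)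
    rwa [h2] at this
  have hfin : 1 / (2 * R) * ∑ i ∈ Y, ∑ ρ ∈ Z i, (analyticOrderNatAt (F i) ρ : ℝ) ≤
      D * (1 / (2 * R + 1)) + 2 * (D * ((R + 1) ^ 2)⁻¹) := by
    refine hsum.trans (add_le_add havg ?_)
    exact mul_le_mul_of_nonneg_left hcen (by norm_num)
  have h3R : 1 / (2 * R + 1) + 2 * ((R + 1) ^ 2)⁻¹ ≤ 3 / R := by
    have h1 : 1 / (2 * R + 1) ≤ 1 / R := one_div_le_one_div_of_le hR0 (by linarith)
    have h2 : ((R + 1) ^ 2)⁻¹ ≤ R⁻¹ := inv_anti₀ hR0 (by nlinarith)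
    have h3 : 3 / R = 1 / R + 2 * R⁻¹ := by field_simp; norm_num
    rw [h3]
    linarith
  have hX : ∑ i ∈ Y, ∑ ρ ∈ Z i, (analyticOrderNatAt (F i) ρ : ℝ) ≤ 2 * R * (D * (3 / R)) := by
    have h1 : 1 / (2 * R) * ∑ i ∈ Y, ∑ ρ ∈ Z i, (analyticOrderNatAt (F i) ρ : ℝ) ≤ D * (3 / R) := by
      refine hfin.trans ?_
      have := mul_le_mul_of_nonneg_left h3R hD0
      linarith
    rw [div_mul_eq_mul_div, one_mul, div_le_iff₀ (by positivity)] at h1
    linarith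
  refine hX.trans (le_of_eq ?_)
  rw [hD]
  field_simp
  ring


end Pool.Agent.H13.TD
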