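import Pool.Agent.Helper13.TD.L1
import Pool.Agent.Helper13.TD.Cnt1
import Pool.Graph.R_pool_sql_team_seeded_620a6dc7.A856.SD.Near

/-!
# The density theorem for one conductor (helper13)
-/

set_option autoImplicit false

open Complex Filter Topology

namespace Pool.Agent.H13.TD

open Pool.Agent.A856.SD (Zst Zst_bdd fin_zeros ord_symm)

/-- `F` is not identically zero -/
lemma F_ne {N : ℕ} {lam : ℕ → ℝ} {C₁ : ℝ} {s0 : ℕ} (hlam : W388.HeckeSeq N lam) (hrs : RSB lam C₁)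
    (hs0 : s0 ≠ 0) (hR : Ram N lam s0) {r : ℕ} [NeZero r] (χ : DirichletCharacter ℂ r) {F : ℂ → ℂ}
    (hF : IsL N lam χ F) : ∃ z, F z ≠ 0 := by
  obtain ⟨X0, h⟩ := far hlam hrs hs0 hR
  refine ⟨2, fun h0 => ?_⟩
  have := h r X0 le_rfl χ F hF 2 (by norm_num)
  rw [h0, zero_mul, sub_zero, norm_one] at this
  norm_num at this

open Classical in
/-- **the density theorem for one conductor** -/
theorem dens_r {N : ℕ} [NeZero N] {lam : ℕ → ℝ} {C₁ : ℝ} {s0 : ℕ} (hlam : W388.HeckeSeq N lam)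
    (hrs : RSB lam C₁) (hC₁ : 0 ≤ C₁) (hs0 : s0 ≠ 0) (hR : Ram N lam s0) :
    ∃ (C : ℝ) (X0 : ℕ), 1 ≤ C ∧ Real.exp 32 ≤ X0 ∧ ∀ (r : ℕ) [NeZero r]
      (Y : Finset (DirichletCharacter ℂ r)) (F : DirichletCharacter ℂ r → ℂ → ℂ),
      (∀ χ ∈ Y, IsL N lam χ (F χ)) → ∀ δ t : ℝ, 0 ≤ δ →
        ∑ χ ∈ Y, ∑ᶠ ρ ∈ Zst (F χ) δ t (1 / Real.log ((r + X0 : ℕ) : ℝ)),
          (analyticOrderNatAt (F χ) ρ : ℝ) ≤
            C * Real.log ((r + X0 : ℕ) : ℝ) ^ 9 * (1 + |t|) ^ 2 * ((r + X0 : ℕ) : ℝ) ^ (1 - δ) := by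
  have hN1 : (1 : ℝ) ≤ N := by exact_mod_cast Nat.one_le_iff_ne_zero.mpr (NeZero.ne N)
  obtain ⟨A, hA, hX⟩ := X_exists4 hN1
  obtain ⟨C, hC1, hC⟩ := l1_bound (s0 := s0) hlam hrs hC₁ hs0 hR
  obtain ⟨X1, hX1⟩ := far hlam hrs hs0 hR
  obtain ⟨X0, hX0⟩ : ∃ X0 : ℕ, X0 = max X1 ⌈Real.exp 32⌉₊ := ⟨_, rfl⟩
  have hX0e : Real.exp 32 ≤ X0 := by
    refine (Nat.le_ceil _).trans ?_
    have : ⌈Real.exp 32⌉₊ ≤ X0 := by rw [hX0]; exact le_max_right _ _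
    exact_mod_cast this
  have hX01 : X1 ≤ X0 := by rw [hX0]; exact le_max_left _ _
  refine ⟨2 * (6 * Real.exp 4 * C * 7 ^ 2), X0, by
    have : 1 ≤ Real.exp 4 := Real.one_le_exp (by norm_num)
    nlinarith, hX0e, ?_⟩
  intro r _ Y F hF δ t hδ
  obtain ⟨R, hRe⟩ : ∃ R : ℕ, R = r + X0 := ⟨_, rfl⟩
  obtain ⟨L, hL⟩ : ∃ L : ℝ, L = Real.log (R : ℝ) := ⟨_, rfl⟩
  rw [← hRe, ← hL]
  have hR32 : Real.exp 32 ≤ R := by
    refine hX0e.trans ?_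
    rw [hRe]; push_cast; linarith [Nat.cast_nonneg (α := ℝ) r]
  have hR0 : (0 : ℝ) < R := lt_of_lt_of_le (Real.exp_pos _) hR32
  have hL32 : 32 ≤ L := by rw [hL, Real.le_log_iff_exp_le hR0]; exact hR32
  have hL0 : 0 < L := by linarith
  have hrR : r ≤ R := by omega
  have hLR : (R : ℝ) = Real.exp L := by rw [hL, Real.exp_log hR0]
  have hr1 : (1 : ℝ) ≤ r := by exact_mod_cast Nat.one_le_iff_ne_zero.mpr (NeZero.ne r)
  have hfinZ : ∀ χ ∈ Y, (Zst (F χ) δ t (1 / L)).Finite := fun χ hχ =>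
    fin_zeros (hF χ hχ).1.diff (F_ne hlam hrs hs0 hR χ (hF χ hχ)) (Zst_bdd _ _ _ _) fun z hz => hz.1
  have hrw : (R : ℝ) ^ (1 - δ) = Real.exp (L - 1 * L * δ) := by
    rw [hLR, ← Real.exp_mul]
    congr 1; ring
  rw [hrw]
  have hbound0 : 0 ≤ 2 * (6 * Real.exp 4 * C * 7 ^ 2) * L ^ 9 * (1 + |t|) ^ 2 *
      Real.exp (L - 1 * L * δ) := by positivity
  rcases lt_or_ge (1 / 2) δ with hδ2 | hδ2
  · -- no zeros
    refine le_trans (le_of_eq ?_) hbound0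
    refine Finset.sum_eq_zero fun χ _ => ?_
    have : Zst (F χ) δ t (1 / L) = ∅ := by
      ext ρ
      simp only [Set.mem_empty_iff_false, iff_false]
      rintro ⟨-, h1, h2, h3, -⟩
      have : |ρ.re - 1 / 2| ≤ 1 / 2 := by rw [abs_le]; constructor <;> linarith
      linarith
    rw [this]
    simp
  -- the two halves
  obtain ⟨Zr, hZr⟩ : ∃ Zr : DirichletCharacter ℂ r → Finset ℂ, ∀ χ, Zr χ =
      if hf : (Zst (F χ) δ t (1 / L)).Finite then hf.toFinset.filter (fun ρ => 1 / 2 ≤ ρ.re) else ∅ :=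
    ⟨_, fun _ => rfl⟩
  obtain ⟨Zl, hZl⟩ : ∃ Zl : DirichletCharacter ℂ r → Finset ℂ, ∀ χ, Zl χ =
      if hf : (Zst (F χ) δ t (1 / L)).Finite then
        (hf.toFinset.filter (fun ρ => ¬ 1 / 2 ≤ ρ.re)).image (fun ρ => 1 - (starRingEnd ℂ) ρ)
      else ∅ := ⟨_, fun _ => rfl⟩
  have hmain : ∀ Z : DirichletCharacter ℂ r → Finset ℂ,
      (∀ χ ∈ Y, ∀ ρ ∈ Z χ, 1 / 2 + δ ≤ ρ.re ∧ ρ.re ≤ 1 ∧ |ρ.im - t| ≤ 1 / L) →
      ∑ χ ∈ Y, ∑ ρ ∈ Z χ, (analyticOrderNatAt (F χ) ρ : ℝ) ≤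
        6 * Real.exp 4 * (C * L ^ 9) * (7 * (1 + |t|)) ^ 2 * Real.exp (L - 1 * L * δ) := by
    intro Z hZ
    exact sum_char1 Y (F := F) (M := fun χ => Mo N lam s0 R χ)
      (fun χ hχ => (hF χ hχ).1.diff) (fun χ _ => Mo_diff χ R) one_pos le_rfl (x0 := 4) (by norm_num)
      hδ hδ2 (by linarith) (by linarith) (by positivity)
      (fun χ hχ => hX1 r R (by omega) χ (F χ) (hF χ hχ)) (fun s hs1 _ => by
        have := hC r R L hrR hL32 hL.symm Y F hF s hs1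
        rw [one_mul]
        exact this) Z hZ
  have h1 := hmain Zr (by
    intro χ hχ ρ hρ
    rw [hZr, dif_pos (hfinZ χ hχ), Finset.mem_filter, Set.Finite.mem_toFinset] at hρ
    obtain ⟨⟨-, h1, h2, h3, h4⟩, h5⟩ := hρ
    rw [abs_of_nonneg (by linarith)] at h3
    exact ⟨by linarith, h2.le, h4⟩)
  have h2 := hmain Zl (by
    intro χ hχ ρ hρ
    rw [hZl, dif_pos (hfinZ χ hχ), Finset.mem_image] at hρ
    obtain ⟨ρ', hρ', rfl⟩ := hρ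
    rw [Finset.mem_filter, Set.Finite.mem_toFinset] at hρ'
    obtain ⟨⟨-, h1, h2, h3, h4⟩, h5⟩ := hρ'
    rw [abs_of_neg (by linarith)] at h3
    have e1 : (1 - (starRingEnd ℂ) ρ').re = 1 - ρ'.re := by simp
    have e2 : (1 - (starRingEnd ℂ) ρ').im = ρ'.im := by simp
    rw [e1, e2]
    exact ⟨by linarith, by linarith, h4⟩)
  have h3 : ∀ χ ∈ Y, ∑ᶠ ρ ∈ Zst (F χ) δ t (1 / L), (analyticOrderNatAt (F χ) ρ : ℝ) =
      ∑ ρ ∈ Zr χ, (analyticOrderNatAt (F χ) ρ : ℝ) + ∑ ρ ∈ Zl χ, (analyticOrderNatAt (F χ) ρ : ℝ) := by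
    intro χ hχ
    have hf := hfinZ χ hχ
    obtain ⟨X, hX1, hX2, -, hX4⟩ := hX r hr1 (F χ) (hF χ hχ).1
    rw [finsum_mem_eq_finite_toFinset_sum _ hf, hZr, hZl, dif_pos hf, dif_pos hf,
      Finset.sum_image (by
        intro a _ b _ hab
        have h4 : (starRingEnd ℂ) a = (starRingEnd ℂ) b := by
          have : (1 : ℂ) - (starRingEnd ℂ) a = 1 - (starRingEnd ℂ) b := hab
          linear_combination -this
        exact (starRingEnd ℂ).injective h4),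
      ← Finset.sum_filter_add_sum_filter_not hf.toFinset (fun ρ => 1 / 2 ≤ ρ.re)]
    congr 1
    refine Finset.sum_congr rfl fun ρ hρ => ?_
    rw [Finset.mem_filter, Set.Finite.mem_toFinset] at hρ
    obtain ⟨⟨-, h1, h2, -, -⟩, -⟩ := hρ
    rw [ord_symm (hF χ hχ).1.diff (fun z hz => hX1 z (by linarith))
      (fun z hz => hX2 z (by linarith)) h2 (hX4 ρ h1 h2)]
  rw [Finset.sum_congr rfl h3, Finset.sum_add_distrib]
  have h4 : (7 * (1 + |t|)) ^ 2 = 7 ^ 2 * (1 + |t|) ^ 2 := mul_pow _ _ _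
  rw [h4] at h1 h2
  linarith

end Pool.Agent.H13.TD
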