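import Mathlib

/-!
# Sums of divisor functions (helper13)
-/

set_option autoImplicit false

open Finset

namespace Pool.Agent.H13.TD

/-- the number of divisors -/
def dd (n : ℕ) : ℝ := (n.divisors.card : ℝ)

lemma dd_nonneg (n : ℕ) : 0 ≤ dd n := Nat.cast_nonneg _

lemma dd_mul_le (a b : ℕ) : dd (a * b) ≤ dd a * dd b := by
  unfold dd
  rw [Nat.divisors_mul, ← Nat.cast_mul]
  exact_mod_cast Finset.card_mul_le

/-- the Dirichlet convolution -/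
def cv (f g : ℕ → ℝ) (n : ℕ) : ℝ := ∑ x ∈ n.divisorsAntidiagonal, f x.1 * g x.2

lemma cv_nonneg {f g : ℕ → ℝ} (hf : ∀ n, 0 ≤ f n) (hg : ∀ n, 0 ≤ g n) (n : ℕ) : 0 ≤ cv f g n :=
  Finset.sum_nonneg fun x _ => mul_nonneg (hf _) (hg _)

theorem conv_le (f g : ℕ → ℝ) (hf : ∀ n, 0 ≤ f n) (hg : ∀ n, 0 ≤ g n) (s : ℝ) (N : ℕ) :
    ∑ n ∈ Icc 1 N, cv f g n * (n : ℝ) ^ (-s) ≤
      (∑ n ∈ Icc 1 N, f n * (n : ℝ) ^ (-s)) * ∑ n ∈ Icc 1 N, g n * (n : ℝ) ^ (-s) := by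
  classical
  have h1 : ∑ n ∈ Icc 1 N, cv f g n * (n : ℝ) ^ (-s) =
      ∑ x ∈ (Icc 1 N).biUnion Nat.divisorsAntidiagonal,
        (f x.1 * (x.1 : ℝ) ^ (-s)) * (g x.2 * (x.2 : ℝ) ^ (-s)) := by
    rw [Finset.sum_biUnion]
    · refine Finset.sum_congr rfl fun n _ => ?_
      unfold cv
      rw [Finset.sum_mul]
      refine Finset.sum_congr rfl fun x hx => ?_
      have hx' := (Nat.mem_divisorsAntidiagonal.mp hx).1
      rw [← hx', Nat.cast_mul, Real.mul_rpow (Nat.cast_nonneg _) (Nat.cast_nonneg _)]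
      ring
    · intro m _ n _ hmn
      rw [Function.onFun, Finset.disjoint_left]
      intro x hx hx'
      apply hmn
      rw [← (Nat.mem_divisorsAntidiagonal.mp hx).1, ← (Nat.mem_divisorsAntidiagonal.mp hx').1]
  rw [h1, Finset.sum_mul_sum, ← Finset.sum_product']
  apply Finset.sum_le_sum_of_subset_of_nonneg
  · intro x hx
    rw [Finset.mem_biUnion] at hx
    obtain ⟨n, hn, hx⟩ := hx
    obtain ⟨h2, h3⟩ := Nat.mem_divisorsAntidiagonal.mp hx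
    rw [Finset.mem_Icc] at hn
    rw [Finset.mem_product, Finset.mem_Icc, Finset.mem_Icc]
    have hx1 : x.1 ≠ 0 := by rintro h; rw [h, zero_mul] at h2; exact h3 h2.symm
    have hx2 : x.2 ≠ 0 := by rintro h; rw [h, mul_zero] at h2; exact h3 h2.symm
    have e1 : x.1 ≤ n := by
      rw [← h2]; exact Nat.le_mul_of_pos_right _ (Nat.pos_of_ne_zero hx2)
    have e2 : x.2 ≤ n := by
      rw [← h2]; exact Nat.le_mul_of_pos_left _ (Nat.pos_of_ne_zero hx1)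
    exact ⟨⟨Nat.pos_of_ne_zero hx1, e1.trans hn.2⟩, ⟨Nat.pos_of_ne_zero hx2, e2.trans hn.2⟩⟩
  · intro x _ _
    have := hf x.1
    have := hg x.2
    positivity

theorem tau_step (g : ℕ → ℝ) (hg : ∀ n, 0 ≤ g n) (hm : ∀ a b, g (a * b) ≤ g a * g b) (s : ℝ)
    (N : ℕ) : ∑ n ∈ Icc 1 N, (dd n * g n) * (n : ℝ) ^ (-s) ≤
      (∑ n ∈ Icc 1 N, g n * (n : ℝ) ^ (-s)) ^ 2 := by
  rw [pow_two]
  refine le_trans ?_ (conv_le g g hg hg s N)
  refine Finset.sum_le_sum fun n _ => ?_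
  apply mul_le_mul_of_nonneg_right _ (by positivity)
  unfold cv dd
  rw [Nat.sum_divisorsAntidiagonal (f := fun a b => g a * g b), ← nsmul_eq_mul,
    ← Finset.sum_const]
  refine Finset.sum_le_sum fun d hd => ?_
  have hd' := Nat.mul_div_cancel' (Nat.mem_divisors.mp hd).1
  calc g n = g (d * (n / d)) := by rw [hd']
    _ ≤ _ := hm _ _

/-- the partial sums of the zeta function -/
noncomputable def ZN (N : ℕ) (s : ℝ) : ℝ := ∑ n ∈ Icc 1 N, (n : ℝ) ^ (-s)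

lemma ZN_nonneg (N : ℕ) (s : ℝ) : 0 ≤ ZN N s := Finset.sum_nonneg fun _ _ => by positivity

theorem sum_dd (N : ℕ) (s : ℝ) : ∑ n ∈ Icc 1 N, dd n * (n : ℝ) ^ (-s) ≤ ZN N s ^ 2 := by
  have := tau_step (fun _ => 1) (fun _ => zero_le_one) (fun _ _ => by norm_num) s N
  simpa [ZN] using this

theorem sum_dd2 (N : ℕ) (s : ℝ) : ∑ n ∈ Icc 1 N, dd n ^ 2 * (n : ℝ) ^ (-s) ≤ ZN N s ^ 4 := by
  have h1 := tau_step dd dd_nonneg dd_mul_le s N
  have h2 := sum_dd N s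
  calc ∑ n ∈ Icc 1 N, dd n ^ 2 * (n : ℝ) ^ (-s)
      = ∑ n ∈ Icc 1 N, (dd n * dd n) * (n : ℝ) ^ (-s) := by simp_rw [pow_two]
    _ ≤ _ := h1
    _ ≤ (ZN N s ^ 2) ^ 2 := by
        apply pow_le_pow_left₀ _ h2
        exact Finset.sum_nonneg fun n _ => mul_nonneg (dd_nonneg n) (by positivity)
    _ = _ := by ring

theorem sum_dd3 (N : ℕ) (s : ℝ) : ∑ n ∈ Icc 1 N, dd n ^ 3 * (n : ℝ) ^ (-s) ≤ ZN N s ^ 8 := by
  have h1 := tau_step (fun n => dd n ^ 2) (fun n => by positivity) (fun a b => by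
    have := dd_mul_le a b
    calc dd (a * b) ^ 2 ≤ (dd a * dd b) ^ 2 := pow_le_pow_left₀ (dd_nonneg _) this 2
      _ = _ := by ring) s N
  have h2 := sum_dd2 N s
  calc ∑ n ∈ Icc 1 N, dd n ^ 3 * (n : ℝ) ^ (-s)
      = ∑ n ∈ Icc 1 N, (dd n * dd n ^ 2) * (n : ℝ) ^ (-s) :=
        Finset.sum_congr rfl fun n _ => by ring
    _ ≤ _ := h1
    _ ≤ (ZN N s ^ 4) ^ 2 := by
        apply pow_le_pow_left₀ _ h2
        exact Finset.sum_nonneg fun n _ => by positivity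
    _ = _ := by ring

/-- the square of a convolution -/
theorem conv_sq {x y : ℕ → ℝ} (hx : ∀ n, |x n| ≤ dd n) (hy : ∀ n, |y n| ≤ dd n) (n : ℕ) :
    cv x y n ^ 2 ≤ cv (fun n => dd n ^ 3) (fun n => dd n ^ 3) n := by
  rcases Nat.eq_zero_or_pos n with rfl | hn
  · simp [cv]
  unfold cv
  have h1 : |∑ p ∈ n.divisorsAntidiagonal, x p.1 * y p.2| ≤
      ∑ p ∈ n.divisorsAntidiagonal, dd p.1 * dd p.2 := by
    refine (Finset.abs_sum_le_sum_abs _ _).trans (Finset.sum_le_sum fun p _ => ?_)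
    rw [abs_mul]
    exact mul_le_mul (hx _) (hy _) (abs_nonneg _) (dd_nonneg _)
  have h2 := Finset.sum_mul_sq_le_sq_mul_sq n.divisorsAntidiagonal (fun _ => (1 : ℝ))
    (fun p => dd p.1 * dd p.2)
  simp only [one_mul, one_pow, Finset.sum_const, nsmul_eq_mul, mul_one] at h2
  have h3 : (n.divisorsAntidiagonal.card : ℝ) = dd n := by
    unfold dd
    rw [← Nat.map_div_right_divisors, Finset.card_map]
  rw [h3] at h2
  calc (∑ p ∈ n.divisorsAntidiagonal, x p.1 * y p.2) ^ 2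
      = |∑ p ∈ n.divisorsAntidiagonal, x p.1 * y p.2| ^ 2 := (sq_abs _).symm
    _ ≤ (∑ p ∈ n.divisorsAntidiagonal, dd p.1 * dd p.2) ^ 2 := pow_le_pow_left₀ (abs_nonneg _) h1 2
    _ ≤ dd n * ∑ p ∈ n.divisorsAntidiagonal, (dd p.1 * dd p.2) ^ 2 := h2
    _ = ∑ p ∈ n.divisorsAntidiagonal, dd n * (dd p.1 * dd p.2) ^ 2 := Finset.mul_sum _ _ _
    _ ≤ _ := by
        refine Finset.sum_le_sum fun p hp => ?_
        have h4 := (Nat.mem_divisorsAntidiagonal.mp hp).1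
        have h5 : dd n ≤ dd p.1 * dd p.2 := by rw [← h4]; exact dd_mul_le _ _
        calc dd n * (dd p.1 * dd p.2) ^ 2 ≤ (dd p.1 * dd p.2) * (dd p.1 * dd p.2) ^ 2 :=
              mul_le_mul_of_nonneg_right h5 (by positivity)
          _ = _ := by ring

theorem sum_conv_sq {x y : ℕ → ℝ} (hx : ∀ n, |x n| ≤ dd n) (hy : ∀ n, |y n| ≤ dd n) (N : ℕ)
    (s : ℝ) : ∑ n ∈ Icc 1 N, cv x y n ^ 2 * (n : ℝ) ^ (-s) ≤ ZN N s ^ 16 := by
  have h0 : ∀ n, 0 ≤ dd n ^ 3 := fun n => pow_nonneg (dd_nonneg n) 3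
  have h1 := conv_le (fun n => dd n ^ 3) (fun n => dd n ^ 3) h0 h0 s N
  have h2 := sum_dd3 N s
  calc ∑ n ∈ Icc 1 N, cv x y n ^ 2 * (n : ℝ) ^ (-s)
      ≤ ∑ n ∈ Icc 1 N, cv (fun n => dd n ^ 3) (fun n => dd n ^ 3) n * (n : ℝ) ^ (-s) := by
        refine Finset.sum_le_sum fun n _ => ?_
        exact mul_le_mul_of_nonneg_right (conv_sq hx hy n) (by positivity)
    _ ≤ _ := h1
    _ = (∑ n ∈ Icc 1 N, dd n ^ 3 * (n : ℝ) ^ (-s)) ^ 2 := by ring
    _ ≤ (ZN N s ^ 8) ^ 2 := by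
        apply pow_le_pow_left₀ _ h2
        exact Finset.sum_nonneg fun n _ => mul_nonneg (h0 n) (by positivity)
    _ = _ := by ring

lemma rpow_step {η : ℝ} (hη : 0 < η) {n : ℕ} (hn : 1 ≤ n) :
    ((n + 1 : ℕ) : ℝ) ^ (-(1 + η)) ≤ 1 / η * ((n : ℝ) ^ (-η) - ((n + 1 : ℕ) : ℝ) ^ (-η)) := by
  have hn0 : (0 : ℝ) < n := by exact_mod_cast hn
  have hm0 : (0 : ℝ) < ((n + 1 : ℕ) : ℝ) := by positivity
  set m : ℝ := ((n + 1 : ℕ) : ℝ) with hm
  have hmn : (n : ℝ) = m * (1 - 1 / m) := by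
    rw [hm]; push_cast; field_simp; ring
  have h1 : 0 < 1 - 1 / m := by
    have : 0 < m * (1 - 1 / m) := by rw [← hmn]; exact hn0
    exact (mul_pos_iff_of_pos_left hm0).mp this
  have h2 : 1 + η / m ≤ (1 - 1 / m) ^ (-η) := by
    rw [Real.rpow_def_of_pos h1]
    have h3 := Real.log_le_sub_one_of_pos h1
    have h4 : η / m ≤ Real.log (1 - 1 / m) * -η := by
      have : Real.log (1 - 1 / m) ≤ -(1 / m) := by linarith
      calc η / m = (1 / m) * η := by ring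
        _ ≤ (-Real.log (1 - 1 / m)) * η := mul_le_mul_of_nonneg_right (by linarith) hη.le
        _ = _ := by ring
    have h5 := Real.add_one_le_exp (Real.log (1 - 1 / m) * -η)
    linarith
  have h6 : (n : ℝ) ^ (-η) = m ^ (-η) * (1 - 1 / m) ^ (-η) := by
    rw [hmn, Real.mul_rpow hm0.le h1.le]
  have h7 : m ^ (-(1 + η)) = m ^ (-η) * (1 / m) := by
    rw [show -(1 + η) = -η + -1 by ring, Real.rpow_add hm0, Real.rpow_neg_one, one_div]
  rw [h6, h7]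
  have h8 : 0 < m ^ (-η) := Real.rpow_pos_of_pos hm0 _
  calc m ^ (-η) * (1 / m) = 1 / η * (m ^ (-η) * (1 + η / m) - m ^ (-η)) := by field_simp; ring
    _ ≤ _ := by
        apply mul_le_mul_of_nonneg_left _ (by positivity)
        have := mul_le_mul_of_nonneg_left h2 h8.le
        linarith

lemma ZN_le {η : ℝ} (hη : 0 < η) (N : ℕ) : ZN N (1 + η) ≤ 1 + 1 / η := by
  have h : ∀ N : ℕ, 1 ≤ N → ZN N (1 + η) ≤ 1 + 1 / η * (1 - (N : ℝ) ^ (-η)) := by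
    intro N hN
    induction N, hN using Nat.le_induction with
    | base => simp [ZN]
    | succ n hn ih =>
      unfold ZN at ih ⊢
      rw [Finset.sum_Icc_succ_top (by omega)]
      have := rpow_step hη hn
      linarith
  rcases Nat.eq_zero_or_pos N with rfl | hN
  · simp [ZN]; positivity
  · refine (h N hN).trans ?_
    have h1 : 0 ≤ (N : ℝ) ^ (-η) := by positivity
    have h2 : 1 / η * (1 - (N : ℝ) ^ (-η)) ≤ 1 / η * 1 :=
      mul_le_mul_of_nonneg_left (by linarith) (by positivity)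
    linarith

/-- from the exponent `1 + η` to the exponent `1` -/
lemma to_one {f : ℕ → ℝ} (hf : ∀ n, 0 ≤ f n) {N : ℕ} {η κ : ℝ} (hN : η * Real.log N ≤ κ)
    (hη : 0 ≤ η) (s : ℝ) : ∑ n ∈ Icc 1 N, f n * (n : ℝ) ^ (-s) ≤
      Real.exp κ * ∑ n ∈ Icc 1 N, f n * (n : ℝ) ^ (-(s + η)) := by
  rw [Finset.mul_sum]
  refine Finset.sum_le_sum fun n hn => ?_
  rw [Finset.mem_Icc] at hn
  have hn0 : (0 : ℝ) < n := by exact_mod_cast hn.1
  have h1 : (n : ℝ) ^ η ≤ Real.exp κ := by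
    rw [Real.rpow_def_of_pos hn0]
    apply Real.exp_le_exp.mpr
    have h2 : Real.log n ≤ Real.log N := Real.log_le_log hn0 (by exact_mod_cast hn.2)
    calc Real.log n * η ≤ Real.log N * η := mul_le_mul_of_nonneg_right h2 hη
      _ = η * Real.log N := mul_comm _ _
      _ ≤ κ := hN
  have h3 : (n : ℝ) ^ (-s) = (n : ℝ) ^ η * (n : ℝ) ^ (-(s + η)) := by
    rw [← Real.rpow_add hn0]; congr 1; ring
  rw [h3]
  have h4 : 0 ≤ f n * (n : ℝ) ^ (-(s + η)) := mul_nonneg (hf n) (by positivity)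
  calc f n * ((n : ℝ) ^ η * (n : ℝ) ^ (-(s + η))) = (n : ℝ) ^ η * (f n * (n : ℝ) ^ (-(s + η))) := by ring
    _ ≤ _ := mul_le_mul_of_nonneg_right h1 h4

end Pool.Agent.H13.TD
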