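import Pool.Agent.Helper13.TD.Ms

/-!
# The first mean of the mollified functions (helper13)
-/

set_option autoImplicit false

open Finset Complex Filter Topology
open scoped ComplexConjugate

namespace Pool.Agent.H13.TD

section

variable {N : ℕ} {lam : ℕ → ℝ} {C₁ : ℝ} {s0 : ℕ}

/-- the mollifier -/
noncomputable def Mo (N : ℕ) (lam : ℕ → ℝ) (s0 R : ℕ) {r : ℕ} (χ : DirichletCharacter ℂ r) (z : ℂ) :
    ℂ :=
  Dp χ (s0 ^ 2).divisors (nu N lam s0) z * Dp χ (Icc 1 R) (mu N lam s0) z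

/-- the coefficients of the tail -/
noncomputable def bX (N : ℕ) (lam : ℕ → ℝ) (s0 R n : ℕ) : ℝ := if R < n then cX N lam s0 R n else 0

lemma Mo_diff {r : ℕ} [NeZero r] (χ : DirichletCharacter ℂ r) (R : ℕ) :
    Differentiable ℂ (Mo N lam s0 R χ) := by
  unfold Mo
  exact (Dp_diff χ (by simp) _).mul (Dp_diff χ (by simp) _)

lemma bX_supp {R n : ℕ} (h : bX N lam s0 R n ≠ 0) : (R : ℝ) ≤ n := by
  unfold bX at h
  by_contra h'
  apply h
  rw [if_neg]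
  intro h2
  apply h'
  exact_mod_cast h2.le

lemma bX_sum (hlam : W388.HeckeSeq N lam) (hR : Ram N lam s0) (R : ℕ) {η : ℝ} (hη : 0 < η) :
    Summable (fun n : ℕ => bX N lam s0 R n ^ 2 * (n : ℝ) ^ (-(1 + η))) ∧
      ∑' n : ℕ, bX N lam s0 R n ^ 2 * (n : ℝ) ^ (-(1 + η)) ≤ (1 + 1 / η) ^ 16 := by
  have h1 : ∀ n, 0 ≤ bX N lam s0 R n ^ 2 * (n : ℝ) ^ (-(1 + η)) := fun n => by positivity
  refine sum_of_partial h1 (by simp [bX]) fun Y => ?_
  refine le_trans (Finset.sum_le_sum fun n _ => ?_) ((sum_cX hlam hR R Y (1 + η)).trans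
    (pow_le_pow_left₀ (ZN_nonneg _ _) (ZN_le hη Y) 16))
  apply mul_le_mul_of_nonneg_right _ (by positivity)
  unfold bX
  split_ifs
  · exact le_rfl
  · rw [zero_pow two_ne_zero]; exact sq_nonneg _

/-- **the mollified function minus one is a tail** -/
theorem one_sub {r : ℕ} [NeZero r] (hlam : W388.HeckeSeq N lam) (hrs : RSB lam C₁) (hs0 : s0 ≠ 0)
    (χ : DirichletCharacter ℂ r) {F : ℂ → ℂ} (hF : IsL N lam χ F) {R : ℕ} (hR1 : 1 ≤ R) {z : ℂ}
    (hz : 1 < z.re) : 1 - F z * Mo N lam s0 R χ z =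
      -∑' n : ℕ, (bX N lam s0 R n : ℂ) * χ (n : ZMod r) * (n : ℂ) ^ (-z) := by
  have hsum := twist_summable hlam hrs χ hz
  obtain ⟨h1, h2⟩ := ser_prod χ hlam hs0 R hz hsum
  unfold Mo
  rw [hF.2 z hz, h1]
  have h3 := h2.of_norm
  set f : ℕ → ℂ := fun n => (cX N lam s0 R n : ℂ) * χ (n : ZMod r) * (n : ℂ) ^ (-z) with hf
  set h : ℕ → ℂ := fun n => (bX N lam s0 R n : ℂ) * χ (n : ZMod r) * (n : ℂ) ^ (-z) with hh
  set g : ℕ → ℂ := fun n => if n = 1 then 1 else 0 with hg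
  have h4 : ∀ n, f n = g n + h n := by
    intro n
    simp only [hf, hg, hh]
    rcases Nat.eq_zero_or_pos n with rfl | hn
    · simp [bX, cX_zero']
    · unfold bX
      by_cases hRn : R < n
      · rw [if_pos hRn, if_neg (by omega), zero_add]
      · rw [if_neg hRn, cX_small hlam (by omega) (by omega)]
        split_ifs with h1
        · rw [h1]; simp
        · simp
  have hgs : Summable g := summable_of_ne_finset_zero (s := {1}) (fun n hn => by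
    simp only [hg]; rw [if_neg (by simpa using hn)])
  have hhs : Summable h := by
    have : h = fun n => f n - g n := by
      funext n; rw [h4 n]; ring
    rw [this]
    exact h3.sub hgs
  have h5 : ∑' n, f n = 1 + ∑' n, h n := by
    rw [tsum_congr h4, hgs.tsum_add hhs]
    congr 1
    rw [tsum_eq_single 1 (fun n hn => by simp only [hg]; rw [if_neg hn])]
    simp [hg]
  rw [h5]
  ring

/-- first mean from the mean square -/
lemma sum_le_sqrt {α : Type} (Y : Finset α) (f : α → ℝ) (hf : ∀ i, 0 ≤ f i) {A B : ℝ}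
    (hY : (Y.card : ℝ) ≤ A) (hB : ∑ i ∈ Y, f i ^ 2 ≤ B) : ∑ i ∈ Y, f i ≤ Real.sqrt (A * B) := by
  apply Real.le_sqrt_of_sq_le
  have h1 := Finset.sum_mul_sq_le_sq_mul_sq Y (fun _ => (1 : ℝ)) f
  simp only [one_mul, one_pow, Finset.sum_const, nsmul_eq_mul, mul_one] at h1
  refine h1.trans ?_
  exact mul_le_mul hY hB (Finset.sum_nonneg fun i _ => by positivity)
    ((Nat.cast_nonneg _).trans hY)

lemma card_le {r : ℕ} [NeZero r] (Y : Finset (DirichletCharacter ℂ r)) : (Y.card : ℝ) ≤ r := by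
  have h1 : Y.card ≤ Fintype.card (DirichletCharacter ℂ r) := Finset.card_le_univ Y
  have h2 : Fintype.card (DirichletCharacter ℂ r) = r.totient := by
    rw [← Nat.card_eq_fintype_card]
    exact DirichletCharacter.card_eq_totient_of_hasEnoughRootsOfUnity ℂ r
  have h3 := Nat.totient_le r
  exact_mod_cast h1.trans (h2.le.trans h3)

/-- the half plane of convergence -/
theorem l1_right (hlam : W388.HeckeSeq N lam) (hrs : RSB lam C₁) (hs0 : s0 ≠ 0)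
    (hR : Ram N lam s0) {r : ℕ} [NeZero r] {R : ℕ} (hrR : r ≤ R) {L : ℝ} (hL : 2 ≤ L)
    (hRL : Real.log R = L) (Y : Finset (DirichletCharacter ℂ r))
    {F : DirichletCharacter ℂ r → ℂ → ℂ} (hF : ∀ χ ∈ Y, IsL N lam χ (F χ)) {s : ℂ}
    (hs : 1 + 1 / L ≤ s.re) :
    ∑ χ ∈ Y, ‖1 - F χ s * Mo N lam s0 R χ s‖ ≤
      512 * Real.exp 1 * L ^ 9 * Real.exp (L - L * (s.re - 1 / 2)) := by
  have hL0 : 0 < L := by linarith
  have hr1 : (1 : ℝ) ≤ r := by exact_mod_cast Nat.one_le_iff_ne_zero.mpr (NeZero.ne r)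
  have hrR' : (r : ℝ) ≤ R := by exact_mod_cast hrR
  have hR1 : (1 : ℝ) ≤ R := hr1.trans hrR'
  have hR0 : (0 : ℝ) < R := by linarith
  have hR1' : 1 ≤ R := by exact_mod_cast hR1
  have hη : 0 < 1 / L := by positivity
  obtain ⟨hb1, hb2⟩ := bX_sum hlam hR R hη
  have h1 := tail_ms (r := r) (bX N lam s0 R) hη hs hR1 (fun n hn => bX_supp hn) hb1 rfl
  have h2 : ∑ χ ∈ Y, ‖1 - F χ s * Mo N lam s0 R χ s‖ ^ 2 ≤
      (2 * L) ^ 17 * (R : ℝ) ^ (-(2 * (s.re - (1 + 1 / L)))) := by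
    have e1 : ∀ χ ∈ Y, ‖1 - F χ s * Mo N lam s0 R χ s‖ ^ 2 =
        ‖∑' n : ℕ, (bX N lam s0 R n : ℂ) * χ (n : ZMod r) * (n : ℂ) ^ (-s)‖ ^ 2 := by
      intro χ hχ
      rw [one_sub hlam hrs hs0 χ (hF χ hχ) hR1' (by linarith), norm_neg]
    rw [Finset.sum_congr rfl e1]
    refine (Finset.sum_le_univ_sum_of_nonneg (fun _ => by positivity)).trans (h1.trans ?_)
    have e2 : (r : ℝ) / R + (1 + 1 / L) / (1 / L) ≤ 2 * L := by
      have e3 : (r : ℝ) / R ≤ 1 := (div_le_one hR0).mpr hrR'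
      have : (1 + 1 / L) / (1 / L) = L + 1 := by field_simp
      rw [this]; linarith
    have e4 : ∑' n : ℕ, bX N lam s0 R n ^ 2 * (n : ℝ) ^ (-(1 + 1 / L)) ≤ (2 * L) ^ 16 := by
      refine hb2.trans (pow_le_pow_left₀ (by positivity) ?_ 16)
      rw [one_div_one_div]; linarith
    have e5 : 0 ≤ (R : ℝ) ^ (-(2 * (s.re - (1 + 1 / L)))) := by positivity
    calc ((r : ℝ) / R + (1 + 1 / L) / (1 / L)) * ((R : ℝ) ^ (-(2 * (s.re - (1 + 1 / L)))) *
          ∑' n : ℕ, bX N lam s0 R n ^ 2 * (n : ℝ) ^ (-(1 + 1 / L)))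
        ≤ (2 * L) * ((R : ℝ) ^ (-(2 * (s.re - (1 + 1 / L)))) * (2 * L) ^ 16) := by
          apply mul_le_mul e2 _ (by positivity) (by positivity)
          exact mul_le_mul_of_nonneg_left e4 e5
      _ = _ := by ring
  have h3 := sum_le_sqrt Y (fun χ => ‖1 - F χ s * Mo N lam s0 R χ s‖) (fun _ => norm_nonneg _)
    ((card_le Y).trans hrR') h2
  refine h3.trans ?_
  -- the square root
  have h4 : (R : ℝ) * ((2 * L) ^ 17 * (R : ℝ) ^ (-(2 * (s.re - (1 + 1 / L))))) ≤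
      (512 * Real.exp 1 * L ^ 9 * Real.exp (L - L * (s.re - 1 / 2))) ^ 2 := by
    have hRe : (R : ℝ) = Real.exp L := by rw [← hRL, Real.exp_log hR0]
    have e1 : (R : ℝ) * (R : ℝ) ^ (-(2 * (s.re - (1 + 1 / L)))) =
        (Real.exp 1 * Real.exp (L - L * (s.re - 1 / 2))) ^ 2 := by
      rw [Real.rpow_def_of_pos hR0, hRL, hRe, ← Real.exp_add, ← Real.exp_add, ← Real.exp_nat_mul]
      congr 1
      push_cast
      field_simp
      ring
    have e2 : (2 * L) ^ 17 ≤ 512 ^ 2 * L ^ 18 := by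
      have : (2 * L) ^ 17 = 131072 * L ^ 17 := by ring
      rw [this]
      have h0 : 0 < L ^ 17 := by positivity
      have : L ^ 18 = L ^ 17 * L := by ring
      rw [this]
      nlinarith
    calc (R : ℝ) * ((2 * L) ^ 17 * (R : ℝ) ^ (-(2 * (s.re - (1 + 1 / L)))))
        = (2 * L) ^ 17 * ((R : ℝ) * (R : ℝ) ^ (-(2 * (s.re - (1 + 1 / L))))) := by ring
      _ = (2 * L) ^ 17 * (Real.exp 1 * Real.exp (L - L * (s.re - 1 / 2))) ^ 2 := by rw [e1]
      _ ≤ (512 ^ 2 * L ^ 18) * (Real.exp 1 * Real.exp (L - L * (s.re - 1 / 2))) ^ 2 := by gcongr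
      _ = _ := by ring
  rw [← Real.sqrt_sq (by positivity : 0 ≤ 512 * Real.exp 1 * L ^ 9 *
    Real.exp (L - L * (s.re - 1 / 2)))]
  exact Real.sqrt_le_sqrt h4

/-- the line `1/2 - 4/L` -/
theorem l1_left [NeZero N] (hlam : W388.HeckeSeq N lam) (hrs : RSB lam C₁) (hC₁ : 0 ≤ C₁)
    (hR : Ram N lam s0) : ∃ C : ℝ, 1 ≤ C ∧
      ∀ (r : ℕ) [NeZero r] (R : ℕ) (L : ℝ), r ≤ R → 32 ≤ L → Real.log R = L →
      ∀ (Y : Finset (DirichletCharacter ℂ r)) (F : DirichletCharacter ℂ r → ℂ → ℂ),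
        (∀ χ ∈ Y, IsL N lam χ (F χ)) → ∀ s : ℂ, s.re = 1 / 2 - 4 / L →
          ∑ χ ∈ Y, ‖1 - F χ s * Mo N lam s0 R χ s‖ ≤ C * R * L ^ 3 * (1 + |s.im|) ^ 2 := by
  obtain ⟨C, hC1, hC⟩ := ms_half hlam hrs hC₁
  -- the bound of the first factor
  obtain ⟨P, hP⟩ : ∃ P : ℝ, P = ∑ n ∈ (s0 ^ 2).divisors, |nu N lam s0 n| := ⟨_, rfl⟩
  have hP0 : 0 ≤ P := by rw [hP]; exact Finset.sum_nonneg fun _ _ => abs_nonneg _
  refine ⟨1 + Real.sqrt (C * (P ^ 2 * (32 * Real.exp 9))), by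
    linarith [Real.sqrt_nonneg (C * (P ^ 2 * (32 * Real.exp 9)))], ?_⟩
  intro r _ R L hrR hL hRL Y F hF s hs
  have hL0 : 0 < L := by linarith
  have hr1 : (1 : ℝ) ≤ r := by exact_mod_cast Nat.one_le_iff_ne_zero.mpr (NeZero.ne r)
  have hrR' : (r : ℝ) ≤ R := by exact_mod_cast hrR
  have hR1 : (1 : ℝ) ≤ R := hr1.trans hrR'
  have hR0 : (0 : ℝ) < R := by linarith
  have hx0 : 0 ≤ s.re := by
    rw [hs]
    have : 4 / L ≤ 4 / 32 := div_le_div_of_nonneg_left (by norm_num) (by norm_num) hL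
    linarith
  have h1 := hC r L hL (by
    rw [← hRL]
    exact Real.log_le_log (by linarith) hrR') Y F hF s hs
  -- the mollifier
  have h2 : ∑ χ ∈ Y, ‖Mo N lam s0 R χ s‖ ^ 2 ≤ P ^ 2 * (32 * Real.exp 9) * R * L ^ 4 := by
    have e1 : ∀ χ ∈ Y, ‖Mo N lam s0 R χ s‖ ^ 2 ≤ P ^ 2 * ‖Dp χ (Icc 1 R) (mu N lam s0) s‖ ^ 2 := by
      intro χ _
      unfold Mo
      rw [norm_mul, mul_pow]
      apply mul_le_mul_of_nonneg_right _ (by positivity)
      apply pow_le_pow_left₀ (norm_nonneg _)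
      refine (norm_Dp_le χ (by simp) (nu N lam s0) hx0).trans ?_
      rw [hP]
      refine Finset.sum_le_sum fun n _ => ?_
      rw [neg_zero, Real.rpow_zero, mul_one]
    refine (Finset.sum_le_sum e1).trans ?_
    rw [← Finset.mul_sum, mul_assoc (P ^ 2), mul_assoc (P ^ 2)]
    apply mul_le_mul_of_nonneg_left _ (by positivity)
    refine (Finset.sum_le_univ_sum_of_nonneg (fun _ => by positivity)).trans
      ((poly_ms (mu N lam s0) R s).trans ?_)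
    have e2 := shift_sum (mu N lam s0) R (y := -(2 * s.re)) (θ := 9 * (1 / L)) (η := 1 / L)
      (by positivity) (by
        rw [hs]
        apply le_of_eq
        field_simp
        ring)
    have e3 : (R : ℝ) ^ (9 * (1 / L)) ≤ Real.exp 9 := rpow_le_exp hR1 hRL.le hL0 (by norm_num)
    have e4 : ∑ n ∈ Icc 1 R, mu N lam s0 n ^ 2 * (n : ℝ) ^ (-(1 + 1 / L)) ≤ (2 * L) ^ 4 := by
      refine (sum_mu hR R (1 + 1 / L)).trans (pow_le_pow_left₀ (ZN_nonneg _ _) ?_ 4)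
      refine (ZN_le (by positivity) R).trans ?_
      rw [one_div_one_div]; linarith
    calc ((r : ℝ) + R) * ∑ n ∈ Icc 1 R, mu N lam s0 n ^ 2 * (n : ℝ) ^ (-(2 * s.re))
        ≤ ((R : ℝ) + R) * ((R : ℝ) ^ (9 * (1 / L)) *
          ∑ n ∈ Icc 1 R, mu N lam s0 n ^ 2 * (n : ℝ) ^ (-(1 + 1 / L))) := by
          apply mul_le_mul (by linarith) e2 (Finset.sum_nonneg fun _ _ => by positivity)
            (by positivity)
      _ ≤ ((R : ℝ) + R) * (Real.exp 9 * (2 * L) ^ 4) := by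
          have e5 : 0 ≤ ∑ n ∈ Icc 1 R, mu N lam s0 n ^ 2 * (n : ℝ) ^ (-(1 + 1 / L)) :=
            Finset.sum_nonneg fun _ _ => by positivity
          gcongr
      _ = _ := by ring
  -- Cauchy-Schwarz
  have h3 : (∑ χ ∈ Y, ‖F χ s‖ * ‖Mo N lam s0 R χ s‖) ≤
      Real.sqrt (C * (P ^ 2 * (32 * Real.exp 9))) * R * L ^ 3 * (1 + |s.im|) ^ 2 := by
    have e1 := Finset.sum_mul_sq_le_sq_mul_sq Y (fun χ => ‖F χ s‖) (fun χ => ‖Mo N lam s0 R χ s‖)
    have e2 : (∑ χ ∈ Y, ‖F χ s‖ ^ 2) * ∑ χ ∈ Y, ‖Mo N lam s0 R χ s‖ ^ 2 ≤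
        (C * r * L ^ 2 * (1 + |s.im|) ^ 4) * (P ^ 2 * (32 * Real.exp 9) * R * L ^ 4) :=
      mul_le_mul h1 h2 (Finset.sum_nonneg fun _ _ => by positivity) (by positivity)
    have e3 : (C * r * L ^ 2 * (1 + |s.im|) ^ 4) * (P ^ 2 * (32 * Real.exp 9) * R * L ^ 4) ≤
        (Real.sqrt (C * (P ^ 2 * (32 * Real.exp 9))) * R * L ^ 3 * (1 + |s.im|) ^ 2) ^ 2 := by
      rw [mul_pow, mul_pow, mul_pow, Real.sq_sqrt (by positivity)]
      calc (C * r * L ^ 2 * (1 + |s.im|) ^ 4) * (P ^ 2 * (32 * Real.exp 9) * R * L ^ 4)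
          ≤ (C * R * L ^ 2 * (1 + |s.im|) ^ 4) * (P ^ 2 * (32 * Real.exp 9) * R * L ^ 4) := by
            gcongr
        _ = _ := by ring
    exact le_of_sq_le_sq (e1.trans (e2.trans e3)) (by positivity)
  have h4 : ∀ χ ∈ Y, ‖1 - F χ s * Mo N lam s0 R χ s‖ ≤ 1 + ‖F χ s‖ * ‖Mo N lam s0 R χ s‖ := by
    intro χ _
    refine (norm_sub_le _ _).trans ?_
    rw [norm_one, norm_mul]
  refine (Finset.sum_le_sum h4).trans ?_
  rw [Finset.sum_add_distrib, Finset.sum_const, nsmul_eq_mul, mul_one]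
  have h5 : (Y.card : ℝ) ≤ R * L ^ 3 * (1 + |s.im|) ^ 2 := by
    have e1 : (1 : ℝ) ≤ (1 + |s.im|) ^ 2 := one_le_pow₀ (by linarith [abs_nonneg s.im])
    have e2 : (1 : ℝ) ≤ L ^ 3 := one_le_pow₀ (by linarith)
    calc (Y.card : ℝ) ≤ R * 1 * 1 := by rw [mul_one, mul_one]; exact (card_le Y).trans hrR'
      _ ≤ _ := by gcongr
  calc _ ≤ R * L ^ 3 * (1 + |s.im|) ^ 2 +
        Real.sqrt (C * (P ^ 2 * (32 * Real.exp 9))) * R * L ^ 3 * (1 + |s.im|) ^ 2 := add_le_add h5 h3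
    _ = _ := by ring

/-- **the first mean** -/
theorem l1_bound [NeZero N] (hlam : W388.HeckeSeq N lam) (hrs : RSB lam C₁) (hC₁ : 0 ≤ C₁)
    (hs0 : s0 ≠ 0) (hR : Ram N lam s0) : ∃ C : ℝ, 1 ≤ C ∧
      ∀ (r : ℕ) [NeZero r] (R : ℕ) (L : ℝ), r ≤ R → 32 ≤ L → Real.log R = L →
      ∀ (Y : Finset (DirichletCharacter ℂ r)) (F : DirichletCharacter ℂ r → ℂ → ℂ),
        (∀ χ ∈ Y, IsL N lam χ (F χ)) → ∀ s : ℂ, -(4 / L) ≤ s.re - 1 / 2 →
          ∑ χ ∈ Y, ‖1 - F χ s * Mo N lam s0 R χ s‖ ≤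
            C * L ^ 9 * (1 + ‖s‖) ^ 2 * Real.exp (L - L * (s.re - 1 / 2)) := by
  have hN1 : (1 : ℝ) ≤ N := by exact_mod_cast Nat.one_le_iff_ne_zero.mpr (NeZero.ne N)
  obtain ⟨C, hC1, hC⟩ := l1_left (s0 := s0) hlam hrs hC₁ hR
  obtain ⟨D, hD⟩ : ∃ D : ℝ, D = max C (512 * Real.exp 1 * Real.exp 1) := ⟨_, rfl⟩
  have hDC : C ≤ D := by rw [hD]; exact le_max_left _ _
  have hD5 : 512 * Real.exp 1 * Real.exp 1 ≤ D := by rw [hD]; exact le_max_right _ _
  have hD1 : 1 ≤ D := hC1.trans hDC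
  have hD0 : 0 < D := by linarith
  have hK := one_le_Km 2
  have he10 : 1 ≤ Real.exp 10 := Real.one_le_exp (by norm_num)
  have he1 : 1 ≤ Real.exp 1 := Real.one_le_exp (by norm_num)
  refine ⟨Km 2 * D * Real.exp 10, by
    have := one_le_mul_of_one_le_of_one_le hK hD1
    exact one_le_mul_of_one_le_of_one_le this he10, ?_⟩
  intro r _ R L hrR hL hRL Y F hF s hs
  have hL0 : 0 < L := by linarith
  have hr1 : (1 : ℝ) ≤ r := by exact_mod_cast Nat.one_le_iff_ne_zero.mpr (NeZero.ne r)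
  have hrR' : (r : ℝ) ≤ R := by exact_mod_cast hrR
  have hR1 : (1 : ℝ) ≤ R := hr1.trans hrR'
  have hR0 : (0 : ℝ) < R := by linarith
  have hRe : (R : ℝ) = Real.exp L := by rw [← hRL, Real.exp_log hR0]
  have hns : 0 ≤ ‖s‖ := norm_nonneg s
  have h1s : (1 : ℝ) ≤ (1 + ‖s‖) ^ 2 := one_le_pow₀ (by linarith)
  rcases le_total (1 + 1 / L) s.re with hx | hx
  · -- the half plane of convergence
    refine (l1_right hlam hrs hs0 hR hrR (by linarith) hRL Y hF hx).trans ?_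
    apply mul_le_mul_of_nonneg_right _ (Real.exp_pos _).le
    calc 512 * Real.exp 1 * L ^ 9 ≤ 512 * Real.exp 1 * Real.exp 1 * L ^ 9 := by
          apply mul_le_mul_of_nonneg_right _ (by positivity)
          exact le_mul_of_one_le_right (by positivity) he1
      _ ≤ D * L ^ 9 := mul_le_mul_of_nonneg_right hD5 (by positivity)
      _ ≤ (Km 2 * D * Real.exp 10) * L ^ 9 * (1 + ‖s‖) ^ 2 := by
          have e1 : D ≤ Km 2 * D * Real.exp 10 := by
            calc D = 1 * D * 1 := by ring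
              _ ≤ _ := by gcongr
          calc D * L ^ 9 ≤ (Km 2 * D * Real.exp 10) * L ^ 9 := by gcongr
            _ ≤ _ := le_mul_of_one_le_right (by positivity) h1s
  · -- interpolation
    obtain ⟨η, hη⟩ : ∃ η : ℝ, η = 1 / L := ⟨_, rfl⟩
    have hη0 : 0 < η := by rw [hη]; positivity
    have hη1 : η ≤ 1 / 32 := by rw [hη]; exact one_div_le_one_div_of_le (by norm_num) hL
    have hLη : L * η = 1 := by rw [hη]; field_simp
    have h4 : 4 / L = 4 * η := by rw [hη]; ring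
    rw [h4] at hs
    rw [← hη] at hx
    have hleft : ∀ z : ℂ, z.re = 1 / 2 - 4 * η → ∑ χ ∈ Y, ‖1 - F χ z * Mo N lam s0 R χ z‖ ≤
        (D * L ^ 9 * R) * (1 + |z.im|) ^ 2 := by
      intro z hz
      refine (hC r R L hrR hL hRL Y F hF z (by rw [hz, ← h4])).trans ?_
      have e1 : L ^ 3 ≤ L ^ 9 := pow_le_pow_right₀ (by linarith) (by norm_num)
      calc C * R * L ^ 3 * (1 + |z.im|) ^ 2 ≤ D * R * L ^ 9 * (1 + |z.im|) ^ 2 := by gcongr
        _ = _ := by ring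
    have hright : ∀ z : ℂ, z.re = 1 + η → ∑ χ ∈ Y, ‖1 - F χ z * Mo N lam s0 R χ z‖ ≤
        (D * L ^ 9 * Real.exp (L / 2)) * (1 + |z.im|) ^ 2 := by
      intro z hz
      have e1 := l1_right hlam hrs hs0 hR hrR (by linarith) hRL Y hF (s := z) (by rw [hz, hη])
      refine e1.trans ?_
      have e2 : Real.exp (L - L * (z.re - 1 / 2)) ≤ Real.exp 1 * Real.exp (L / 2) := by
        rw [← Real.exp_add, hz]
        apply Real.exp_le_exp.mpr
        have : L - L * (1 + η - 1 / 2) = L / 2 - L * η := by ring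
        rw [this, hLη]
        linarith
      have e3 : (1 : ℝ) ≤ (1 + |z.im|) ^ 2 := one_le_pow₀ (by linarith [abs_nonneg z.im])
      calc 512 * Real.exp 1 * L ^ 9 * Real.exp (L - L * (z.re - 1 / 2))
          ≤ 512 * Real.exp 1 * L ^ 9 * (Real.exp 1 * Real.exp (L / 2)) := by gcongr
        _ = (512 * Real.exp 1 * Real.exp 1) * L ^ 9 * Real.exp (L / 2) := by ring
        _ ≤ D * L ^ 9 * Real.exp (L / 2) := by gcongr
        _ ≤ _ := le_mul_of_one_le_right (by positivity) e3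
    have h3 := three_one' Y (fun χ z => 1 - F χ z * Mo N lam s0 R χ z) (l := 1 / 2 - 4 * η)
      (u := 1 + η) (by linarith) (by linarith)
      (fun χ hχ z _ _ => by
        have e1 := (hF χ hχ).1.diff z
        have e2 := Mo_diff (N := N) (lam := lam) (s0 := s0) χ R z
        exact (differentiableAt_const 1).sub (e1.mul e2))
      (fun χ hχ => by
        obtain ⟨B, A', hCA⟩ := F_grow hN1 hr1 (hF χ hχ).1
        obtain ⟨C₂, hC₂0, hC₂⟩ := Dp_grow χ (s0 ^ 2).divisors (by simp) (nu N lam s0) 0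
        obtain ⟨C₃, hC₃0, hC₃⟩ := Dp_grow χ (Icc 1 R) (by simp) (mu N lam s0) 0
        refine ⟨1 + |B| * (C₂ * C₃), |A'|, fun z hz1 hz2 => ?_⟩
        have e1 := hCA z (by linarith) (by linarith)
        have e2 := hC₂ z (by linarith)
        have e3 := hC₃ z (by linarith)
        have e4 : ‖F χ z‖ ≤ |B| * Real.exp (|A'| * |z.im|) := by
          refine e1.trans ?_
          apply mul_le_mul (le_abs_self _) _ (Real.exp_pos _).le (abs_nonneg _)
          apply Real.exp_le_exp.mpr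
          exact mul_le_mul_of_nonneg_right (le_abs_self _) (abs_nonneg _)
        have e5 : ‖Mo N lam s0 R χ z‖ ≤ C₂ * C₃ := by
          unfold Mo
          rw [norm_mul]
          exact mul_le_mul e2 e3 (norm_nonneg _) hC₂0
        have e6 : 1 ≤ Real.exp (|A'| * |z.im|) := Real.one_le_exp (by positivity)
        calc ‖1 - F χ z * Mo N lam s0 R χ z‖ ≤ 1 + ‖F χ z‖ * ‖Mo N lam s0 R χ z‖ := by
              refine (norm_sub_le _ _).trans ?_
              rw [norm_one, norm_mul]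
          _ ≤ Real.exp (|A'| * |z.im|) + (|B| * Real.exp (|A'| * |z.im|)) * (C₂ * C₃) := by
              gcongr
          _ = _ := by ring)
      2 (P := D * L ^ 9 * R) (Q := D * L ^ 9 * Real.exp (L / 2)) (by positivity) (by positivity)
      hleft hright s (by linarith) hx
    refine h3.trans ?_
    have him : (1 + |s.im|) ^ 2 ≤ (1 + ‖s‖) ^ 2 := by
      apply pow_le_pow_left₀ (by positivity)
      linarith [Complex.abs_im_le_norm s]
    obtain ⟨θ, hθ⟩ : ∃ θ : ℝ, θ = (s.re - (1 / 2 - 4 * η)) / (1 + η - (1 / 2 - 4 * η)) := ⟨_, rfl⟩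
    rw [← hθ]
    have hDL : 0 < D * L ^ 9 := by positivity
    have hPQ : (D * L ^ 9 * R) ^ (1 - θ) * (D * L ^ 9 * Real.exp (L / 2)) ^ θ =
        D * L ^ 9 * Real.exp (L - L * (θ / 2)) := by
      rw [Real.mul_rpow hDL.le hR0.le, Real.mul_rpow hDL.le (Real.exp_pos _).le, hRe,
        ← Real.exp_mul, ← Real.exp_mul]
      have e1 : (D * L ^ 9) ^ (1 - θ) * (D * L ^ 9) ^ θ = D * L ^ 9 := by
        rw [← Real.rpow_add hDL, sub_add_cancel, Real.rpow_one]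
      calc (D * L ^ 9) ^ (1 - θ) * Real.exp (L * (1 - θ)) * ((D * L ^ 9) ^ θ * Real.exp (L / 2 * θ))
          = ((D * L ^ 9) ^ (1 - θ) * (D * L ^ 9) ^ θ) * (Real.exp (L * (1 - θ)) *
            Real.exp (L / 2 * θ)) := by ring
        _ = _ := by
            rw [e1, ← Real.exp_add]
            congr 2
            ring
    have hθ2 : Real.exp (L - L * (θ / 2)) ≤ Real.exp 10 * Real.exp (L - L * (s.re - 1 / 2)) := by
      rw [← Real.exp_add]
      apply Real.exp_le_exp.mpr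
      have e1 : (s.re - 1 / 2) - 10 * η ≤ θ / 2 := by
        have h0 : 0 < 1 + η - (1 / 2 - 4 * η) := by linarith
        rw [hθ, div_div, le_div_iff₀ (by positivity)]
        nlinarith
      have e2 := mul_le_mul_of_nonneg_left e1 hL0.le
      have e3 : L * (s.re - 1 / 2 - 10 * η) = L * (s.re - 1 / 2) - 10 * (L * η) := by ring
      rw [e3, hLη] at e2
      linarith
    rw [hPQ]
    calc Km 2 * (D * L ^ 9 * Real.exp (L - L * (θ / 2))) * (1 + |s.im|) ^ 2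
        ≤ Km 2 * (D * L ^ 9 * (Real.exp 10 * Real.exp (L - L * (s.re - 1 / 2)))) *
          (1 + ‖s‖) ^ 2 := by gcongr
      _ = _ := by ring

/-- the far half plane -/
theorem far (hlam : W388.HeckeSeq N lam) (hrs : RSB lam C₁) (hs0 : s0 ≠ 0) (hR : Ram N lam s0) :
    ∃ X0 : ℕ, ∀ (r : ℕ) [NeZero r] (R : ℕ), X0 ≤ R → ∀ (χ : DirichletCharacter ℂ r) (F : ℂ → ℂ),
      IsL N lam χ F → ∀ s : ℂ, 2 ≤ s.re → ‖1 - F s * Mo N lam s0 R χ s‖ ≤ 1 / 2 := by
  have hZ : Summable fun n : ℕ => (n : ℝ) ^ (-(7 / 4) : ℝ) :=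
    Real.summable_nat_rpow.mpr (by norm_num)
  obtain ⟨Z, hZe⟩ : ∃ Z : ℝ, Z = ∑' n : ℕ, (n : ℝ) ^ (-(7 / 4) : ℝ) := ⟨_, rfl⟩
  have hZ0 : 0 ≤ Z := by rw [hZe]; exact tsum_nonneg fun _ => by positivity
  obtain ⟨ε, hε⟩ : ∃ ε : ℝ, ε = 1 / (2 * 5 ^ 16) := ⟨_, rfl⟩
  have hε0 : 0 < ε := by rw [hε]; positivity
  refine ⟨⌈2 * ε⁻¹ * Z⌉₊ + 1, ?_⟩
  intro r _ R hXR χ F hF s hs
  have hR1' : 1 ≤ R := by omega
  have hR1 : (1 : ℝ) ≤ R := by exact_mod_cast hR1'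
  have hR0 : (0 : ℝ) < R := by linarith
  have hRZ : 2 * ε⁻¹ * Z ≤ R := by
    refine (Nat.le_ceil _).trans ?_
    have : ⌈2 * ε⁻¹ * Z⌉₊ ≤ R := by omega
    exact_mod_cast this
  rw [one_sub hlam hrs hs0 χ hF hR1' (by linarith), norm_neg]
  obtain ⟨hb1, hb2⟩ := bX_sum hlam hR R (η := 1 / 4) (by norm_num)
  have h1 : ∀ n : ℕ, ‖(bX N lam s0 R n : ℂ) * χ (n : ZMod r) * (n : ℂ) ^ (-s)‖ ≤
      1 / 2 * (ε * (bX N lam s0 R n ^ 2 * (n : ℝ) ^ (-(1 + 1 / 4) : ℝ)) +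
        ε⁻¹ * ((R : ℝ)⁻¹ * (n : ℝ) ^ (-(7 / 4) : ℝ))) := by
    intro n
    by_cases hb : bX N lam s0 R n = 0
    · rw [hb]
      simp only [Complex.ofReal_zero, zero_mul, norm_zero]
      positivity
    · have hn := bX_supp hb
      have hn1 : (1 : ℝ) ≤ n := hR1.trans hn
      have hn0 : (0 : ℝ) < n := by linarith
      have hn' : 0 < n := by exact_mod_cast hn0
      rw [norm_mul, norm_mul, Complex.norm_real, Real.norm_eq_abs,
        Complex.norm_natCast_cpow_of_pos hn']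
      have e1 : (n : ℝ) ^ (-s).re ≤ (n : ℝ) ^ (-2 : ℝ) :=
        Real.rpow_le_rpow_of_exponent_le hn1 (by rw [Complex.neg_re]; linarith)
      have e2 : |bX N lam s0 R n| * ‖χ (n : ZMod r)‖ * (n : ℝ) ^ (-s).re ≤
          |bX N lam s0 R n| * 1 * (n : ℝ) ^ (-2 : ℝ) := by
        have := χ.norm_le_one (n : ZMod r)
        gcongr
      refine e2.trans ?_
      rw [mul_one]
      -- the elementary inequality
      obtain ⟨u, hu⟩ : ∃ u : ℝ, u = |bX N lam s0 R n| * (n : ℝ) ^ (-(5 / 8) : ℝ) := ⟨_, rfl⟩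
      obtain ⟨v, hv⟩ : ∃ v : ℝ, v = (n : ℝ) ^ (-(11 / 8) : ℝ) := ⟨_, rfl⟩
      have e3 : |bX N lam s0 R n| * (n : ℝ) ^ (-2 : ℝ) = u * v := by
        rw [hu, hv, mul_assoc, ← Real.rpow_add hn0]
        norm_num
      have e4 : u ^ 2 = bX N lam s0 R n ^ 2 * (n : ℝ) ^ (-(1 + 1 / 4) : ℝ) := by
        rw [hu, mul_pow, sq_abs, ← Real.rpow_natCast ((n : ℝ) ^ (-(5 / 8) : ℝ)),
          ← Real.rpow_mul hn0.le]
        norm_num
      have e5 : v ^ 2 ≤ (R : ℝ)⁻¹ * (n : ℝ) ^ (-(7 / 4) : ℝ) := by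
        have : v ^ 2 = (n : ℝ)⁻¹ * (n : ℝ) ^ (-(7 / 4) : ℝ) := by
          rw [hv, ← Real.rpow_natCast ((n : ℝ) ^ (-(11 / 8) : ℝ)), ← Real.rpow_mul hn0.le,
            ← Real.rpow_neg_one, ← Real.rpow_add hn0]
          norm_num
        rw [this]
        apply mul_le_mul_of_nonneg_right _ (by positivity)
        exact inv_anti₀ hR0 hn
      rw [e3, ← e4]
      have e6 : u * v ≤ 1 / 2 * (ε * u ^ 2 + ε⁻¹ * v ^ 2) := by
        have h0 : ε * ε⁻¹ = 1 := mul_inv_cancel₀ hε0.ne'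
        have h1 := mul_nonneg (inv_pos.mpr hε0).le (sq_nonneg (ε * u - v))
        have h2 : ε⁻¹ * (ε * u - v) ^ 2 = ε * u ^ 2 - 2 * (u * v) + ε⁻¹ * v ^ 2 := by
          have : ε⁻¹ * (ε * u - v) ^ 2 = (ε * ε⁻¹) * (ε * u ^ 2) - 2 * (ε * ε⁻¹) * (u * v) +
            ε⁻¹ * v ^ 2 := by ring
          rw [this, h0]
          ring
        rw [h2] at h1
        linarith
      refine e6.trans ?_
      gcongr
  have hs1 : Summable fun n : ℕ => 1 / 2 * (ε * (bX N lam s0 R n ^ 2 * (n : ℝ) ^ (-(1 + 1 / 4) : ℝ)) +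
        ε⁻¹ * ((R : ℝ)⁻¹ * (n : ℝ) ^ (-(7 / 4) : ℝ))) :=
    ((hb1.mul_left ε).add ((hZ.mul_left _).mul_left _)).mul_left _
  refine (tsum_of_norm_bounded hs1.hasSum h1).trans ?_
  rw [tsum_mul_left, (hb1.mul_left ε).tsum_add ((hZ.mul_left _).mul_left _), tsum_mul_left,
    tsum_mul_left, tsum_mul_left, ← hZe]
  have e1 : ε * ∑' n : ℕ, bX N lam s0 R n ^ 2 * (n : ℝ) ^ (-(1 + 1 / 4) : ℝ) ≤ 1 / 2 := by
    calc _ ≤ ε * (1 + 1 / (1 / 4)) ^ 16 := mul_le_mul_of_nonneg_left hb2 hε0.le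
      _ = 1 / 2 := by rw [hε]; norm_num
  have e2 : ε⁻¹ * ((R : ℝ)⁻¹ * Z) ≤ 1 / 2 := by
    have : ε⁻¹ * ((R : ℝ)⁻¹ * Z) = (ε⁻¹ * Z) / R := by rw [div_eq_mul_inv]; ring
    rw [this, div_le_iff₀ hR0]
    linarith
  linarith

end

end Pool.Agent.H13.TD
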