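import Pool.Graph.R_pool_sql_team_seeded_620a6dc7.A856.ZD.LS2

/-!
# The large sieve for the characters modulo `r` (helper13)
-/

set_option autoImplicit false

open Complex Filter Topology

namespace Pool.Agent.H13.TD

variable {r : ℕ} [NeZero r]

lemma char_orth (c d : ZMod r) : ∑ χ : DirichletCharacter ℂ r, χ c * (starRingEnd ℂ) (χ d) =
    if IsUnit d ∧ d = c then (r.totient : ℂ) else 0 := by
  by_cases hd : IsUnit d
  · have h1 : ∀ χ : DirichletCharacter ℂ r, χ c * (starRingEnd ℂ) (χ d) = χ d⁻¹ * χ c := by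
      intro χ
      have h2 : χ d * χ d⁻¹ = 1 := by
        rw [← map_mul, ZMod.mul_inv_of_unit d hd, map_one]
      have h3 : ‖χ d‖ = 1 := by
        obtain ⟨u, rfl⟩ := hd
        exact DirichletCharacter.unit_norm_eq_one χ u
      have h4 : χ d * (starRingEnd ℂ) (χ d) = 1 := by
        rw [Complex.mul_conj, Complex.normSq_eq_norm_sq, h3]
        norm_num
      have h5 : χ d ≠ 0 := by
        intro h0
        rw [h0, norm_zero] at h3
        norm_num at h3
      have h6 : (starRingEnd ℂ) (χ d) = χ d⁻¹ := by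
        apply mul_left_cancel₀ h5
        rw [h4, h2]
      rw [h6, mul_comm]
    rw [Finset.sum_congr rfl fun χ _ => h1 χ, DirichletCharacter.sum_char_inv_mul_char_eq ℂ hd c]
    simp [hd]
  · have h1 : ∀ χ : DirichletCharacter ℂ r, χ c * (starRingEnd ℂ) (χ d) = 0 := by
      intro χ
      rw [χ.map_nonunit hd]
      simp
    rw [Finset.sum_congr rfl fun χ _ => h1 χ]
    simp [hd]

lemma parseval (A : ZMod r → ℂ) : ∑ χ : DirichletCharacter ℂ r, ‖∑ c, χ c * A c‖ ^ 2 ≤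
    (r.totient : ℝ) * ∑ c, ‖A c‖ ^ 2 := by
  have h1 : ((∑ χ : DirichletCharacter ℂ r, ‖∑ c, χ c * A c‖ ^ 2 : ℝ) : ℂ) =
      ∑ c, ∑ d, (A c * (starRingEnd ℂ) (A d)) *
        ∑ χ : DirichletCharacter ℂ r, χ c * (starRingEnd ℂ) (χ d) := by
    push_cast
    have h2 : ∀ χ : DirichletCharacter ℂ r, ((‖∑ c, χ c * A c‖ : ℝ) : ℂ) ^ 2 =
        ∑ c, ∑ d, (A c * (starRingEnd ℂ) (A d)) * (χ c * (starRingEnd ℂ) (χ d)) := by
      intro χ
      rw [← Complex.mul_conj', map_sum, Finset.sum_mul_sum]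
      refine Finset.sum_congr rfl fun c _ => Finset.sum_congr rfl fun d _ => ?_
      rw [map_mul]; ring
    rw [Finset.sum_congr rfl fun χ _ => h2 χ, Finset.sum_comm]
    refine Finset.sum_congr rfl fun c _ => ?_
    rw [Finset.sum_comm]
    refine Finset.sum_congr rfl fun d _ => ?_
    rw [Finset.mul_sum]
  have h3 : ∀ c : ZMod r, ∑ d, (A c * (starRingEnd ℂ) (A d)) *
        ∑ χ : DirichletCharacter ℂ r, χ c * (starRingEnd ℂ) (χ d) =
        if IsUnit c then (((r.totient : ℝ) * ‖A c‖ ^ 2 : ℝ) : ℂ) else 0 := by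
    intro c
    rw [Finset.sum_eq_single c]
    · rw [char_orth]
      by_cases hc : IsUnit c
      · simp only [hc, and_self, if_true]
        rw [Complex.mul_conj']
        push_cast; ring
      · simp [hc]
    · intro d _ hd
      rw [char_orth, if_neg (fun h => hd h.2), mul_zero]
    · intro h
      exact absurd (Finset.mem_univ c) h
  rw [Finset.sum_congr rfl fun c _ => h3 c] at h1
  have h4 : ∑ χ : DirichletCharacter ℂ r, ‖∑ c, χ c * A c‖ ^ 2 =
      ∑ c : ZMod r, if IsUnit c then (r.totient : ℝ) * ‖A c‖ ^ 2 else 0 := by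
    have : ((∑ χ : DirichletCharacter ℂ r, ‖∑ c, χ c * A c‖ ^ 2 : ℝ) : ℂ) =
      ((∑ c : ZMod r, if IsUnit c then (r.totient : ℝ) * ‖A c‖ ^ 2 else 0 : ℝ) : ℂ) := by
      rw [h1, Complex.ofReal_sum]
      refine Finset.sum_congr rfl fun c _ => ?_
      split_ifs <;> simp
    exact_mod_cast this
  rw [h4, Finset.mul_sum]
  refine Finset.sum_le_sum fun c _ => ?_
  split_ifs
  · exact le_rfl
  · positivity

open Classical in
/-- the large sieve, finite sums with a weight -/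
theorem ls_fin (T : Finset ℕ) (a : ℕ → ℂ) (v : ℕ → ℝ) (hv : ∀ n ∈ T, 0 < v n) {W : ℝ}
    (hW0 : 0 ≤ W)
    (hW : ∀ S ⊆ T, (∀ m ∈ S, ∀ n ∈ S, (m : ZMod r) = n) → ∑ n ∈ S, (v n)⁻¹ ≤ W) :
    ∑ χ : DirichletCharacter ℂ r, ‖∑ n ∈ T, a n * χ (n : ZMod r)‖ ^ 2 ≤
      (r.totient : ℝ) * W * ∑ n ∈ T, v n * ‖a n‖ ^ 2 := by
  set A : ZMod r → ℂ := fun c => ∑ n ∈ T.filter (fun n : ℕ => (n : ZMod r) = c), a n with hA
  have h1 : ∀ χ : DirichletCharacter ℂ r, ∑ n ∈ T, a n * χ (n : ZMod r) = ∑ c, χ c * A c := by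
    intro χ
    rw [← Finset.sum_fiberwise (s := T) (g := fun n : ℕ => (n : ZMod r))]
    refine Finset.sum_congr rfl fun c _ => ?_
    rw [hA]
    simp only
    rw [Finset.mul_sum]
    refine Finset.sum_congr rfl fun n hn => ?_
    rw [(Finset.mem_filter.mp hn).2, mul_comm]
  have h2 : ∀ c : ZMod r, ‖A c‖ ^ 2 ≤
      W * ∑ n ∈ T.filter (fun n : ℕ => (n : ZMod r) = c), v n * ‖a n‖ ^ 2 := by
    intro c
    set S := T.filter (fun n : ℕ => (n : ZMod r) = c) with hS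
    have hST : S ⊆ T := Finset.filter_subset _ _
    have h3 : ‖A c‖ ≤ ∑ n ∈ S, ‖a n‖ := norm_sum_le _ _
    have h4 := Finset.sum_mul_sq_le_sq_mul_sq S (fun n => (Real.sqrt (v n))⁻¹)
      (fun n => Real.sqrt (v n) * ‖a n‖)
    have e1 : ∑ n ∈ S, (Real.sqrt (v n))⁻¹ * (Real.sqrt (v n) * ‖a n‖) = ∑ n ∈ S, ‖a n‖ := by
      refine Finset.sum_congr rfl fun n hn => ?_
      have : Real.sqrt (v n) ≠ 0 := (Real.sqrt_pos.mpr (hv n (hST hn))).ne'
      field_simp
    have e2 : ∑ n ∈ S, ((Real.sqrt (v n))⁻¹) ^ 2 = ∑ n ∈ S, (v n)⁻¹ := by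
      refine Finset.sum_congr rfl fun n hn => ?_
      rw [inv_pow, Real.sq_sqrt (hv n (hST hn)).le]
    have e3 : ∑ n ∈ S, (Real.sqrt (v n) * ‖a n‖) ^ 2 = ∑ n ∈ S, v n * ‖a n‖ ^ 2 := by
      refine Finset.sum_congr rfl fun n hn => ?_
      rw [mul_pow, Real.sq_sqrt (hv n (hST hn)).le]
    rw [e1, e2, e3] at h4
    have h5 : ∑ n ∈ S, (v n)⁻¹ ≤ W := by
      apply hW S hST
      intro m hm n hn
      rw [(Finset.mem_filter.mp hm).2, (Finset.mem_filter.mp hn).2]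
    calc ‖A c‖ ^ 2 ≤ (∑ n ∈ S, ‖a n‖) ^ 2 := pow_le_pow_left₀ (norm_nonneg _) h3 2
      _ ≤ _ := h4
      _ ≤ _ := mul_le_mul_of_nonneg_right h5 (Finset.sum_nonneg fun n hn => by
          have := hv n (hST hn); positivity)
  rw [Finset.sum_congr rfl fun χ _ => by rw [h1 χ]]
  refine (parseval A).trans ?_
  rw [mul_assoc]
  apply mul_le_mul_of_nonneg_left _ (Nat.cast_nonneg _)
  refine (Finset.sum_le_sum fun c _ => h2 c).trans ?_
  rw [← Finset.mul_sum, Finset.sum_fiberwise]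

/-- the large sieve, infinite sums with a weight -/
theorem ls_inf (a : ℕ → ℂ) (ha : Summable fun n => ‖a n‖) (v : ℕ → ℝ)
    (hv : ∀ n, a n ≠ 0 → 0 < v n) (hva : Summable fun n => v n * ‖a n‖ ^ 2) {W : ℝ}
    (hW0 : 0 ≤ W)
    (hW : ∀ S : Finset ℕ, (∀ n ∈ S, a n ≠ 0) → (∀ m ∈ S, ∀ n ∈ S, (m : ZMod r) = n) →
      ∑ n ∈ S, (v n)⁻¹ ≤ W) :
    ∑ χ : DirichletCharacter ℂ r, ‖∑' n, a n * χ (n : ZMod r)‖ ^ 2 ≤
      (r.totient : ℝ) * W * ∑' n, v n * ‖a n‖ ^ 2 := by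
  classical
  have h0 : ∀ n, 0 ≤ v n * ‖a n‖ ^ 2 := by
    intro n
    by_cases h : a n = 0
    · simp [h]
    · have := hv n h; positivity
  have h1 : ∀ T : Finset ℕ, ∑ χ : DirichletCharacter ℂ r, ‖∑ n ∈ T, a n * χ (n : ZMod r)‖ ^ 2 ≤
      (r.totient : ℝ) * W * ∑' n, v n * ‖a n‖ ^ 2 := by
    intro T
    have h2 := ls_fin (r := r) (T.filter (fun n => a n ≠ 0)) a v
      (fun n hn => hv n (Finset.mem_filter.mp hn).2) hW0 (fun S hS hc => hW S
        (fun n hn => (Finset.mem_filter.mp (hS hn)).2) hc)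
    have h3 : ∀ χ : DirichletCharacter ℂ r, ∑ n ∈ T.filter (fun n => a n ≠ 0), a n * χ (n : ZMod r) =
        ∑ n ∈ T, a n * χ (n : ZMod r) := by
      intro χ
      rw [Finset.sum_filter]
      refine Finset.sum_congr rfl fun n _ => ?_
      split_ifs with h
      · rfl
      · rw [not_ne_iff.mp h, zero_mul]
    rw [Finset.sum_congr rfl fun χ _ => by rw [h3 χ]] at h2
    refine h2.trans ?_
    apply mul_le_mul_of_nonneg_left _ (by positivity)
    exact hva.sum_le_tsum _ (fun n _ => h0 n)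
  have h4 : ∀ χ : DirichletCharacter ℂ r, Summable fun n : ℕ => a n * χ (n : ZMod r) := by
    intro χ
    refine Summable.of_norm_bounded ha fun n => ?_
    rw [norm_mul]
    exact mul_le_of_le_one_right (norm_nonneg _) (χ.norm_le_one _)
  have h5 : Tendsto (fun T : Finset ℕ => ∑ χ : DirichletCharacter ℂ r,
      ‖∑ n ∈ T, a n * χ (n : ZMod r)‖ ^ 2) atTop
      (𝓝 (∑ χ : DirichletCharacter ℂ r, ‖∑' n, a n * χ (n : ZMod r)‖ ^ 2)) := by
    refine tendsto_finset_sum _ fun χ _ => ?_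
    exact ((h4 χ).hasSum.norm).pow 2
  exact le_of_tendsto h5 (Eventually.of_forall h1)

/-- the number of elements of a residue class -/
lemma count_class (S : Finset ℕ) (hS : ∀ m ∈ S, ∀ n ∈ S, (m : ZMod r) = n) {u : ℝ} (hu : 0 ≤ u)
    (hSu : ∀ n ∈ S, (n : ℝ) ≤ u) : (S.card : ℝ) ≤ 1 + u / r := by
  have hr : (0 : ℝ) < r := by exact_mod_cast Nat.pos_of_ne_zero (NeZero.ne r)
  have h1 : S.card ≤ (Finset.range (⌊u / r⌋₊ + 1)).card := by
    apply Finset.card_le_card_of_injOn (fun n => n / r)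
    · intro n hn
      simp only [Finset.coe_range, Set.mem_Iio]
      rw [Nat.lt_add_one_iff, Nat.le_floor_iff (by positivity)]
      have h2 : ((n / r : ℕ) : ℝ) ≤ (n : ℝ) / r := Nat.cast_div_le
      refine h2.trans ?_
      exact div_le_div_of_nonneg_right (hSu n hn) hr.le
    · intro m hm n hn hmn
      have h2 : m % r = n % r := by
        have := hS m hm n hn
        rwa [ZMod.natCast_eq_natCast_iff'] at this
      have h3 : m / r = n / r := hmn
      rw [← Nat.div_add_mod m r, ← Nat.div_add_mod n r, h2, h3]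
  rw [Finset.card_range] at h1
  have h2 : ((⌊u / r⌋₊ : ℕ) : ℝ) ≤ u / r := Nat.floor_le (by positivity)
  have h3 : (S.card : ℝ) ≤ ((⌊u / r⌋₊ + 1 : ℕ) : ℝ) := by exact_mod_cast h1
  push_cast at h3
  linarith

/-- polynomials of length `Y` -/
theorem ls_poly (a : ℕ → ℂ) {Y : ℕ} : ∑ χ : DirichletCharacter ℂ r,
    ‖∑ n ∈ Finset.Icc 1 Y, a n * χ (n : ZMod r)‖ ^ 2 ≤
      ((r : ℝ) + Y) * ∑ n ∈ Finset.Icc 1 Y, ‖a n‖ ^ 2 := by
  have hr : (0 : ℝ) < r := by exact_mod_cast Nat.pos_of_ne_zero (NeZero.ne r)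
  have h1 := ls_fin (r := r) (Finset.Icc 1 Y) a (fun _ => 1) (fun _ _ => one_pos)
    (W := 1 + (Y : ℝ) / r) (by positivity) (fun S hS hc => by
      simp only [inv_one, Finset.sum_const, nsmul_eq_mul, mul_one]
      refine count_class S hc (by positivity) fun n hn => ?_
      exact_mod_cast (Finset.mem_Icc.mp (hS hn)).2)
  simp only [one_mul] at h1
  refine h1.trans ?_
  apply mul_le_mul_of_nonneg_right _ (Finset.sum_nonneg fun _ _ => by positivity)
  have h2 : (r.totient : ℝ) ≤ r := by exact_mod_cast Nat.totient_le r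
  calc (r.totient : ℝ) * (1 + Y / r) ≤ r * (1 + Y / r) :=
        mul_le_mul_of_nonneg_right h2 (by positivity)
    _ = r + Y := by field_simp

/-- tails -/
theorem ls_tail (a : ℕ → ℂ) {η : ℝ} (hη : 0 < η) {Y : ℝ} (hY : 1 ≤ Y)
    (haY : ∀ n, a n ≠ 0 → Y ≤ n) (ha : Summable fun n => ‖a n‖)
    (hva : Summable fun n : ℕ => (n : ℝ) ^ (1 + η) * ‖a n‖ ^ 2) :
    ∑ χ : DirichletCharacter ℂ r, ‖∑' n, a n * χ (n : ZMod r)‖ ^ 2 ≤
      (r / Y + (1 + η) / η) * ∑' n : ℕ, (n : ℝ) ^ (1 + η) * ‖a n‖ ^ 2 := by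
  have hr : (0 : ℝ) < r := by exact_mod_cast Nat.pos_of_ne_zero (NeZero.ne r)
  have hY0 : 0 < Y := by linarith
  have h1 := ls_inf (r := r) a ha (fun n => (n : ℝ) ^ (1 + η)) (fun n hn => by
    have := haY n hn
    exact Real.rpow_pos_of_pos (by linarith) _) hva
    (W := 1 * Y ^ (-(1 + η)) + (1 + η) / η * (1 / r) * Y ^ (-η)) (by positivity) (fun S hS hc => by
      have h2 := Pool.Agent.A856.ZD.layer S (fun n : ℕ => (n : ℝ)) (A := 1) (B := 1 / r) hY0 hη
        zero_le_one (by positivity) (fun n hn => haY n (hS n hn)) (fun u hu => by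
          have h3 := count_class (r := r) (S.filter (fun n : ℕ => (n : ℝ) ≤ u))
            (fun m hm n hn => hc m (Finset.mem_filter.mp hm).1 n (Finset.mem_filter.mp hn).1)
            (by linarith : (0 : ℝ) ≤ u) (fun n hn => (Finset.mem_filter.mp hn).2)
          calc _ ≤ 1 + u / r := h3
            _ = _ := by ring)
      refine le_trans (le_of_eq (Finset.sum_congr rfl fun n _ => ?_)) h2
      rw [Real.rpow_neg (Nat.cast_nonneg n)])
  refine h1.trans ?_
  apply mul_le_mul_of_nonneg_right _ (tsum_nonneg fun _ => by positivity)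
  have h2 : (r.totient : ℝ) ≤ r := by exact_mod_cast Nat.totient_le r
  have h3 : Y ^ (-(1 + η)) ≤ Y⁻¹ := by
    rw [← Real.rpow_neg_one]
    exact Real.rpow_le_rpow_of_exponent_le hY (by linarith)
  have h4 : Y ^ (-η) ≤ 1 := Real.rpow_le_one_of_one_le_of_nonpos hY (by linarith)
  calc (r.totient : ℝ) * (1 * Y ^ (-(1 + η)) + (1 + η) / η * (1 / r) * Y ^ (-η))
      ≤ r * (1 * Y⁻¹ + (1 + η) / η * (1 / r) * 1) := by gcongr
    _ = _ := by field_simp

end Pool.Agent.H13.TD
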