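import Mathlib

/-!
# The three lines theorem for finite families of functions (helper13)
-/

set_option autoImplicit false

open Complex Set Filter Topology

namespace Pool.Agent.H13.TD

/-- the point `x + i t` -/
def pt (x t : ℝ) : ℂ := ⟨x, t⟩

@[simp] lemma pt_re (x t : ℝ) : (pt x t).re = x := rfl
@[simp] lemma pt_im (x t : ℝ) : (pt x t).im = t := rfl

/-- the constant of the three lines theorem -/
noncomputable def Km (m : ℕ) : ℝ := (m.factorial : ℝ) * Real.exp 8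

lemma Km_pos (m : ℕ) : 0 < Km m := by unfold Km; positivity

lemma one_le_Km (m : ℕ) : 1 ≤ Km m := by
  unfold Km
  have h1 : (1 : ℝ) ≤ m.factorial := by exact_mod_cast Nat.factorial_pos m
  have h2 : (1 : ℝ) ≤ Real.exp 8 := Real.one_le_exp (by norm_num)
  nlinarith

lemma poly_gauss (m : ℕ) {u : ℝ} (hu : 0 ≤ u) :
    (1 + u) ^ m * Real.exp (-u ^ 2) ≤ (m.factorial : ℝ) * Real.exp 4 := by
  have h1 : (1 + u) ^ m ≤ (m.factorial : ℝ) * Real.exp (1 + u) := by
    have h := Real.pow_div_factorial_le_exp (1 + u) (by linarith) m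
    have hf : (0 : ℝ) < m.factorial := by exact_mod_cast Nat.factorial_pos m
    rw [div_le_iff₀ hf] at h
    linarith
  calc (1 + u) ^ m * Real.exp (-u ^ 2) ≤ ((m.factorial : ℝ) * Real.exp (1 + u)) * Real.exp (-u ^ 2) :=
        mul_le_mul_of_nonneg_right h1 (Real.exp_pos _).le
    _ = (m.factorial : ℝ) * Real.exp (1 + u + -u ^ 2) := by rw [mul_assoc, ← Real.exp_add]
    _ ≤ (m.factorial : ℝ) * Real.exp 4 := by
        apply mul_le_mul_of_nonneg_left _ (Nat.cast_nonneg _)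
        apply Real.exp_le_exp.mpr
        nlinarith [sq_nonneg (u - 1 / 2)]

/-- polynomials are dominated by translates of the Gaussian -/
lemma poly_shift (m : ℕ) (t t₀ : ℝ) :
    (1 + |t|) ^ m * Real.exp (-(t - t₀) ^ 2) ≤ (m.factorial : ℝ) * Real.exp 4 * (1 + |t₀|) ^ m := by
  have h1 : 1 + |t| ≤ (1 + |t₀|) * (1 + |t - t₀|) := by
    have h2 : |t| ≤ |t₀| + |t - t₀| := by
      have := abs_add_le t₀ (t - t₀)
      simpa using this
    nlinarith [abs_nonneg t₀, abs_nonneg (t - t₀)]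
  have h3 : (1 + |t|) ^ m ≤ ((1 + |t₀|) * (1 + |t - t₀|)) ^ m :=
    pow_le_pow_left₀ (by positivity) h1 m
  have h4 := poly_gauss m (abs_nonneg (t - t₀))
  rw [sq_abs] at h4
  calc (1 + |t|) ^ m * Real.exp (-(t - t₀) ^ 2)
      ≤ ((1 + |t₀|) * (1 + |t - t₀|)) ^ m * Real.exp (-(t - t₀) ^ 2) :=
        mul_le_mul_of_nonneg_right h3 (Real.exp_pos _).le
    _ = ((1 + |t - t₀|) ^ m * Real.exp (-(t - t₀) ^ 2)) * (1 + |t₀|) ^ m := by rw [mul_pow]; ring
    _ ≤ _ := mul_le_mul_of_nonneg_right h4 (by positivity)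

lemma norm_gauss (z s : ℂ) : ‖cexp ((z - s) ^ 2)‖ =
    Real.exp ((z.re - s.re) ^ 2 - (z.im - s.im) ^ 2) := by
  rw [Complex.norm_exp]
  congr 1
  simp [pow_two]

/-- **three lines** -/
theorem three_vec {E : Type} [NormedAddCommGroup E] [NormedSpace ℂ E] (G : ℂ → E) {l u : ℝ}
    (hlu : l < u) (hw : u - l ≤ 2)
    (hd : ∀ z : ℂ, l ≤ z.re → z.re ≤ u → DifferentiableAt ℂ G z)
    (hg : ∃ C A : ℝ, ∀ z : ℂ, l ≤ z.re → z.re ≤ u → ‖G z‖ ≤ C * Real.exp (A * |z.im|))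
    (m : ℕ) {P Q : ℝ} (hP : 0 ≤ P) (hQ : 0 ≤ Q)
    (h1 : ∀ z : ℂ, z.re = l → ‖G z‖ ≤ P * (1 + |z.im|) ^ m)
    (h2 : ∀ z : ℂ, z.re = u → ‖G z‖ ≤ Q * (1 + |z.im|) ^ m) (s : ℂ) (hs1 : l ≤ s.re)
    (hs2 : s.re ≤ u) :
    ‖G s‖ ≤ Km m * (P ^ (1 - (s.re - l) / (u - l)) * Q ^ ((s.re - l) / (u - l))) *
      (1 + |s.im|) ^ m := by
  set f : ℂ → E := fun z => cexp ((z - s) ^ 2) • G z with hf
  have hcl : HadamardThreeLines.verticalClosedStrip l u = {z : ℂ | l ≤ z.re ∧ z.re ≤ u} := by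
    ext z; simp [HadamardThreeLines.verticalClosedStrip]
  have hnf : ∀ z : ℂ, ‖f z‖ = Real.exp ((z.re - s.re) ^ 2 - (z.im - s.im) ^ 2) * ‖G z‖ := by
    intro z
    rw [hf]
    simp only
    rw [norm_smul, norm_gauss]
  have hre : ∀ z : ℂ, l ≤ z.re → z.re ≤ u → (z.re - s.re) ^ 2 ≤ 4 := by
    intro z hz1 hz2
    have : |z.re - s.re| ≤ 2 := by rw [abs_le]; constructor <;> linarith
    rw [← sq_abs]
    nlinarith [abs_nonneg (z.re - s.re)]
  have hdiff : ∀ z : ℂ, l ≤ z.re → z.re ≤ u → DifferentiableAt ℂ f z := by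
    intro z hz1 hz2
    exact (by fun_prop : DifferentiableAt ℂ (fun z : ℂ => cexp ((z - s) ^ 2)) z).smul (hd z hz1 hz2)
  have hdc : DiffContOnCl ℂ f (HadamardThreeLines.verticalStrip l u) := by
    have hsub : closure (HadamardThreeLines.verticalStrip l u) ⊆ {z : ℂ | l ≤ z.re ∧ z.re ≤ u} := by
      have hcl' : IsClosed {z : ℂ | l ≤ z.re ∧ z.re ≤ u} :=
        (isClosed_le continuous_const Complex.continuous_re).inter
          (isClosed_le Complex.continuous_re continuous_const)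
      refine closure_minimal ?_ hcl'
      intro z hz
      have hz' : z.re ∈ Ioo l u := hz
      exact ⟨hz'.1.le, hz'.2.le⟩
    refine ⟨fun z hz => ?_, fun z hz => ?_⟩
    · have hz' : z.re ∈ Ioo l u := hz
      exact (hdiff z hz'.1.le hz'.2.le).differentiableWithinAt
    · have := hsub hz
      exact (hdiff z this.1 this.2).continuousAt.continuousWithinAt
  have hbd : BddAbove ((norm ∘ f) '' HadamardThreeLines.verticalClosedStrip l u) := by
    obtain ⟨C, A, hCA⟩ := hg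
    refine ⟨Real.exp 4 * (|C| * Real.exp ((|A| + |s.im| * 2 + 1) ^ 2)), ?_⟩
    rintro _ ⟨z, hz, rfl⟩
    rw [hcl] at hz
    obtain ⟨hz1, hz2⟩ := hz
    simp only [Function.comp_apply]
    rw [hnf]
    have e1 := hCA z hz1 hz2
    have e2 := hre z hz1 hz2
    have e3 : C * Real.exp (A * |z.im|) ≤ |C| * Real.exp (|A| * |z.im|) := by
      have a1 : C ≤ |C| := le_abs_self C
      have a2 : Real.exp (A * |z.im|) ≤ Real.exp (|A| * |z.im|) := by
        apply Real.exp_le_exp.mpr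
        exact mul_le_mul_of_nonneg_right (le_abs_self A) (abs_nonneg _)
      calc C * Real.exp (A * |z.im|) ≤ |C| * Real.exp (A * |z.im|) :=
            mul_le_mul_of_nonneg_right a1 (Real.exp_pos _).le
        _ ≤ _ := mul_le_mul_of_nonneg_left a2 (abs_nonneg _)
    calc Real.exp ((z.re - s.re) ^ 2 - (z.im - s.im) ^ 2) * ‖G z‖
        ≤ Real.exp ((z.re - s.re) ^ 2 - (z.im - s.im) ^ 2) * (|C| * Real.exp (|A| * |z.im|)) :=
          mul_le_mul_of_nonneg_left (e1.trans e3) (Real.exp_pos _).le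
      _ = |C| * Real.exp ((z.re - s.re) ^ 2 + (|A| * |z.im| - (z.im - s.im) ^ 2)) := by
          rw [mul_left_comm, ← Real.exp_add]; congr 2; ring
      _ ≤ |C| * Real.exp (4 + (|A| + |s.im| * 2 + 1) ^ 2) := by
          apply mul_le_mul_of_nonneg_left _ (abs_nonneg _)
          apply Real.exp_le_exp.mpr
          apply add_le_add e2
          have b1 := abs_nonneg A
          have b2 := abs_nonneg s.im
          have b3 := abs_nonneg z.im
          have b4 : z.im * s.im ≤ |z.im| * |s.im| := by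
            rw [← abs_mul]; exact le_abs_self _
          have b5 : z.im ^ 2 = |z.im| ^ 2 := (sq_abs _).symm
          have b6 : (z.im - s.im) ^ 2 = z.im ^ 2 - 2 * (z.im * s.im) + s.im ^ 2 := by ring
          rw [b6, b5]
          nlinarith [sq_nonneg (2 * |z.im| - (|A| + |s.im| * 2)), sq_nonneg s.im,
            mul_nonneg b1 b2]
      _ = _ := by rw [Real.exp_add]; ring
  have hF4 : (0 : ℝ) ≤ (m.factorial : ℝ) * Real.exp 8 := by positivity
  have hedge : ∀ (x D : ℝ), l ≤ x → x ≤ u → 0 ≤ D → (∀ z : ℂ, z.re = x → ‖G z‖ ≤ D * (1 + |z.im|) ^ m) →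
      ∀ z ∈ re ⁻¹' {x}, ‖f z‖ ≤ (Km m * (1 + |s.im|) ^ m) * D := by
    intro x D hx1 hx2 hD hz z hzx
    have hzx' : z.re = x := hzx
    rw [hnf]
    have e1 := hz z hzx'
    have e2 := hre z (by rw [hzx']; exact hx1) (by rw [hzx']; exact hx2)
    have e3 := poly_shift m z.im s.im
    calc Real.exp ((z.re - s.re) ^ 2 - (z.im - s.im) ^ 2) * ‖G z‖
        ≤ Real.exp ((z.re - s.re) ^ 2 - (z.im - s.im) ^ 2) * (D * (1 + |z.im|) ^ m) :=
          mul_le_mul_of_nonneg_left e1 (Real.exp_pos _).le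
      _ = Real.exp ((z.re - s.re) ^ 2) * D * ((1 + |z.im|) ^ m * Real.exp (-(z.im - s.im) ^ 2)) := by
          rw [sub_eq_add_neg, Real.exp_add]; ring
      _ ≤ Real.exp 4 * D * ((m.factorial : ℝ) * Real.exp 4 * (1 + |s.im|) ^ m) := by
          refine mul_le_mul (mul_le_mul_of_nonneg_right (Real.exp_le_exp.mpr e2) hD) e3
            (by positivity) (by positivity)
      _ = _ := by
          unfold Km
          rw [show (8 : ℝ) = 4 + 4 by norm_num, Real.exp_add]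
          ring
  have key := HadamardThreeLines.norm_le_interp_of_mem_verticalClosedStrip' (f := f) (z := s)
    (a := (Km m * (1 + |s.im|) ^ m) * P) (b := (Km m * (1 + |s.im|) ^ m) * Q) hlu
    (by rw [hcl]; exact ⟨hs1, hs2⟩) hdc hbd (hedge l P le_rfl hlu.le hP h1)
    (hedge u Q hlu.le le_rfl hQ h2)
  have hfs : ‖f s‖ = ‖G s‖ := by
    rw [hnf]; simp
  rw [hfs] at key
  refine key.trans (le_of_eq ?_)
  have hK : 0 < Km m * (1 + |s.im|) ^ m := mul_pos (Km_pos m) (by positivity)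
  rw [Real.mul_rpow hK.le hP, Real.mul_rpow hK.le hQ]
  have : (Km m * (1 + |s.im|) ^ m) ^ (1 - (s.re - l) / (u - l)) *
      (Km m * (1 + |s.im|) ^ m) ^ ((s.re - l) / (u - l)) = Km m * (1 + |s.im|) ^ m := by
    rw [← Real.rpow_add hK]
    simp
  calc _ = ((Km m * (1 + |s.im|) ^ m) ^ (1 - (s.re - l) / (u - l)) *
      (Km m * (1 + |s.im|) ^ m) ^ ((s.re - l) / (u - l))) *
        (P ^ (1 - (s.re - l) / (u - l)) * Q ^ ((s.re - l) / (u - l))) := by ring
    _ = _ := by rw [this]; ring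

/-- three lines in the first mean -/
theorem three_one {I : Type} [Fintype I] (G : I → ℂ → ℂ) {l u : ℝ}
    (hlu : l < u) (hw : u - l ≤ 2)
    (hd : ∀ i, ∀ z : ℂ, l ≤ z.re → z.re ≤ u → DifferentiableAt ℂ (G i) z)
    (hg : ∀ i, ∃ C A : ℝ, ∀ z : ℂ, l ≤ z.re → z.re ≤ u → ‖G i z‖ ≤ C * Real.exp (A * |z.im|))
    (m : ℕ) {P Q : ℝ} (hP : 0 ≤ P) (hQ : 0 ≤ Q)
    (h1 : ∀ z : ℂ, z.re = l → ∑ i, ‖G i z‖ ≤ P * (1 + |z.im|) ^ m)
    (h2 : ∀ z : ℂ, z.re = u → ∑ i, ‖G i z‖ ≤ Q * (1 + |z.im|) ^ m) (s : ℂ) (hs1 : l ≤ s.re)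
    (hs2 : s.re ≤ u) :
    ∑ i, ‖G i s‖ ≤ Km m * (P ^ (1 - (s.re - l) / (u - l)) * Q ^ ((s.re - l) / (u - l))) *
      (1 + |s.im|) ^ m := by
  set G' : ℂ → PiLp 1 (fun _ : I => ℂ) := fun z => WithLp.toLp 1 (fun i => G i z) with hG'
  have hn : ∀ z, ‖G' z‖ = ∑ i, ‖G i z‖ := by
    intro z
    rw [PiLp.norm_eq_of_L1]
  have := three_vec G' hlu hw (fun z hz1 hz2 => by
    rw [differentiableAt_piLp 1]
    intro i
    exact hd i z hz1 hz2) (by
    choose C A hCA using hg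
    refine ⟨∑ i, |C i|, ∑ i, |A i|, fun z hz1 hz2 => ?_⟩
    rw [hn, Finset.sum_mul]
    refine Finset.sum_le_sum fun i _ => (hCA i z hz1 hz2).trans ?_
    have h3 : A i ≤ ∑ i, |A i| := (le_abs_self _).trans
      (Finset.single_le_sum (f := fun i => |A i|) (fun _ _ => abs_nonneg _) (Finset.mem_univ i))
    calc C i * Real.exp (A i * |z.im|) ≤ |C i| * Real.exp (A i * |z.im|) :=
          mul_le_mul_of_nonneg_right (le_abs_self _) (Real.exp_pos _).le
      _ ≤ _ := by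
          apply mul_le_mul_of_nonneg_left _ (abs_nonneg _)
          apply Real.exp_le_exp.mpr
          exact mul_le_mul_of_nonneg_right h3 (abs_nonneg _)) m hP hQ
    (fun z hz => by rw [hn]; exact h1 z hz) (fun z hz => by rw [hn]; exact h2 z hz) s hs1 hs2
  rwa [hn] at this

/-- three lines in the square mean -/
theorem three_two {I : Type} [Fintype I] (G : I → ℂ → ℂ) {l u : ℝ}
    (hlu : l < u) (hw : u - l ≤ 2)
    (hd : ∀ i, ∀ z : ℂ, l ≤ z.re → z.re ≤ u → DifferentiableAt ℂ (G i) z)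
    (hg : ∀ i, ∃ C A : ℝ, ∀ z : ℂ, l ≤ z.re → z.re ≤ u → ‖G i z‖ ≤ C * Real.exp (A * |z.im|))
    (m : ℕ) {P Q : ℝ} (hP : 0 ≤ P) (hQ : 0 ≤ Q)
    (h1 : ∀ z : ℂ, z.re = l → ∑ i, ‖G i z‖ ^ 2 ≤ (P * (1 + |z.im|) ^ m) ^ 2)
    (h2 : ∀ z : ℂ, z.re = u → ∑ i, ‖G i z‖ ^ 2 ≤ (Q * (1 + |z.im|) ^ m) ^ 2) (s : ℂ)
    (hs1 : l ≤ s.re) (hs2 : s.re ≤ u) :
    ∑ i, ‖G i s‖ ^ 2 ≤ (Km m * (P ^ (1 - (s.re - l) / (u - l)) * Q ^ ((s.re - l) / (u - l))) *
      (1 + |s.im|) ^ m) ^ 2 := by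
  set G' : ℂ → EuclideanSpace ℂ I := fun z => WithLp.toLp 2 (fun i => G i z) with hG'
  have hn : ∀ z, ‖G' z‖ ^ 2 = ∑ i, ‖G i z‖ ^ 2 := by
    intro z
    rw [EuclideanSpace.norm_sq_eq]
  have hle : ∀ (z : ℂ) (B : ℝ), 0 ≤ B → ∑ i, ‖G i z‖ ^ 2 ≤ B ^ 2 → ‖G' z‖ ≤ B := by
    intro z B hB h
    rw [← hn] at h
    exact le_of_sq_le_sq h hB
  have := three_vec G' hlu hw (fun z hz1 hz2 => by
    rw [differentiableAt_piLp 2]
    intro i
    exact hd i z hz1 hz2) (by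
    choose C A hCA using hg
    refine ⟨∑ i, |C i|, ∑ i, |A i|, fun z hz1 hz2 => ?_⟩
    apply hle _ _ (by positivity)
    rw [Finset.sum_mul]
    have h4 : ∀ i ∈ (Finset.univ : Finset I), ‖G i z‖ ≤ |C i| * Real.exp ((∑ i, |A i|) * |z.im|) := by
      intro i _
      refine (hCA i z hz1 hz2).trans ?_
      have h3 : A i ≤ ∑ i, |A i| := (le_abs_self _).trans
        (Finset.single_le_sum (f := fun i => |A i|) (fun _ _ => abs_nonneg _) (Finset.mem_univ i))
      calc C i * Real.exp (A i * |z.im|) ≤ |C i| * Real.exp (A i * |z.im|) :=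
            mul_le_mul_of_nonneg_right (le_abs_self _) (Real.exp_pos _).le
        _ ≤ _ := by
            apply mul_le_mul_of_nonneg_left _ (abs_nonneg _)
            apply Real.exp_le_exp.mpr
            exact mul_le_mul_of_nonneg_right h3 (abs_nonneg _)
    calc ∑ i, ‖G i z‖ ^ 2 ≤ (∑ i, ‖G i z‖) ^ 2 := by
          rw [sq (∑ i, ‖G i z‖), Finset.sum_mul]
          refine Finset.sum_le_sum fun i _ => ?_
          rw [sq]
          exact mul_le_mul_of_nonneg_left (Finset.single_le_sum (f := fun i => ‖G i z‖)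
            (fun _ _ => norm_nonneg _) (Finset.mem_univ i)) (norm_nonneg _)
      _ ≤ _ := by
          apply pow_le_pow_left₀ (Finset.sum_nonneg fun _ _ => norm_nonneg _)
          exact Finset.sum_le_sum h4) m hP hQ
    (fun z hz => hle z _ (by positivity) (h1 z hz)) (fun z hz => hle z _ (by positivity) (h2 z hz))
    s hs1 hs2
  rw [← hn]
  exact pow_le_pow_left₀ (norm_nonneg _) this 2

end Pool.Agent.H13.TD
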