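import Pool.Graph.R_seed8.W388.TW.D0
import Pool.Graph.R_seed8.W820.TW.FE
import Pool.Graph.R_seed8.H336R4.PF.TaskP

/-!
# The factor of the functional equation of weight 2 (helper13)
-/

set_option autoImplicit false

open Complex Filter Topology
open scoped ComplexConjugate

namespace Pool.Agent.H13.TD

/-- the ratio of Gamma factors -/
lemma gam_ratio : ∃ A : ℝ, 1 ≤ A ∧ ∀ z : ℂ, -(1 / 4) ≤ z.re → z.re ≤ 5 / 4 →
    ‖Complex.Gamma (3 / 2 - z) * (Complex.Gamma (z + 1 / 2))⁻¹‖ ≤ A * (1 + |z.im|) ^ 2 := by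
  -- bounds on the real axis
  have hc1 : ContinuousOn (fun x : ℝ => Real.Gamma (3 / 2 - x) * (Real.Gamma (5 / 2 + x))⁻¹)
      (Set.Icc (-(1 / 4)) (5 / 4)) := by
    intro x hx
    have h1 : 0 < 3 / 2 - x := by linarith [hx.2]
    have h2 : 0 < 5 / 2 + x := by linarith [hx.1]
    have h3 : ContinuousAt Real.Gamma (3 / 2 - x) :=
      (Real.differentiableAt_Gamma (fun m => by
        have : (0 : ℝ) ≤ m := Nat.cast_nonneg m
        linarith)).continuousAt
    have h4 : ContinuousAt Real.Gamma (5 / 2 + x) :=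
      (Real.differentiableAt_Gamma (fun m => by
        have : (0 : ℝ) ≤ m := Nat.cast_nonneg m
        linarith)).continuousAt
    apply ContinuousAt.continuousWithinAt
    apply ContinuousAt.mul
    · exact ContinuousAt.comp (f := fun x : ℝ => 3 / 2 - x) (g := Real.Gamma) h3 (by fun_prop)
    · apply ContinuousAt.inv₀
      · exact ContinuousAt.comp (f := fun x : ℝ => 5 / 2 + x) (g := Real.Gamma) h4 (by fun_prop)
      · exact (Real.Gamma_pos_of_pos h2).ne'
  obtain ⟨B, hB⟩ := isCompact_Icc.exists_bound_of_continuousOn hc1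
  refine ⟨max 1 (B * 16), le_max_left _ _, fun z hz1 hz2 => ?_⟩
  set x := z.re with hx
  set t := z.im with ht
  have h32 : 0 < 3 / 2 - x := by linarith
  have h52 : 0 < 5 / 2 + x := by linarith
  have hG52 : 0 < Real.Gamma (5 / 2 + x) := Real.Gamma_pos_of_pos h52
  have hG32 : 0 < Real.Gamma (3 / 2 - x) := Real.Gamma_pos_of_pos h32
  have p1 := Pool.Agent.H336R4.PF.taskP1 (3 / 2 - x) (5 / 2 + x) t h32 (by linarith)
  -- the two arguments
  have hz : z = (x : ℂ) + (t : ℂ) * I := (Complex.re_add_im z).symm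
  have e1 : ‖Complex.Gamma (3 / 2 - z)‖ = ‖Complex.Gamma (((3 / 2 - x : ℝ) : ℂ) + t * I)‖ := by
    have : (3 / 2 - z : ℂ) = (starRingEnd ℂ) (((3 / 2 - x : ℝ) : ℂ) + t * I) := by
      rw [map_add, map_mul, Complex.conj_ofReal, Complex.conj_ofReal, Complex.conj_I]
      calc (3 / 2 - z : ℂ) = 3 / 2 - ((x : ℂ) + (t : ℂ) * I) := by rw [← hz]
        _ = _ := by push_cast; ring
    rw [this, Complex.Gamma_conj, RCLike.norm_conj]
  have hz12 : z + 1 / 2 ≠ 0 := by
    intro h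
    have := congrArg Complex.re h
    simp at this
    linarith
  have hz32 : z + 1 / 2 + 1 ≠ 0 := by
    intro h
    have := congrArg Complex.re h
    simp at this
    linarith
  have e2 : Complex.Gamma (((5 / 2 + x : ℝ) : ℂ) + t * I) =
      (z + 1 / 2 + 1) * ((z + 1 / 2) * Complex.Gamma (z + 1 / 2)) := by
    have h1 := Complex.Gamma_add_one (z + 1 / 2) hz12
    have h2 := Complex.Gamma_add_one (z + 1 / 2 + 1) hz32
    rw [h1] at h2
    rw [← h2]
    congr 1
    apply Complex.ext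
    · simp [hx]; ring
    · simp [ht]
  have hne : Complex.Gamma (z + 1 / 2) ≠ 0 := by
    apply Complex.Gamma_ne_zero_of_re_pos
    simp
    linarith
  have hn0 : 0 < ‖Complex.Gamma (z + 1 / 2)‖ := norm_pos_iff.mpr hne
  have hb1 : ‖z + 1 / 2 + 1‖ ≤ 4 * (1 + |t|) := by
    refine (Complex.norm_le_abs_re_add_abs_im _).trans ?_
    have h1 : (z + 1 / 2 + 1).re = x + 3 / 2 := by simp; ring
    have h2 : (z + 1 / 2 + 1).im = t := by simp [ht]
    rw [h1, h2, abs_of_nonneg (by linarith)]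
    linarith [abs_nonneg t]
  have hb2 : ‖z + 1 / 2‖ ≤ 4 * (1 + |t|) := by
    refine (Complex.norm_le_abs_re_add_abs_im _).trans ?_
    have h1 : (z + 1 / 2).re = x + 1 / 2 := by simp; rfl
    have h2 : (z + 1 / 2).im = t := by simp [ht]
    rw [h1, h2, abs_of_nonneg (by linarith)]
    linarith [abs_nonneg t]
  rw [norm_mul, norm_inv, e1, ← div_eq_mul_inv, div_le_iff₀ hn0]
  have p2 : ‖Complex.Gamma (((3 / 2 - x : ℝ) : ℂ) + t * I)‖ ≤
      (Real.Gamma (3 / 2 - x) * (Real.Gamma (5 / 2 + x))⁻¹) *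
        ‖Complex.Gamma (((5 / 2 + x : ℝ) : ℂ) + t * I)‖ := by
    have : ‖Complex.Gamma (((3 / 2 - x : ℝ) : ℂ) + t * I)‖ ≤
        (‖Complex.Gamma (((5 / 2 + x : ℝ) : ℂ) + t * I)‖ * Real.Gamma (3 / 2 - x)) /
          Real.Gamma (5 / 2 + x) := by
      rw [le_div_iff₀ hG52]
      exact p1
    refine this.trans (le_of_eq ?_)
    rw [div_eq_mul_inv]
    ring
  have p3 : Real.Gamma (3 / 2 - x) * (Real.Gamma (5 / 2 + x))⁻¹ ≤ B := by
    have := hB x ⟨hz1, hz2⟩
    exact (le_abs_self _).trans this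
  have hB0 : 0 ≤ B := by
    refine le_trans ?_ p3
    positivity
  rw [e2, norm_mul, norm_mul] at p2
  calc _ ≤ _ := p2
    _ ≤ B * ((4 * (1 + |t|)) * ((4 * (1 + |t|)) * ‖Complex.Gamma (z + 1 / 2)‖)) := by
        gcongr
    _ = (B * 16) * (1 + |t|) ^ 2 * ‖Complex.Gamma (z + 1 / 2)‖ := by ring
    _ ≤ _ := by
        gcongr
        exact le_max_right _ _

/-- **the factor of the functional equation** -/
theorem X_exists4 {N : ℝ} (hN : 1 ≤ N) : ∃ A : ℝ, 1 ≤ A ∧ ∀ (Q : ℝ), 1 ≤ Q → ∀ F : ℂ → ℂ,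
    W388.FE2 2 N Q F → ∃ X : ℂ → ℂ,
      (∀ z : ℂ, z.re < 3 / 2 → DifferentiableAt ℂ X z) ∧
      (∀ z : ℂ, z.re < 3 / 2 → F z = X z * conj (F (1 - conj z))) ∧
      (∀ z : ℂ, -(1 / 4) ≤ z.re → z.re ≤ 5 / 4 →
        ‖X z‖ ≤ A * Q ^ (1 - 2 * z.re) * (1 + |z.im|) ^ 2) ∧
      (∀ z : ℂ, 0 < z.re → z.re < 1 → X z ≠ 0) := by
  obtain ⟨A, hA, hAr⟩ := gam_ratio
  have hpi := Real.pi_pos
  set c0 : ℝ := Real.sqrt N / (2 * Real.pi) with hc0
  have hc0p : 0 < c0 := by
    have : 0 < Real.sqrt N := Real.sqrt_pos.mpr (by linarith)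
    positivity
  -- powers of `c0`
  set D : ℝ := max c0 c0⁻¹ with hD
  have hD1 : 1 ≤ D := by
    rcases le_total 1 c0 with h | h
    · exact le_max_of_le_left h
    · exact le_max_of_le_right ((one_le_inv₀ hc0p).mpr h)
  have hcD : ∀ y : ℝ, |y| ≤ 2 → c0 ^ y ≤ D ^ (2 : ℝ) := by
    intro y hy
    rw [abs_le] at hy
    rcases le_total 0 y with h | h
    · calc c0 ^ y ≤ D ^ y := Real.rpow_le_rpow hc0p.le (le_max_left _ _) h
        _ ≤ D ^ (2 : ℝ) := Real.rpow_le_rpow_of_exponent_le hD1 hy.2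
    · calc c0 ^ y = (c0⁻¹) ^ (-y) := by rw [Real.inv_rpow hc0p.le, Real.rpow_neg hc0p.le, inv_inv]
        _ ≤ D ^ (-y) := Real.rpow_le_rpow (by positivity) (le_max_right _ _) (by linarith)
        _ ≤ D ^ (2 : ℝ) := Real.rpow_le_rpow_of_exponent_le hD1 (by linarith)
  have hD2 : 1 ≤ D ^ (2 : ℝ) := Real.one_le_rpow hD1 (by norm_num)
  refine ⟨A * D ^ (2 : ℝ), one_le_mul_of_one_le_of_one_le hA hD2, fun Q hQ F hF => ?_⟩
  obtain ⟨w, hw, hfe⟩ := hF.fe
  set c : ℝ := c0 * Q with hc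
  have hcp : 0 < c := by positivity
  have hcc : (c : ℂ) ≠ 0 := ofReal_ne_zero.mpr hcp.ne'
  set X : ℂ → ℂ := fun z => w * (c : ℂ) ^ (1 - 2 * z) *
    (Complex.Gamma (3 / 2 - z) * (Complex.Gamma (z + 1 / 2))⁻¹) with hX
  have hXd : ∀ z : ℂ, z.re < 3 / 2 → DifferentiableAt ℂ X z := by
    intro z hz
    have h1 : DifferentiableAt ℂ (fun z : ℂ => (c : ℂ) ^ (1 - 2 * z)) z := by
      refine DifferentiableAt.const_cpow (by fun_prop) (Or.inl hcc)
    have h2 : DifferentiableAt ℂ (fun z : ℂ => Complex.Gamma (3 / 2 - z)) z := by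
      have h3 : DifferentiableAt ℂ Complex.Gamma (3 / 2 - z) := by
        apply Complex.differentiableAt_Gamma
        intro m h
        have := congrArg Complex.re h
        simp at this
        have hm : (0 : ℝ) ≤ m := Nat.cast_nonneg m
        linarith
      exact DifferentiableAt.fun_comp' (f := fun z : ℂ => 3 / 2 - z) z h3 (by fun_prop)
    have h3 : DifferentiableAt ℂ (fun z : ℂ => (Complex.Gamma (z + 1 / 2))⁻¹) z := by
      have h4 := Complex.differentiable_one_div_Gamma (z + 1 / 2)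
      exact DifferentiableAt.fun_comp' (f := fun z : ℂ => z + 1 / 2) z h4 (by fun_prop)
    exact ((differentiableAt_const w).mul h1).mul (h2.mul h3)
  have hfe1 : ∀ z : ℂ, z.im ≠ 0 → F z = X z * conj (F (1 - conj z)) := by
    intro z hz
    have h1 := hfe z hz
    have hk : ((2 : ℤ) : ℂ) = 2 := by norm_num
    have hcQ : (Real.sqrt N * Q / (2 * Real.pi) : ℝ) = c := by
      rw [hc, hc0]; ring
    have hg1 : W388.GG 2 N Q z = (c : ℂ) ^ z * Complex.Gamma (z + 1 / 2) := by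
      unfold W388.GG
      rw [hcQ, hk]
      norm_num
    have hg2 : conj (W388.GG 2 N Q (1 - conj z)) = (c : ℂ) ^ (1 - z) * Complex.Gamma (3 / 2 - z) := by
      unfold W388.GG
      rw [hcQ, hk, map_mul, ← Complex.Gamma_conj]
      congr 1
      · have h5 := Complex.cpow_conj (c : ℂ) (1 - conj z) (by
          rw [Complex.arg_ofReal_of_nonneg hcp.le]; exact hpi.ne)
        rw [Complex.conj_ofReal] at h5
        rw [← h5]
        congr 1
        simp
      · congr 1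
        have hc2 : conj (2 : ℂ) = 2 := map_ofNat _ 2
        simp only [map_add, map_sub, map_div₀, Complex.conj_conj, map_one, hc2]
        ring
    rw [map_mul, hg1, hg2] at h1
    have hne : Complex.Gamma (z + 1 / 2) ≠ 0 := by
      apply Complex.Gamma_ne_zero
      intro m h
      have := congrArg Complex.im h
      simp at this
      exact hz this
    have hcz : (c : ℂ) ^ z ≠ 0 := by
      rw [Ne, Complex.cpow_eq_zero_iff]; exact fun h => hcc h.1
    have h2 : F z = ((c : ℂ) ^ z)⁻¹ * (Complex.Gamma (z + 1 / 2))⁻¹ *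
        ((c : ℂ) ^ z * Complex.Gamma (z + 1 / 2) * F z) := by
      have h9 : ((c : ℂ) ^ z)⁻¹ * (Complex.Gamma (z + 1 / 2))⁻¹ *
        ((c : ℂ) ^ z * Complex.Gamma (z + 1 / 2) * F z) = (((c : ℂ) ^ z)⁻¹ * (c : ℂ) ^ z) *
          ((Complex.Gamma (z + 1 / 2))⁻¹ * Complex.Gamma (z + 1 / 2)) * F z := by ring
      rw [h9, inv_mul_cancel₀ hcz, inv_mul_cancel₀ hne, one_mul, one_mul]
    rw [h2, h1, hX]
    simp only
    have h3 : (c : ℂ) ^ (1 - 2 * z) = ((c : ℂ) ^ z)⁻¹ * (c : ℂ) ^ (1 - z) := by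
      rw [← Complex.cpow_neg, ← Complex.cpow_add _ _ hcc]
      congr 1
      ring
    rw [h3]
    ring
  refine ⟨X, hXd, fun z hz => ?_, fun z hz1 hz2 => ?_, fun z hz1 hz2 => ?_⟩
  · by_cases him : z.im = 0
    · -- continuity
      set u : ℕ → ℂ := fun n => z + ((1 / ((n : ℝ) + 1) : ℝ) : ℂ) * I with hu
      have hut : Tendsto u atTop (𝓝 z) := by
        have h1 : Tendsto (fun n : ℕ => (1 / ((n : ℝ) + 1) : ℝ)) atTop (𝓝 0) :=
          tendsto_one_div_add_atTop_nhds_zero_nat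
        have h2 : Tendsto (fun n : ℕ => ((1 / ((n : ℝ) + 1) : ℝ) : ℂ)) atTop (𝓝 ((0 : ℝ) : ℂ)) :=
          (Complex.continuous_ofReal.tendsto 0).comp h1
        have h3 := (h2.mul_const I).const_add z
        rw [Complex.ofReal_zero, zero_mul, add_zero] at h3
        exact h3
      have hL : Tendsto (fun n => F (u n)) atTop (𝓝 (F z)) :=
        (hF.diff.continuous.tendsto z).comp hut
      have hRc : ContinuousAt (fun z => X z * conj (F (1 - conj z))) z := by
        apply ContinuousAt.mul (hXd z hz).continuousAt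
        have h1 : Continuous (fun z : ℂ => conj (F (1 - conj z))) :=
          Complex.continuous_conj.comp (hF.diff.continuous.comp
            (continuous_const.sub Complex.continuous_conj))
        exact h1.continuousAt
      have hR : Tendsto (fun n => X (u n) * conj (F (1 - conj (u n)))) atTop
          (𝓝 (X z * conj (F (1 - conj z)))) := hRc.tendsto.comp hut
      refine tendsto_nhds_unique hL (hR.congr fun n => ?_)
      have h4 : (u n).im = 1 / ((n : ℝ) + 1) := by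
        rw [hu]
        simp only [Complex.add_im, Complex.mul_I_im, Complex.ofReal_re, him, zero_add]
      have h5 : (u n).im ≠ 0 := by
        rw [h4]
        positivity
      exact (hfe1 (u n) h5).symm
    · exact hfe1 z him
  · rw [hX]
    simp only
    rw [norm_mul, norm_mul, hw, one_mul, Complex.norm_cpow_eq_rpow_re_of_pos hcp]
    have h1 : (1 - 2 * z).re = 1 - 2 * z.re := by simp
    rw [h1, hc, Real.mul_rpow hc0p.le (by linarith)]
    have h2 := hcD (1 - 2 * z.re) (by rw [abs_le]; constructor <;> linarith)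
    have h3 := hAr z hz1 hz2
    have h4 : 0 ≤ Q ^ (1 - 2 * z.re) := by positivity
    calc c0 ^ (1 - 2 * z.re) * Q ^ (1 - 2 * z.re) *
          ‖Complex.Gamma (3 / 2 - z) * (Complex.Gamma (z + 1 / 2))⁻¹‖
        ≤ D ^ (2 : ℝ) * Q ^ (1 - 2 * z.re) * (A * (1 + |z.im|) ^ 2) := by gcongr
      _ = _ := by ring
  · rw [hX]
    simp only
    have h1 : w ≠ 0 := by
      intro h
      rw [h, norm_zero] at hw
      norm_num at hw
    have h2 : (c : ℂ) ^ (1 - 2 * z) ≠ 0 := by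
      rw [Ne, Complex.cpow_eq_zero_iff]; exact fun h => hcc h.1
    have h3 : Complex.Gamma (3 / 2 - z) ≠ 0 := by
      apply Complex.Gamma_ne_zero_of_re_pos
      simp
      linarith
    have h4 : Complex.Gamma (z + 1 / 2) ≠ 0 := by
      apply Complex.Gamma_ne_zero_of_re_pos
      simp
      linarith
    exact mul_ne_zero (mul_ne_zero h1 h2) (mul_ne_zero h3 (inv_ne_zero h4))

/-- the factor of the functional equation -/
theorem X_exists {N : ℝ} (hN : 1 ≤ N) : ∃ A : ℝ, 1 ≤ A ∧ ∀ (Q : ℝ), 1 ≤ Q → ∀ F : ℂ → ℂ,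
    W388.FE2 2 N Q F → ∃ X : ℂ → ℂ,
      (∀ z : ℂ, z.re < 3 / 2 → DifferentiableAt ℂ X z) ∧
      (∀ z : ℂ, z.re < 3 / 2 → F z = X z * conj (F (1 - conj z))) ∧
      (∀ z : ℂ, -(1 / 4) ≤ z.re → z.re ≤ 5 / 4 →
        ‖X z‖ ≤ A * Q ^ (1 - 2 * z.re) * (1 + |z.im|) ^ 2) := by
  obtain ⟨A, hA, h⟩ := X_exists4 hN
  refine ⟨A, hA, fun Q hQ F hF => ?_⟩
  obtain ⟨X, h1, h2, h3, -⟩ := h Q hQ F hF
  exact ⟨X, h1, h2, h3⟩

/-- growth of `F` -/
theorem F_grow {N Q : ℝ} (hN : 1 ≤ N) (hQ : 1 ≤ Q) {F : ℂ → ℂ} (hF : W388.FE2 2 N Q F) :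
    ∃ C A : ℝ, ∀ z : ℂ, -(1 / 4) ≤ z.re → z.re ≤ 5 / 4 → ‖F z‖ ≤ C * Real.exp (A * |z.im|) := by
  obtain ⟨M, hM0, hM⟩ := Pool.Agent.W820.TW.inv_Gamma_le
  obtain ⟨C, hC⟩ := hF.vert (-(1 / 4)) (5 / 4)
  have hpi := Real.pi_pos
  have hsq : 0 < Real.sqrt N := Real.sqrt_pos.mpr (by linarith)
  set κ : ℝ := Real.sqrt N * Q / (2 * Real.pi) with hκd
  have hκ : 0 < κ := by positivity
  have hκc : (κ : ℂ) ≠ 0 := ofReal_ne_zero.mpr hκ.ne'
  -- near the real axis
  have hcomp : IsCompact (Set.Icc (-(1 / 4) : ℝ) (5 / 4) ×ℂ Set.Icc (-1 : ℝ) 1) :=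
    isCompact_Icc.reProdIm isCompact_Icc
  obtain ⟨B, hB⟩ := hcomp.exists_bound_of_continuousOn (f := F) hF.diff.continuous.continuousOn
  -- powers of `κ`
  obtain ⟨K, hK⟩ := (isCompact_Icc (a := (-(1 / 4) : ℝ)) (b := 5 / 4)).exists_bound_of_continuousOn
    (f := fun x : ℝ => κ ^ (-x)) (by
      apply Continuous.continuousOn
      exact Continuous.rpow continuous_const continuous_neg (fun _ => Or.inl hκ.ne'))
  refine ⟨|B| + |K| * M * |C|, Real.pi, fun z hz1 hz2 => ?_⟩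
  have he : 1 ≤ Real.exp (Real.pi * |z.im|) := Real.one_le_exp (by positivity)
  rcases le_or_gt 1 |z.im| with h | h
  · have e1 := hC z hz1 hz2 h
    have e2 := hM (z + 1 / 2) (by simp; linarith) (by simpa using h)
    have e2' : (z + 1 / 2).im = z.im := by simp
    rw [e2'] at e2
    have hk : ((2 : ℤ) : ℂ) = 2 := by norm_num
    have hg1 : W388.GG 2 N Q z = (κ : ℂ) ^ z * Complex.Gamma (z + 1 / 2) := by
      unfold W388.GG
      rw [hk, ← hκd]
      norm_num
    have hne : Complex.Gamma (z + 1 / 2) ≠ 0 := by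
      apply Complex.Gamma_ne_zero
      intro m h'
      have := congrArg Complex.im h'
      simp at this
      rw [this, abs_zero] at h
      linarith
    have hcz : (κ : ℂ) ^ z ≠ 0 := by
      rw [Ne, Complex.cpow_eq_zero_iff]; exact fun h => hκc h.1
    have e3 : F z = (κ : ℂ) ^ (-z) * ((Complex.Gamma (z + 1 / 2))⁻¹ * (W388.GG 2 N Q z * F z)) := by
      rw [hg1, Complex.cpow_neg]
      have h9 : ((κ : ℂ) ^ z)⁻¹ * ((Complex.Gamma (z + 1 / 2))⁻¹ *
        ((κ : ℂ) ^ z * Complex.Gamma (z + 1 / 2) * F z)) = (((κ : ℂ) ^ z)⁻¹ * (κ : ℂ) ^ z) *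
          ((Complex.Gamma (z + 1 / 2))⁻¹ * Complex.Gamma (z + 1 / 2)) * F z := by ring
      rw [h9, inv_mul_cancel₀ hcz, inv_mul_cancel₀ hne, one_mul, one_mul]
    rw [e3, norm_mul, norm_mul, Complex.norm_cpow_eq_rpow_re_of_pos hκ]
    have e4 : κ ^ (-z).re ≤ |K| := by
      have := hK z.re ⟨hz1, hz2⟩
      rw [Complex.neg_re]
      exact (le_abs_self _).trans (this.trans (le_abs_self _))
    calc κ ^ (-z).re * (‖(Complex.Gamma (z + 1 / 2))⁻¹‖ * ‖W388.GG 2 N Q z * F z‖)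
        ≤ |K| * ((M * Real.exp (Real.pi * |z.im|)) * |C|) := by
          gcongr
          exact e1.trans (le_abs_self _)
      _ = |K| * M * |C| * Real.exp (Real.pi * |z.im|) := by ring
      _ ≤ _ := by
          apply mul_le_mul_of_nonneg_right _ (Real.exp_pos _).le
          linarith [abs_nonneg B]
  · have e1 := hB z (by
      rw [Complex.mem_reProdIm]
      exact ⟨⟨hz1, hz2⟩, abs_le.mp h.le⟩)
    calc ‖F z‖ ≤ |B| * 1 := by rw [mul_one]; exact e1.trans (le_abs_self _)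
      _ ≤ |B| * Real.exp (Real.pi * |z.im|) := mul_le_mul_of_nonneg_left he (abs_nonneg _)
      _ ≤ _ := by
          apply mul_le_mul_of_nonneg_right _ (Real.exp_pos _).le
          have : 0 ≤ |K| * M * |C| := by positivity
          linarith

end Pool.Agent.H13.TD
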