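import Pool.Agent.Helper13.TD.Tail
import Pool.Agent.Helper13.TD.Xf
import Pool.Agent.Helper13.TD.Three

/-!
# The mean square near the critical line (helper13)
-/

set_option autoImplicit false

open Finset Complex Filter Topology
open scoped ComplexConjugate

namespace Pool.Agent.H13.TD

/-- the bound of Rankin and Selberg with a constant -/
def RSB (lam : ℕ → ℝ) (C₁ : ℝ) : Prop := ∀ σ : ℝ, 0 < σ → σ ≤ 1 →
    Summable (fun n : ℕ => lam n ^ 2 * (n : ℝ) ^ (-(1 + σ))) ∧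
      ∑' n : ℕ, lam n ^ 2 * (n : ℝ) ^ (-(1 + σ)) ≤ C₁ / σ

/-- `F` is the twisted L-function -/
def IsL (N : ℕ) (lam : ℕ → ℝ) {r : ℕ} (χ : DirichletCharacter ℂ r) (F : ℂ → ℂ) : Prop :=
  W388.FE2 2 N r F ∧ ∀ s : ℂ, 1 < s.re → F s = ∑' n : ℕ, χ (n : ZMod r) * (lam n : ℂ) * (n : ℂ) ^ (-s)

/-- change of the exponent -/
lemma shift_sum (a : ℕ → ℝ) (Y : ℕ) {y θ η : ℝ} (hθ : 0 ≤ θ) (hy : y ≤ θ - (1 + η)) :
    ∑ n ∈ Icc 1 Y, a n ^ 2 * (n : ℝ) ^ y ≤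
      (Y : ℝ) ^ θ * ∑ n ∈ Icc 1 Y, a n ^ 2 * (n : ℝ) ^ (-(1 + η)) := by
  rw [Finset.mul_sum]
  refine Finset.sum_le_sum fun n hn => ?_
  rw [Finset.mem_Icc] at hn
  have hn1 : (1 : ℝ) ≤ n := by exact_mod_cast hn.1
  have hn0 : (0 : ℝ) < n := by linarith
  have h1 : (n : ℝ) ^ y ≤ (n : ℝ) ^ θ * (n : ℝ) ^ (-(1 + η)) := by
    rw [← Real.rpow_add hn0]
    exact Real.rpow_le_rpow_of_exponent_le hn1 (by linarith)
  have h2 : (n : ℝ) ^ θ ≤ (Y : ℝ) ^ θ := Real.rpow_le_rpow hn0.le (by exact_mod_cast hn.2) hθ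
  calc a n ^ 2 * (n : ℝ) ^ y ≤ a n ^ 2 * ((n : ℝ) ^ θ * (n : ℝ) ^ (-(1 + η))) :=
        mul_le_mul_of_nonneg_left h1 (sq_nonneg _)
    _ ≤ a n ^ 2 * ((Y : ℝ) ^ θ * (n : ℝ) ^ (-(1 + η))) := by gcongr
    _ = _ := by ring

/-- powers `r ^ (k / L)` -/
lemma rpow_le_exp {r L k : ℝ} (hr : 1 ≤ r) (hL : Real.log r ≤ L) (hL0 : 0 < L) (hk : 0 ≤ k) :
    r ^ (k * (1 / L)) ≤ Real.exp k := by
  rw [Real.rpow_def_of_pos (by linarith)]
  apply Real.exp_le_exp.mpr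
  have h1 : Real.log r * (1 / L) ≤ 1 := by
    rw [mul_one_div, div_le_one hL0]; exact hL
  calc Real.log r * (k * (1 / L)) = k * (Real.log r * (1 / L)) := by ring
    _ ≤ k * 1 := mul_le_mul_of_nonneg_left h1 hk
    _ = k := mul_one k

section

variable {N : ℕ} {lam : ℕ → ℝ} {C₁ : ℝ} {r : ℕ} [NeZero r]

/-- the sum of the squares of the coefficients -/
lemma lam_fin (hrs : RSB lam C₁) {L : ℝ} (hL : 1 ≤ L) (Y : ℕ) :
    ∑ n ∈ Icc 1 Y, lam n ^ 2 * (n : ℝ) ^ (-(1 + 1 / L)) ≤ C₁ * L := by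
  have hL0 : 0 < L := by linarith
  obtain ⟨h1, h2⟩ := hrs (1 / L) (by positivity) (by rw [div_le_one hL0]; exact hL)
  refine (h1.sum_le_tsum _ (fun n _ => by positivity)).trans (h2.trans (le_of_eq ?_))
  field_simp

lemma Dp_sum_sq (hrs : RSB lam C₁) {L : ℝ} (hL : 1 ≤ L) (hC₁ : 0 ≤ C₁)
    {θ : ℝ} (hθ : 0 ≤ θ) {z : ℂ} (hz : -(2 * z.re) ≤ θ - (1 + 1 / L)) :
    ∑ χ : DirichletCharacter ℂ r, ‖Dp χ (Icc 1 r) lam z‖ ^ 2 ≤
      2 * r * ((r : ℝ) ^ θ * (C₁ * L)) := by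
  refine (poly_ms lam r z).trans ?_
  have h1 := shift_sum lam r hθ hz
  have h2 := lam_fin hrs hL r
  have hr : (0 : ℝ) ≤ r := Nat.cast_nonneg r
  calc ((r : ℝ) + r) * ∑ n ∈ Icc 1 r, lam n ^ 2 * (n : ℝ) ^ (-(2 * z.re))
      ≤ ((r : ℝ) + r) * ((r : ℝ) ^ θ * ∑ n ∈ Icc 1 r, lam n ^ 2 * (n : ℝ) ^ (-(1 + 1 / L))) :=
        mul_le_mul_of_nonneg_left h1 (by positivity)
    _ ≤ ((r : ℝ) + r) * ((r : ℝ) ^ θ * (C₁ * L)) := by gcongr
    _ = _ := by ring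

/-- the summability of the twisted series -/
lemma twist_summable (hlam : W388.HeckeSeq N lam) (hrs : RSB lam C₁) (χ : DirichletCharacter ℂ r)
    {z : ℂ} (hz : 1 < z.re) : Summable (fun n : ℕ => ‖χ (n : ZMod r) * (lam n : ℂ) * (n : ℂ) ^ (-z)‖) := by
  set η : ℝ := min (z.re - 1) 1 with hη
  have hη0 : 0 < η := lt_min (by linarith) one_pos
  have hη1 : η ≤ 1 := min_le_right _ _
  have h1 := tail_summable lam (η := η) (x := z.re) hη0 (by
    have := min_le_left (z.re - 1) 1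
    linarith) hlam.zero (hrs η hη0 hη1).1 rfl
  refine Summable.of_nonneg_of_le (fun _ => norm_nonneg _) (fun n => ?_) h1
  rw [mul_assoc, norm_mul]
  exact mul_le_of_le_one_left (norm_nonneg _) (χ.norm_le_one _)

/-- the tail of the series -/
lemma F_sub_D (hlam : W388.HeckeSeq N lam) (hrs : RSB lam C₁) (χ : DirichletCharacter ℂ r)
    {F : ℂ → ℂ} (hF : IsL N lam χ F) (Y : ℕ) {z : ℂ} (hz : 1 < z.re) :
    F z - Dp χ (Icc 1 Y) lam z = ∑' n : ℕ, ((if Y < n then lam n else 0 : ℝ) : ℂ) *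
      χ (n : ZMod r) * (n : ℂ) ^ (-z) := by
  have hsum := (twist_summable hlam hrs χ hz).of_norm
  set f : ℕ → ℂ := fun n => χ (n : ZMod r) * (lam n : ℂ) * (n : ℂ) ^ (-z) with hf
  set g : ℕ → ℂ := fun n => if n ∈ Icc 1 Y then f n else 0 with hg
  set h : ℕ → ℂ := fun n => ((if Y < n then lam n else 0 : ℝ) : ℂ) *
      χ (n : ZMod r) * (n : ℂ) ^ (-z) with hh
  have h1 : ∀ n, f n = g n + h n := by
    intro n
    simp only [hg, hh]
    rcases Nat.eq_zero_or_pos n with rfl | hn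
    · simp [hf, hlam.zero]
    · by_cases hY : Y < n
      · have : n ∉ Icc 1 Y := by rw [Finset.mem_Icc]; omega
        rw [if_neg this, if_pos hY, zero_add, hf]
        simp only
        ring
      · have : n ∈ Icc 1 Y := by rw [Finset.mem_Icc]; omega
        rw [if_pos this, if_neg hY]
        simp
  have hgs : Summable g := summable_of_ne_finset_zero (s := Icc 1 Y) (fun n hn => by
    simp only [hg]; rw [if_neg hn])
  have hhs : Summable h := by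
    have : h = fun n => f n - g n := by
      funext n; rw [h1 n]; ring
    rw [this]
    exact hsum.sub hgs
  have h2 : ∑' n, g n = Dp χ (Icc 1 Y) lam z := by
    rw [tsum_eq_sum (s := Icc 1 Y) (fun n hn => by simp only [hg]; rw [if_neg hn])]
    unfold Dp
    refine Finset.sum_congr rfl fun n hn => ?_
    simp only [hg]
    rw [if_pos hn, hf]
    simp only
    ring
  rw [hF.2 z hz]
  have h3 : ∑' n, f n = ∑' n, g n + ∑' n, h n := by
    rw [← hgs.tsum_add hhs]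
    exact tsum_congr h1
  rw [h3, h2]
  ring

lemma FD (hlam : W388.HeckeSeq N lam) (hrs : RSB lam C₁) (hC₁ : 0 ≤ C₁) {L : ℝ} (hL : 2 ≤ L)
    (Y : Finset (DirichletCharacter ℂ r)) {F : DirichletCharacter ℂ r → ℂ → ℂ}
    (hF : ∀ χ ∈ Y, IsL N lam χ (F χ)) {z : ℂ} (hz : z.re = 1 + 1 / L) :
    ∑ χ ∈ Y, ‖F χ z - Dp χ (Icc 1 r) lam z‖ ^ 2 ≤ 2 * C₁ * L ^ 2 := by
  have hL0 : 0 < L := by linarith
  have hη : 0 < 1 / L := by positivity
  obtain ⟨hs1, hs2⟩ := hrs (1 / L) hη (by rw [div_le_one hL0]; linarith)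
  have hr1 : (1 : ℝ) ≤ r := by exact_mod_cast Nat.one_le_iff_ne_zero.mpr (NeZero.ne r)
  set a : ℕ → ℝ := fun n => if r < n then lam n else 0 with ha
  have hale : ∀ n : ℕ, a n ^ 2 * (n : ℝ) ^ (-(1 + 1 / L)) ≤ lam n ^ 2 * (n : ℝ) ^ (-(1 + 1 / L)) := by
    intro n
    apply mul_le_mul_of_nonneg_right _ (by positivity)
    simp only [ha]
    split_ifs
    · exact le_rfl
    · rw [zero_pow two_ne_zero]; exact sq_nonneg _
  have has : Summable fun n : ℕ => a n ^ 2 * (n : ℝ) ^ (-(1 + 1 / L)) :=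
    Summable.of_nonneg_of_le (fun _ => by positivity) hale hs1
  have h1 := tail_ms (r := r) a hη le_rfl hr1 (fun n hn => by
    by_contra h
    apply hn
    simp only [ha]
    rw [if_neg]
    intro h'
    apply h
    exact_mod_cast h'.le) has hz
  have h2 : ∑ χ ∈ Y, ‖F χ z - Dp χ (Icc 1 r) lam z‖ ^ 2 ≤
      ∑ χ : DirichletCharacter ℂ r, ‖∑' n : ℕ, (a n : ℂ) * χ (n : ZMod r) * (n : ℂ) ^ (-z)‖ ^ 2 := by
    have : ∀ χ ∈ Y, ‖F χ z - Dp χ (Icc 1 r) lam z‖ ^ 2 =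
        ‖∑' n : ℕ, (a n : ℂ) * χ (n : ZMod r) * (n : ℂ) ^ (-z)‖ ^ 2 := by
      intro χ hχ
      rw [F_sub_D hlam hrs χ (hF χ hχ) r (by rw [hz]; linarith)]
    rw [Finset.sum_congr rfl this]
    exact Finset.sum_le_univ_sum_of_nonneg (fun _ => by positivity)
  refine h2.trans (h1.trans ?_)
  have h3 : ∑' n : ℕ, a n ^ 2 * (n : ℝ) ^ (-(1 + 1 / L)) ≤ C₁ * L := by
    refine (has.tsum_le_tsum hale hs1).trans (hs2.trans (le_of_eq ?_))
    field_simp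
  have h4 : (r : ℝ) / r + (1 + 1 / L) / (1 / L) ≤ 2 * L := by
    rw [div_self (by linarith)]
    have : (1 + 1 / L) / (1 / L) = L + 1 := by field_simp
    rw [this]; linarith
  have h5 : (r : ℝ) ^ (-(2 * (1 + 1 / L - (1 + 1 / L)))) = 1 := by
    rw [sub_self, mul_zero, neg_zero, Real.rpow_zero]
  rw [h5, one_mul]
  calc ((r : ℝ) / r + (1 + 1 / L) / (1 / L)) * ∑' n : ℕ, a n ^ 2 * (n : ℝ) ^ (-(1 + 1 / L))
      ≤ (2 * L) * (C₁ * L) := by
        apply mul_le_mul h4 h3 (tsum_nonneg fun _ => by positivity) (by positivity)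
    _ = _ := by ring

/-- three lines in the square mean, a finite set -/
lemma three_two' {α : Type} (Y : Finset α) (G : α → ℂ → ℂ) {l u : ℝ}
    (hlu : l < u) (hw : u - l ≤ 2)
    (hd : ∀ i ∈ Y, ∀ z : ℂ, l ≤ z.re → z.re ≤ u → DifferentiableAt ℂ (G i) z)
    (hg : ∀ i ∈ Y, ∃ C A : ℝ, ∀ z : ℂ, l ≤ z.re → z.re ≤ u → ‖G i z‖ ≤ C * Real.exp (A * |z.im|))
    (m : ℕ) {P Q : ℝ} (hP : 0 ≤ P) (hQ : 0 ≤ Q)
    (h1 : ∀ z : ℂ, z.re = l → ∑ i ∈ Y, ‖G i z‖ ^ 2 ≤ (P * (1 + |z.im|) ^ m) ^ 2)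
    (h2 : ∀ z : ℂ, z.re = u → ∑ i ∈ Y, ‖G i z‖ ^ 2 ≤ (Q * (1 + |z.im|) ^ m) ^ 2) (s : ℂ)
    (hs1 : l ≤ s.re) (hs2 : s.re ≤ u) :
    ∑ i ∈ Y, ‖G i s‖ ^ 2 ≤ (Km m * (P ^ (1 - (s.re - l) / (u - l)) * Q ^ ((s.re - l) / (u - l))) *
      (1 + |s.im|) ^ m) ^ 2 := by
  have h := three_two (I := Y) (fun i => G i.1) hlu hw (fun i => hd i.1 i.2) (fun i => hg i.1 i.2) m
    hP hQ (fun z hz => by
      rw [Finset.sum_coe_sort Y (fun i => ‖G i z‖ ^ 2)]
      exact h1 z hz) (fun z hz => by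
      rw [Finset.sum_coe_sort Y (fun i => ‖G i z‖ ^ 2)]
      exact h2 z hz) s hs1 hs2
  rwa [Finset.sum_coe_sort Y (fun i => ‖G i s‖ ^ 2)] at h

/-- three lines in the first mean, a finite set -/
lemma three_one' {α : Type} (Y : Finset α) (G : α → ℂ → ℂ) {l u : ℝ}
    (hlu : l < u) (hw : u - l ≤ 2)
    (hd : ∀ i ∈ Y, ∀ z : ℂ, l ≤ z.re → z.re ≤ u → DifferentiableAt ℂ (G i) z)
    (hg : ∀ i ∈ Y, ∃ C A : ℝ, ∀ z : ℂ, l ≤ z.re → z.re ≤ u → ‖G i z‖ ≤ C * Real.exp (A * |z.im|))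
    (m : ℕ) {P Q : ℝ} (hP : 0 ≤ P) (hQ : 0 ≤ Q)
    (h1 : ∀ z : ℂ, z.re = l → ∑ i ∈ Y, ‖G i z‖ ≤ P * (1 + |z.im|) ^ m)
    (h2 : ∀ z : ℂ, z.re = u → ∑ i ∈ Y, ‖G i z‖ ≤ Q * (1 + |z.im|) ^ m) (s : ℂ)
    (hs1 : l ≤ s.re) (hs2 : s.re ≤ u) :
    ∑ i ∈ Y, ‖G i s‖ ≤ Km m * (P ^ (1 - (s.re - l) / (u - l)) * Q ^ ((s.re - l) / (u - l))) *
      (1 + |s.im|) ^ m := by
  have h := three_one (I := Y) (fun i => G i.1) hlu hw (fun i => hd i.1 i.2) (fun i => hg i.1 i.2) m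
    hP hQ (fun z hz => by
      rw [Finset.sum_coe_sort Y (fun i => ‖G i z‖)]
      exact h1 z hz) (fun z hz => by
      rw [Finset.sum_coe_sort Y (fun i => ‖G i z‖)]
      exact h2 z hz) s hs1 hs2
  rwa [Finset.sum_coe_sort Y (fun i => ‖G i s‖)] at h

lemma Dp_conj_diff (χ : DirichletCharacter ℂ r) (T : Finset ℕ) (hT : 0 ∉ T) (a : ℕ → ℝ) :
    Differentiable ℂ (fun z : ℂ => conj (Dp χ T a (1 - conj z))) := by
  intro z
  have h1 : DifferentiableAt ℂ (fun w : ℂ => Dp χ T a (1 - w)) (conj z) :=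
    DifferentiableAt.fun_comp' (f := fun w : ℂ => 1 - w) (conj z) (Dp_diff χ hT a _) (by fun_prop)
  have h2 := h1.conj_conj
  rw [Complex.conj_conj] at h2
  exact h2

lemma Dp_grow (χ : DirichletCharacter ℂ r) (T : Finset ℕ) (hT : 0 ∉ T) (a : ℕ → ℝ) (x : ℝ) :
    ∃ C : ℝ, 0 ≤ C ∧ ∀ z : ℂ, x ≤ z.re → ‖Dp χ T a z‖ ≤ C :=
  ⟨_, Finset.sum_nonneg fun _ _ => by positivity, fun z hz => norm_Dp_le χ hT a hz⟩

/-- **the mean square near the critical line** -/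
theorem ms_half {N : ℕ} [NeZero N] {lam : ℕ → ℝ} {C₁ : ℝ} (hlam : W388.HeckeSeq N lam)
    (hrs : RSB lam C₁) (hC₁ : 0 ≤ C₁) : ∃ C : ℝ, 1 ≤ C ∧ ∀ (r : ℕ) [NeZero r] (L : ℝ), 32 ≤ L →
      Real.log r ≤ L → ∀ (Y : Finset (DirichletCharacter ℂ r)) (F : DirichletCharacter ℂ r → ℂ → ℂ),
      (∀ χ ∈ Y, IsL N lam χ (F χ)) → ∀ s : ℂ, s.re = 1 / 2 - 4 / L →
        ∑ χ ∈ Y, ‖F χ s‖ ^ 2 ≤ C * r * L ^ 2 * (1 + |s.im|) ^ 4 := by
  have hN1 : (1 : ℝ) ≤ N := by exact_mod_cast Nat.one_le_iff_ne_zero.mpr (NeZero.ne N)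
  obtain ⟨A, hA, hX⟩ := X_exists hN1
  set B : ℝ := 4 * A ^ 2 * Real.exp 4 * C₁ + 4 * Real.exp 3 * C₁ +
    (4 * C₁ + 4 * A ^ 2 * Real.exp 3 * C₁) with hB
  have hB0 : 0 ≤ B := by positivity
  refine ⟨max 1 (3 * (Km 2 ^ 2 * B * Real.exp 10 + 2 * Real.exp 9 * C₁ +
    2 * A ^ 2 * Real.exp 16 * C₁)), le_max_left _ _, ?_⟩
  intro r _ L hL hrL Y F hF s hs
  have hL0 : 0 < L := by linarith
  have hr1 : (1 : ℝ) ≤ r := by exact_mod_cast Nat.one_le_iff_ne_zero.mpr (NeZero.ne r)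
  have hr0 : (0 : ℝ) < r := by linarith
  set η : ℝ := 1 / L with hη
  have hη0 : 0 < η := by positivity
  have hη1 : η ≤ 1 / 32 := one_div_le_one_div_of_le (by norm_num) hL
  have hT : (0 : ℕ) ∉ Icc 1 r := by simp
  have hpow : ∀ k : ℝ, 0 ≤ k → (r : ℝ) ^ (k * η) ≤ Real.exp k := fun k hk =>
    rpow_le_exp hr1 hrL hL0 hk
  have hXc : ∀ χ : DirichletCharacter ℂ r, ∃ X : ℂ → ℂ, χ ∈ Y →
      (∀ z : ℂ, z.re < 3 / 2 → DifferentiableAt ℂ X z) ∧
      (∀ z : ℂ, z.re < 3 / 2 → F χ z = X z * conj (F χ (1 - conj z))) ∧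
      (∀ z : ℂ, -(1 / 4) ≤ z.re → z.re ≤ 5 / 4 →
        ‖X z‖ ≤ A * (r : ℝ) ^ (1 - 2 * z.re) * (1 + |z.im|) ^ 2) := by
    intro χ
    by_cases h : χ ∈ Y
    · obtain ⟨X, h1⟩ := hX r hr1 (F χ) (hF χ h).1
      exact ⟨X, fun _ => h1⟩
    · exact ⟨0, fun h' => absurd h' h⟩
  choose X hXX using hXc
  -- the polynomial
  set D : DirichletCharacter ℂ r → ℂ → ℂ := fun χ z => Dp χ (Icc 1 r) lam z with hD
  have hDY : ∀ (z : ℂ), ∑ χ ∈ Y, ‖D χ z‖ ^ 2 ≤ ∑ χ : DirichletCharacter ℂ r,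
      ‖Dp χ (Icc 1 r) lam z‖ ^ 2 := fun z =>
    Finset.sum_le_univ_sum_of_nonneg (fun _ => by positivity)
  have hre : ∀ z : ℂ, (1 - conj z).re = 1 - z.re := fun z => by simp
  have him : ∀ z : ℂ, |(1 - conj z).im| = |z.im| := fun z => by simp
  set G : DirichletCharacter ℂ r → ℂ → ℂ := fun χ z =>
    F χ z - D χ z - X χ z * conj (D χ (1 - conj z)) with hG
  -- the line `1 + η`
  have hright : ∀ z : ℂ, z.re = 1 + η → ∑ χ ∈ Y, ‖G χ z‖ ^ 2 ≤
      (Real.sqrt B * L * (1 + |z.im|) ^ 2) ^ 2 := by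
    intro z hz
    have h1 := FD hlam hrs hC₁ (by linarith : (2 : ℝ) ≤ L) Y hF (by rw [hz])
    have h2 : ∑ χ ∈ Y, ‖X χ z * conj (D χ (1 - conj z))‖ ^ 2 ≤
        2 * A ^ 2 * Real.exp 3 * C₁ * L * (1 + |z.im|) ^ 4 := by
      have e1 : ∀ χ ∈ Y, ‖X χ z * conj (D χ (1 - conj z))‖ ^ 2 ≤
          (A ^ 2 * ((r : ℝ) ^ (2 : ℝ))⁻¹ * (1 + |z.im|) ^ 4) * ‖D χ (1 - conj z)‖ ^ 2 := by
        intro χ hχ
        rw [norm_mul, RCLike.norm_conj, mul_pow]
        apply mul_le_mul_of_nonneg_right _ (by positivity)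
        have e2 := (hXX χ hχ).2.2 z (by rw [hz]; linarith) (by rw [hz]; linarith)
        have e3 : (r : ℝ) ^ (1 - 2 * z.re) ≤ ((r : ℝ) ^ (1 : ℝ))⁻¹ := by
          rw [← Real.rpow_neg hr0.le]
          exact Real.rpow_le_rpow_of_exponent_le hr1 (by rw [hz]; linarith)
        have e4 : ‖X χ z‖ ≤ A * ((r : ℝ) ^ (1 : ℝ))⁻¹ * (1 + |z.im|) ^ 2 := e2.trans (by gcongr)
        calc ‖X χ z‖ ^ 2 ≤ (A * ((r : ℝ) ^ (1 : ℝ))⁻¹ * (1 + |z.im|) ^ 2) ^ 2 :=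
              pow_le_pow_left₀ (norm_nonneg _) e4 2
          _ = _ := by
              rw [Real.rpow_one, Real.rpow_two]
              field_simp
      refine (Finset.sum_le_sum e1).trans ?_
      rw [← Finset.mul_sum]
      have e5 := Dp_sum_sq (r := r) hrs (by linarith : (1 : ℝ) ≤ L) hC₁ (θ := 1 + 3 * η)
        (by positivity) (z := 1 - conj z) (by rw [hre, hz]; linarith)
      have e6 : (r : ℝ) ^ (1 + 3 * η) ≤ r * Real.exp 3 := by
        rw [Real.rpow_add hr0, Real.rpow_one]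
        exact mul_le_mul_of_nonneg_left (hpow 3 (by norm_num)) hr0.le
      calc (A ^ 2 * ((r : ℝ) ^ (2 : ℝ))⁻¹ * (1 + |z.im|) ^ 4) * ∑ χ ∈ Y, ‖D χ (1 - conj z)‖ ^ 2
          ≤ (A ^ 2 * ((r : ℝ) ^ (2 : ℝ))⁻¹ * (1 + |z.im|) ^ 4) *
            (2 * r * ((r : ℝ) ^ (1 + 3 * η) * (C₁ * L))) := by
              apply mul_le_mul_of_nonneg_left _ (by positivity)
              exact (hDY _).trans e5
        _ ≤ (A ^ 2 * ((r : ℝ) ^ (2 : ℝ))⁻¹ * (1 + |z.im|) ^ 4) *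
            (2 * r * ((r * Real.exp 3) * (C₁ * L))) := by gcongr
        _ = _ := by
            rw [Real.rpow_two]
            field_simp
    have h3 : ∀ χ ∈ Y, ‖G χ z‖ ^ 2 ≤ 2 * ‖F χ z - Dp χ (Icc 1 r) lam z‖ ^ 2 +
        2 * ‖X χ z * conj (D χ (1 - conj z))‖ ^ 2 := by
      intro χ _
      have e1 : ‖G χ z‖ ≤ ‖F χ z - Dp χ (Icc 1 r) lam z‖ + ‖X χ z * conj (D χ (1 - conj z))‖ :=
        norm_sub_le _ _
      have e2 := pow_le_pow_left₀ (norm_nonneg _) e1 2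
      nlinarith [sq_nonneg (‖F χ z - Dp χ (Icc 1 r) lam z‖ - ‖X χ z * conj (D χ (1 - conj z))‖)]
    have h4 := Finset.sum_le_sum h3
    rw [Finset.sum_add_distrib, ← Finset.mul_sum, ← Finset.mul_sum] at h4
    have h5 : (1 : ℝ) ≤ (1 + |z.im|) ^ 4 := one_le_pow₀ (by linarith [abs_nonneg z.im])
    have h6 : L ≤ L ^ 2 := by nlinarith
    calc ∑ χ ∈ Y, ‖G χ z‖ ^ 2 ≤ 2 * (2 * C₁ * L ^ 2) +
          2 * (2 * A ^ 2 * Real.exp 3 * C₁ * L * (1 + |z.im|) ^ 4) := by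
          refine h4.trans (add_le_add ?_ ?_)
          · exact mul_le_mul_of_nonneg_left h1 (by norm_num)
          · exact mul_le_mul_of_nonneg_left h2 (by norm_num)
      _ ≤ 2 * (2 * C₁ * L ^ 2 * (1 + |z.im|) ^ 4) +
          2 * (2 * A ^ 2 * Real.exp 3 * C₁ * L ^ 2 * (1 + |z.im|) ^ 4) := by
          have h7 : 2 * A ^ 2 * Real.exp 3 * C₁ * L * (1 + |z.im|) ^ 4 ≤
              2 * A ^ 2 * Real.exp 3 * C₁ * L ^ 2 * (1 + |z.im|) ^ 4 := by gcongr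
          have h8 : 2 * C₁ * L ^ 2 ≤ 2 * C₁ * L ^ 2 * (1 + |z.im|) ^ 4 :=
            le_mul_of_one_le_right (by positivity) h5
          linarith
      _ = (4 * C₁ + 4 * A ^ 2 * Real.exp 3 * C₁) * L ^ 2 * (1 + |z.im|) ^ 4 := by ring
      _ ≤ B * L ^ 2 * (1 + |z.im|) ^ 4 := by
          apply mul_le_mul_of_nonneg_right _ (by positivity)
          apply mul_le_mul_of_nonneg_right _ (by positivity)
          rw [hB]
          have : 0 ≤ 4 * A ^ 2 * Real.exp 4 * C₁ + 4 * Real.exp 3 * C₁ := by positivity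
          linarith
      _ = _ := by
          rw [mul_pow, mul_pow, Real.sq_sqrt hB0]
          ring
  -- the line `-η`
  have hleft : ∀ z : ℂ, z.re = -η → ∑ χ ∈ Y, ‖G χ z‖ ^ 2 ≤
      ((Real.sqrt B * r * L) * (1 + |z.im|) ^ 2) ^ 2 := by
    intro z hz
    have h1 := FD hlam hrs hC₁ (by linarith : (2 : ℝ) ≤ L) Y hF (z := 1 - conj z)
      (by rw [hre, hz]; ring)
    have e5 := Dp_sum_sq (r := r) hrs (by linarith : (1 : ℝ) ≤ L) hC₁ (θ := 1 + 3 * η)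
        (by positivity) (z := z) (by rw [hz]; linarith)
    have e6 : (r : ℝ) ^ (1 + 3 * η) ≤ r * Real.exp 3 := by
      rw [Real.rpow_add hr0, Real.rpow_one]
      exact mul_le_mul_of_nonneg_left (hpow 3 (by norm_num)) hr0.le
    have h2 : ∑ χ ∈ Y, ‖D χ z‖ ^ 2 ≤ 2 * Real.exp 3 * C₁ * r ^ 2 * L := by
      calc ∑ χ ∈ Y, ‖D χ z‖ ^ 2 ≤ 2 * r * ((r : ℝ) ^ (1 + 3 * η) * (C₁ * L)) := (hDY z).trans e5
        _ ≤ 2 * r * ((r * Real.exp 3) * (C₁ * L)) := by gcongr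
        _ = _ := by ring
    have h3 : ∀ χ ∈ Y, ‖G χ z‖ ^ 2 ≤ 2 * ((A ^ 2 * Real.exp 4 * r ^ 2 * (1 + |z.im|) ^ 4) *
        ‖F χ (1 - conj z) - Dp χ (Icc 1 r) lam (1 - conj z)‖ ^ 2) + 2 * ‖D χ z‖ ^ 2 := by
      intro χ hχ
      have e1 : G χ z = X χ z * conj (F χ (1 - conj z) - D χ (1 - conj z)) - D χ z := by
        rw [hG]
        simp only
        have := (hXX χ hχ).2.1 z (by rw [hz]; linarith)
        rw [map_sub, mul_sub, ← this]
        ring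
      have e2 : ‖G χ z‖ ≤ ‖X χ z‖ * ‖F χ (1 - conj z) - D χ (1 - conj z)‖ + ‖D χ z‖ := by
        rw [e1]
        refine (norm_sub_le _ _).trans ?_
        rw [norm_mul, RCLike.norm_conj]
      have e3 := (hXX χ hχ).2.2 z (by rw [hz]; linarith) (by rw [hz]; linarith)
      have e4 : (r : ℝ) ^ (1 - 2 * z.re) ≤ r * Real.exp 2 := by
        rw [hz, show 1 - 2 * -η = 1 + 2 * η by ring, Real.rpow_add hr0, Real.rpow_one]
        exact mul_le_mul_of_nonneg_left (hpow 2 (by norm_num)) hr0.le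
      have e7 : ‖X χ z‖ ≤ A * (r * Real.exp 2) * (1 + |z.im|) ^ 2 := e3.trans (by gcongr)
      have e8 : ‖X χ z‖ ^ 2 ≤ A ^ 2 * Real.exp 4 * r ^ 2 * (1 + |z.im|) ^ 4 := by
        refine (pow_le_pow_left₀ (norm_nonneg _) e7 2).trans (le_of_eq ?_)
        have : Real.exp 4 = Real.exp 2 ^ 2 := by rw [← Real.exp_nat_mul]; norm_num
        rw [this]; ring
      have e9 := pow_le_pow_left₀ (norm_nonneg _) e2 2
      have e10 : (‖X χ z‖ * ‖F χ (1 - conj z) - D χ (1 - conj z)‖) ^ 2 ≤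
          (A ^ 2 * Real.exp 4 * r ^ 2 * (1 + |z.im|) ^ 4) *
            ‖F χ (1 - conj z) - D χ (1 - conj z)‖ ^ 2 := by
        rw [mul_pow]
        exact mul_le_mul_of_nonneg_right e8 (by positivity)
      have e11 := sq_nonneg (‖X χ z‖ * ‖F χ (1 - conj z) - D χ (1 - conj z)‖ - ‖D χ z‖)
      simp only [hD] at e9 e10 e11 ⊢
      nlinarith
    have h4 := Finset.sum_le_sum h3
    rw [Finset.sum_add_distrib, ← Finset.mul_sum, ← Finset.mul_sum, ← Finset.mul_sum] at h4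
    have h5 : (1 : ℝ) ≤ (1 + |z.im|) ^ 4 := one_le_pow₀ (by linarith [abs_nonneg z.im])
    have h6 : L ≤ L ^ 2 := by nlinarith
    calc ∑ χ ∈ Y, ‖G χ z‖ ^ 2 ≤ 2 * ((A ^ 2 * Real.exp 4 * r ^ 2 * (1 + |z.im|) ^ 4) *
          (2 * C₁ * L ^ 2)) + 2 * (2 * Real.exp 3 * C₁ * r ^ 2 * L) := by
          refine h4.trans (add_le_add ?_ ?_)
          · apply mul_le_mul_of_nonneg_left _ (by norm_num)
            exact mul_le_mul_of_nonneg_left h1 (by positivity)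
          · exact mul_le_mul_of_nonneg_left h2 (by norm_num)
      _ ≤ 2 * ((A ^ 2 * Real.exp 4 * r ^ 2 * (1 + |z.im|) ^ 4) *
          (2 * C₁ * L ^ 2)) + 2 * (2 * Real.exp 3 * C₁ * r ^ 2 * L ^ 2 * (1 + |z.im|) ^ 4) := by
          have h7 : 2 * Real.exp 3 * C₁ * r ^ 2 * L ≤ 2 * Real.exp 3 * C₁ * r ^ 2 * L ^ 2 := by
            gcongr
          have h8 : 2 * Real.exp 3 * C₁ * r ^ 2 * L ^ 2 ≤
              2 * Real.exp 3 * C₁ * r ^ 2 * L ^ 2 * (1 + |z.im|) ^ 4 :=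
            le_mul_of_one_le_right (by positivity) h5
          linarith
      _ = (4 * A ^ 2 * Real.exp 4 * C₁ + 4 * Real.exp 3 * C₁) * r ^ 2 * L ^ 2 *
            (1 + |z.im|) ^ 4 := by ring
      _ ≤ B * r ^ 2 * L ^ 2 * (1 + |z.im|) ^ 4 := by
          apply mul_le_mul_of_nonneg_right _ (by positivity)
          apply mul_le_mul_of_nonneg_right _ (by positivity)
          apply mul_le_mul_of_nonneg_right _ (by positivity)
          rw [hB]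
          have : 0 ≤ 4 * C₁ + 4 * A ^ 2 * Real.exp 3 * C₁ := by positivity
          linarith
      _ = _ := by
          rw [mul_pow, mul_pow, mul_pow, Real.sq_sqrt hB0]
          ring
  -- interpolation
  have hsr : s.re = 1 / 2 - 4 * η := by rw [hs, hη]; ring
  have h3 := three_two' Y G (l := -η) (u := 1 + η) (by linarith) (by linarith)
    (fun χ hχ z hz1 hz2 => by
      have e1 := (hF χ hχ).1.diff z
      have e2 := Dp_diff χ hT lam z
      have e3 := (hXX χ hχ).1 z (by linarith)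
      have e4 := Dp_conj_diff χ (Icc 1 r) hT lam z
      exact (e1.sub e2).sub (e3.mul e4))
    (fun χ hχ => by
      obtain ⟨C, A', hCA⟩ := F_grow hN1 hr1 (hF χ hχ).1
      obtain ⟨C₂, hC₂0, hC₂⟩ := Dp_grow χ (Icc 1 r) hT lam (-(1 / 4))
      obtain ⟨K, hK⟩ := (isCompact_Icc (a := (-(1 / 4) : ℝ)) (b := 5 / 4)).exists_bound_of_continuousOn
        (f := fun x : ℝ => (r : ℝ) ^ (1 - 2 * x)) (by
          apply Continuous.continuousOn
          exact Continuous.rpow continuous_const (by fun_prop) (fun _ => Or.inl hr0.ne'))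
      refine ⟨|C| + C₂ + A * |K| * 2 * C₂ * 4, |A'| + 2, fun z hz1 hz2 => ?_⟩
      have e1 := hCA z (by linarith) (by linarith)
      have e2 := hC₂ z (by linarith)
      have e3 := (hXX χ hχ).2.2 z (by linarith) (by linarith)
      have e4 := hC₂ (1 - conj z) (by rw [hre]; linarith)
      have e5 : (r : ℝ) ^ (1 - 2 * z.re) ≤ |K| :=
        (le_abs_self _).trans ((hK z.re ⟨by linarith, by linarith⟩).trans (le_abs_self _))
      have hz0 := abs_nonneg z.im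
      have e6 : (1 + |z.im|) ^ 2 ≤ 2 * Real.exp (2 * |z.im|) := by
        have := Real.add_one_le_exp |z.im|
        have h7 : (1 + |z.im|) ^ 2 ≤ Real.exp |z.im| ^ 2 :=
          pow_le_pow_left₀ (by positivity) (by linarith) 2
        rw [← Real.exp_nat_mul] at h7
        push_cast at h7
        linarith [Real.exp_pos (2 * |z.im|)]
      have e7 : Real.exp (A' * |z.im|) ≤ Real.exp ((|A'| + 2) * |z.im|) := by
        apply Real.exp_le_exp.mpr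
        apply mul_le_mul_of_nonneg_right _ hz0
        linarith [le_abs_self A']
      have e8 : Real.exp (2 * |z.im|) ≤ Real.exp ((|A'| + 2) * |z.im|) := by
        apply Real.exp_le_exp.mpr
        apply mul_le_mul_of_nonneg_right _ hz0
        linarith [abs_nonneg A']
      have e9 : 1 ≤ Real.exp ((|A'| + 2) * |z.im|) := Real.one_le_exp (by positivity)
      have e10 : ‖F χ z‖ ≤ |C| * Real.exp ((|A'| + 2) * |z.im|) := by
        refine e1.trans ?_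
        calc C * Real.exp (A' * |z.im|) ≤ |C| * Real.exp (A' * |z.im|) :=
              mul_le_mul_of_nonneg_right (le_abs_self _) (Real.exp_pos _).le
          _ ≤ _ := mul_le_mul_of_nonneg_left e7 (abs_nonneg _)
      have e11 : ‖D χ z‖ ≤ C₂ * Real.exp ((|A'| + 2) * |z.im|) :=
        e2.trans (le_mul_of_one_le_right hC₂0 e9)
      have e12 : ‖X χ z * conj (D χ (1 - conj z))‖ ≤ (A * |K| * 2 * C₂ * 4) *
          Real.exp ((|A'| + 2) * |z.im|) := by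
        rw [norm_mul, RCLike.norm_conj]
        calc ‖X χ z‖ * ‖D χ (1 - conj z)‖ ≤ (A * |K| * (2 * Real.exp (2 * |z.im|))) * C₂ := by
              apply mul_le_mul _ e4 (norm_nonneg _) (by positivity)
              exact e3.trans (by gcongr)
          _ ≤ (A * |K| * (2 * Real.exp ((|A'| + 2) * |z.im|))) * C₂ := by gcongr
          _ ≤ _ := by
              have : 0 ≤ A * |K| * C₂ * Real.exp ((|A'| + 2) * |z.im|) := by positivity
              nlinarith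
      calc ‖G χ z‖ ≤ ‖F χ z‖ + ‖D χ z‖ + ‖X χ z * conj (D χ (1 - conj z))‖ := by
            refine (norm_sub_le _ _).trans ?_
            have := norm_sub_le (F χ z) (D χ z)
            linarith
        _ ≤ _ := by linarith)
    2 (P := Real.sqrt B * r * L) (Q := Real.sqrt B * L) (by positivity) (by positivity) hleft hright s
    (by rw [hsr]; linarith) (by rw [hsr]; linarith)
  -- simplification
  set θ : ℝ := (s.re - -η) / (1 + η - -η) with hθ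
  have hθ1 : 1 - θ ≤ 1 / 2 + 5 * η := by
    have h0 : 0 < 1 + η - -η := by linarith
    rw [hθ, hsr]
    have : 1 - (1 / 2 - 4 * η - -η) / (1 + η - -η) = (1 / 2 + 5 * η) / (1 + 2 * η) := by
      field_simp
      ring
    rw [this, div_le_iff₀ (by linarith)]
    nlinarith
  have hPQ : (Real.sqrt B * r * L) ^ (1 - θ) * (Real.sqrt B * L) ^ θ ≤
      Real.sqrt B * L * (Real.exp 5 * Real.sqrt r) := by
    rcases (Real.sqrt_nonneg B).eq_or_lt with h0 | h0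
    · rw [← h0, zero_mul, zero_mul, zero_mul]
      have h01 : 1 - θ ≠ 0 := by
        have h0' : 0 < 1 + η - -η := by linarith
        rw [hθ, hsr]
        have : 1 - (1 / 2 - 4 * η - -η) / (1 + η - -η) = (1 / 2 + 5 * η) / (1 + 2 * η) := by
          field_simp
          ring
        rw [this]
        positivity
      rw [Real.zero_rpow h01, zero_mul]
    · have h1 : Real.sqrt B * r * L = (Real.sqrt B * L) * r := by ring
      have h2 : 0 < Real.sqrt B * L := by positivity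
      rw [h1, Real.mul_rpow h2.le hr0.le, mul_right_comm, ← Real.rpow_add h2]
      rw [sub_add_cancel, Real.rpow_one]
      apply mul_le_mul_of_nonneg_left _ h2.le
      calc (r : ℝ) ^ (1 - θ) ≤ (r : ℝ) ^ (5 * η + 1 / 2) :=
            Real.rpow_le_rpow_of_exponent_le hr1 (by linarith)
        _ = (r : ℝ) ^ (5 * η) * Real.sqrt r := by rw [Real.rpow_add hr0, Real.sqrt_eq_rpow]
        _ ≤ _ := mul_le_mul_of_nonneg_right (hpow 5 (by norm_num)) (Real.sqrt_nonneg _)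
  have hG2 : ∑ χ ∈ Y, ‖G χ s‖ ^ 2 ≤ Km 2 ^ 2 * B * Real.exp 10 * r * L ^ 2 * (1 + |s.im|) ^ 4 := by
    refine h3.trans ?_
    have e1 : (Km 2 * ((Real.sqrt B * r * L) ^ (1 - θ) * (Real.sqrt B * L) ^ θ) * (1 + |s.im|) ^ 2) ^ 2 ≤
        (Km 2 * (Real.sqrt B * L * (Real.exp 5 * Real.sqrt r)) * (1 + |s.im|) ^ 2) ^ 2 := by
      have := Km_pos 2
      apply pow_le_pow_left₀ (by positivity)
      gcongr
    refine e1.trans (le_of_eq ?_)
    rw [mul_pow, mul_pow, mul_pow, mul_pow, mul_pow, Real.sq_sqrt hB0, Real.sq_sqrt hr0.le,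
      ← Real.exp_nat_mul]
    norm_num
    ring
  -- the polynomials at `s`
  have hD2 : ∑ χ ∈ Y, ‖D χ s‖ ^ 2 ≤ 2 * Real.exp 9 * C₁ * r * L := by
    have e1 := Dp_sum_sq (r := r) hrs (by linarith : (1 : ℝ) ≤ L) hC₁ (θ := 9 * η)
      (by positivity) (z := s) (by rw [hsr]; linarith)
    calc _ ≤ 2 * r * ((r : ℝ) ^ (9 * η) * (C₁ * L)) := (hDY s).trans e1
      _ ≤ 2 * r * (Real.exp 9 * (C₁ * L)) := by
          have := hpow 9 (by norm_num)
          gcongr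
      _ = _ := by ring
  have hD3 : ∑ χ ∈ Y, ‖X χ s * conj (D χ (1 - conj s))‖ ^ 2 ≤
      2 * A ^ 2 * Real.exp 16 * C₁ * r * L * (1 + |s.im|) ^ 4 := by
    have e1 : ∀ χ ∈ Y, ‖X χ s * conj (D χ (1 - conj s))‖ ^ 2 ≤
        (A ^ 2 * Real.exp 16 * (1 + |s.im|) ^ 4) * ‖D χ (1 - conj s)‖ ^ 2 := by
      intro χ hχ
      rw [norm_mul, RCLike.norm_conj, mul_pow]
      apply mul_le_mul_of_nonneg_right _ (by positivity)
      have e2 := (hXX χ hχ).2.2 s (by rw [hsr]; linarith) (by rw [hsr]; linarith)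
      have e3 : (r : ℝ) ^ (1 - 2 * s.re) ≤ Real.exp 8 := by
        rw [hsr, show 1 - 2 * (1 / 2 - 4 * η) = 8 * η by ring]
        exact hpow 8 (by norm_num)
      have e4 : ‖X χ s‖ ≤ A * Real.exp 8 * (1 + |s.im|) ^ 2 := e2.trans (by gcongr)
      refine (pow_le_pow_left₀ (norm_nonneg _) e4 2).trans (le_of_eq ?_)
      have : Real.exp 16 = Real.exp 8 ^ 2 := by rw [← Real.exp_nat_mul]; norm_num
      rw [this]; ring
    refine (Finset.sum_le_sum e1).trans ?_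
    rw [← Finset.mul_sum]
    have e5 := Dp_sum_sq (r := r) hrs (by linarith : (1 : ℝ) ≤ L) hC₁ (θ := 0)
      le_rfl (z := 1 - conj s) (by rw [hre, hsr]; linarith)
    rw [Real.rpow_zero, one_mul] at e5
    calc _ ≤ (A ^ 2 * Real.exp 16 * (1 + |s.im|) ^ 4) * (2 * r * (C₁ * L)) := by
          apply mul_le_mul_of_nonneg_left _ (by positivity)
          exact (hDY _).trans e5
      _ = _ := by ring
  have hfin : ∀ χ ∈ Y, ‖F χ s‖ ^ 2 ≤ 3 * (‖G χ s‖ ^ 2 + ‖D χ s‖ ^ 2 +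
      ‖X χ s * conj (D χ (1 - conj s))‖ ^ 2) := by
    intro χ _
    have e1 : F χ s = G χ s + D χ s + X χ s * conj (D χ (1 - conj s)) := by
      rw [hG]; simp only; ring
    have e2 : ‖F χ s‖ ≤ ‖G χ s‖ + ‖D χ s‖ + ‖X χ s * conj (D χ (1 - conj s))‖ := by
      rw [e1]
      exact (norm_add_le _ _).trans (add_le_add_left (norm_add_le _ _) _)
    have e3 := pow_le_pow_left₀ (norm_nonneg _) e2 2
    nlinarith [sq_nonneg (‖G χ s‖ - ‖D χ s‖),
      sq_nonneg (‖G χ s‖ - ‖X χ s * conj (D χ (1 - conj s))‖),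
      sq_nonneg (‖D χ s‖ - ‖X χ s * conj (D χ (1 - conj s))‖)]
  have h6 := Finset.sum_le_sum hfin
  rw [← Finset.mul_sum, Finset.sum_add_distrib, Finset.sum_add_distrib] at h6
  have h7 : (1 : ℝ) ≤ (1 + |s.im|) ^ 4 := one_le_pow₀ (by linarith [abs_nonneg s.im])
  have h8 : L ≤ L ^ 2 := by nlinarith
  calc ∑ χ ∈ Y, ‖F χ s‖ ^ 2 ≤ 3 * (Km 2 ^ 2 * B * Real.exp 10 * r * L ^ 2 * (1 + |s.im|) ^ 4 +
        2 * Real.exp 9 * C₁ * r * L + 2 * A ^ 2 * Real.exp 16 * C₁ * r * L * (1 + |s.im|) ^ 4) := by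
        refine h6.trans ?_
        apply mul_le_mul_of_nonneg_left _ (by norm_num)
        linarith
    _ ≤ 3 * (Km 2 ^ 2 * B * Real.exp 10 * r * L ^ 2 * (1 + |s.im|) ^ 4 +
        2 * Real.exp 9 * C₁ * r * L ^ 2 * (1 + |s.im|) ^ 4 +
        2 * A ^ 2 * Real.exp 16 * C₁ * r * L ^ 2 * (1 + |s.im|) ^ 4) := by
        have e1 : 2 * Real.exp 9 * C₁ * r * L ≤ 2 * Real.exp 9 * C₁ * r * L ^ 2 * (1 + |s.im|) ^ 4 := by
          calc 2 * Real.exp 9 * C₁ * r * L ≤ 2 * Real.exp 9 * C₁ * r * L ^ 2 := by gcongr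
            _ ≤ _ := le_mul_of_one_le_right (by positivity) h7
        have e2 : 2 * A ^ 2 * Real.exp 16 * C₁ * r * L * (1 + |s.im|) ^ 4 ≤
            2 * A ^ 2 * Real.exp 16 * C₁ * r * L ^ 2 * (1 + |s.im|) ^ 4 := by gcongr
        linarith
    _ = (3 * (Km 2 ^ 2 * B * Real.exp 10 + 2 * Real.exp 9 * C₁ +
        2 * A ^ 2 * Real.exp 16 * C₁)) * r * L ^ 2 * (1 + |s.im|) ^ 4 := by ring
    _ ≤ _ := by
        gcongr
        exact le_max_right _ _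

end

end Pool.Agent.H13.TD
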