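import Pool.Agent.Helper13.TD.Div
import Pool.Graph.R_seed8.W388.TW.D0

/-!
# The coefficients of the twists and their inverses (helper13)
-/

set_option autoImplicit false

open Finset

namespace Pool.Agent.H13.TD

open ArithmeticFunction (IsMultiplicative)

/-- the multiplicative function with the values `g p k` at the prime powers -/
noncomputable def mulf (g : ℕ → ℕ → ℝ) : ArithmeticFunction ℝ :=
  ⟨fun n => if n = 0 then 0 else n.factorization.prod g, by simp⟩

lemma mulf_apply (g : ℕ → ℕ → ℝ) {n : ℕ} (hn : n ≠ 0) : mulf g n = n.factorization.prod g := by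
  show (if n = 0 then 0 else n.factorization.prod g) = _
  rw [if_neg hn]

lemma mulf_mult (g : ℕ → ℕ → ℝ) : (mulf g).IsMultiplicative := by
  rw [IsMultiplicative.iff_ne_zero]
  refine ⟨by rw [mulf_apply g one_ne_zero]; simp, fun {m n} hm hn hmn => ?_⟩
  rw [mulf_apply g hm, mulf_apply g hn, mulf_apply g (mul_ne_zero hm hn),
    Nat.factorization_mul_of_coprime hmn, Finsupp.prod_add_index_of_disjoint]
  rw [Nat.support_factorization, Nat.support_factorization]
  exact hmn.disjoint_primeFactors

lemma mulf_pp (g : ℕ → ℕ → ℝ) (hg : ∀ p, g p 0 = 1) {p : ℕ} (hp : p.Prime) (k : ℕ) :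
    mulf g (p ^ k) = g p k := by
  rw [mulf_apply g (pow_ne_zero k hp.ne_zero), hp.factorization_pow]
  rw [Finsupp.prod_single_index (hg p)]

/-- bounded by the number of divisors -/
lemma mulf_le (g : ℕ → ℕ → ℝ) (hg : ∀ p k, p.Prime → |g p k| ≤ k + 1) (n : ℕ) :
    |mulf g n| ≤ dd n := by
  rcases Nat.eq_zero_or_pos n with rfl | hn
  · simp [dd]
  rw [mulf_apply g hn.ne']
  unfold dd
  rw [Nat.card_divisors hn.ne', Finsupp.prod, Finset.abs_prod, Nat.support_factorization]
  push_cast
  refine Finset.prod_le_prod (fun _ _ => abs_nonneg _) fun p hp => ?_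
  exact hg p _ (Nat.prime_of_mem_primeFactors hp)

/-- convolution at prime powers, if the first function vanishes at the cubes -/
lemma conv_pp (f h : ArithmeticFunction ℝ) {p : ℕ} (hp : p.Prime)
    (hf : ∀ j, 3 ≤ j → f (p ^ j) = 0) (k : ℕ) :
    (f * h) (p ^ (k + 2)) = f 1 * h (p ^ (k + 2)) + f p * h (p ^ (k + 1)) + f (p ^ 2) * h (p ^ k) := by
  rw [ArithmeticFunction.mul_apply, Nat.sum_divisorsAntidiagonal (f := fun a b => f a * h b),
    Nat.sum_divisors_prime_pow hp]
  have h1 : ∀ j ∈ range (k + 2 + 1), f (p ^ j) * h (p ^ (k + 2) / p ^ j) =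
      f (p ^ j) * h (p ^ (k + 2 - j)) := by
    intro j hj
    rw [Finset.mem_range] at hj
    rw [Nat.pow_div (by omega) hp.pos]
  rw [Finset.sum_congr rfl h1]
  have h2 : ∑ j ∈ range (k + 2 + 1), f (p ^ j) * h (p ^ (k + 2 - j)) =
      ∑ j ∈ range 3, f (p ^ j) * h (p ^ (k + 2 - j)) := by
    symm
    apply Finset.sum_subset
    · intro j hj
      rw [Finset.mem_range] at hj ⊢
      omega
    · intro j _ hj
      rw [Finset.mem_range] at hj
      rw [hf j (by omega), zero_mul]
  rw [h2]
  simp only [Finset.sum_range_succ, Finset.sum_range_zero, zero_add, pow_zero, pow_one]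
  congr 2

lemma conv_p (f h : ArithmeticFunction ℝ) {p : ℕ} (hp : p.Prime) :
    (f * h) (p ^ 1) = f 1 * h p + f p * h 1 := by
  rw [ArithmeticFunction.mul_apply, Nat.sum_divisorsAntidiagonal (f := fun a b => f a * h b),
    Nat.sum_divisors_prime_pow hp]
  simp only [Finset.sum_range_succ, Finset.sum_range_zero, zero_add, pow_zero, pow_one,
    Nat.div_one]
  rw [Nat.div_self hp.pos]

section

variable (N : ℕ) (lam : ℕ → ℝ) (s0 : ℕ)

/-- `λ` as an arithmetic function -/
noncomputable def lamA (hlam : W388.HeckeSeq N lam) : ArithmeticFunction ℝ := ⟨lam, hlam.zero⟩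

/-- the inverse local factor -/
noncomputable def gi (p k : ℕ) : ℝ :=
  if k = 0 then 1 else if k = 1 then -lam p else if k = 2 then (if p ∣ N then 0 else 1) else 0

/-- the inverse of `λ`, part of the primes dividing `s0` -/
noncomputable def nu : ArithmeticFunction ℝ :=
  mulf fun p k => if k = 0 then 1 else if p ∣ s0 then gi N lam p k else 0

/-- the inverse of `λ`, part of the primes not dividing `s0` -/
noncomputable def mu : ArithmeticFunction ℝ :=
  mulf fun p k => if k = 0 then 1 else if p ∣ s0 then 0 else gi N lam p k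

/-- `λ`, restricted to the integers prime to `s0` -/
noncomputable def ls : ArithmeticFunction ℝ :=
  mulf fun p k => if k = 0 then 1 else if p ∣ s0 then 0 else lam (p ^ k)

variable {N lam s0}

lemma lamA_mult (hlam : W388.HeckeSeq N lam) : (lamA N lam hlam).IsMultiplicative :=
  ⟨hlam.one, fun {m n} h => hlam.mul m n h⟩

lemma nu_mult : (nu N lam s0).IsMultiplicative := mulf_mult _
lemma mu_mult : (mu N lam s0).IsMultiplicative := mulf_mult _
lemma ls_mult : (ls lam s0).IsMultiplicative := mulf_mult _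

lemma gi_zero (p : ℕ) : gi N lam p 0 = 1 := by simp [gi]

lemma hecke_zero (hlam : W388.HeckeSeq N lam) {p : ℕ} (hp : p.Prime) (k : ℕ) :
    gi N lam p 0 * lam (p ^ (k + 2)) + gi N lam p 1 * lam (p ^ (k + 1)) +
      gi N lam p 2 * lam (p ^ k) = 0 := by
  rw [hlam.pow p k hp]
  unfold gi
  simp only [if_true, one_ne_zero, if_false, OfNat.ofNat_ne_zero, OfNat.ofNat_ne_one]
  split_ifs <;> ring

/-- **`λ * ν` is `λ` restricted to the integers prime to `s0`** -/
theorem nu_mul (hlam : W388.HeckeSeq N lam) : nu N lam s0 * lamA N lam hlam = ls lam s0 := by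
  have hpp : ∀ (p k : ℕ), p.Prime → nu N lam s0 (p ^ k) =
      if k = 0 then 1 else if p ∣ s0 then gi N lam p k else 0 := fun p k hp =>
    mulf_pp _ (fun _ => by simp) hp k
  have hls : ∀ (p k : ℕ), p.Prime → ls lam s0 (p ^ k) =
      if k = 0 then 1 else if p ∣ s0 then 0 else lam (p ^ k) := fun p k hp =>
    mulf_pp _ (fun _ => by simp) hp k
  have hl : ∀ n, lamA N lam hlam n = lam n := fun _ => rfl
  rw [IsMultiplicative.eq_iff_eq_on_prime_powers _ (nu_mult.mul (lamA_mult hlam)) _ ls_mult]
  intro p k hp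
  have h1 : nu N lam s0 1 = 1 := nu_mult.1
  have hp1 := hpp p 1 hp
  rw [pow_one] at hp1
  rw [hls p k hp]
  match k with
  | 0 =>
    rw [pow_zero, (nu_mult.mul (lamA_mult hlam)).1]
    simp
  | 1 =>
    rw [conv_p _ _ hp, h1, hl, hl, hlam.one, hp1, pow_one]
    simp only [one_ne_zero, if_false]
    split_ifs with h2
    · simp [gi]
    · simp
  | k + 2 =>
    rw [conv_pp _ _ hp (fun j hj => by
      rw [hpp p j hp]
      have hj0 : j ≠ 0 := by omega
      have hj1 : j ≠ 1 := by omega
      have hj2 : j ≠ 2 := by omega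
      simp [hj0, gi, hj1, hj2]), h1, hl, hl, hl, hpp p 2 hp, hp1]
    have hk : k + 2 ≠ 0 := by omega
    simp only [one_ne_zero, if_false, OfNat.ofNat_ne_zero, hk]
    split_ifs with h2
    · have := hecke_zero hlam hp k
      rw [gi_zero] at this
      exact this
    · simp

/-- **`μ` is the inverse of the restricted `λ`** -/
theorem mu_mul (hlam : W388.HeckeSeq N lam) : mu N lam s0 * ls lam s0 = 1 := by
  have hpp : ∀ (p k : ℕ), p.Prime → mu N lam s0 (p ^ k) =
      if k = 0 then 1 else if p ∣ s0 then 0 else gi N lam p k := fun p k hp =>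
    mulf_pp _ (fun _ => by simp) hp k
  have hls : ∀ (p k : ℕ), p.Prime → ls lam s0 (p ^ k) =
      if k = 0 then 1 else if p ∣ s0 then 0 else lam (p ^ k) := fun p k hp =>
    mulf_pp _ (fun _ => by simp) hp k
  rw [IsMultiplicative.eq_iff_eq_on_prime_powers _ (mu_mult.mul ls_mult) _
    ArithmeticFunction.isMultiplicative_one]
  intro p k hp
  have h1 : mu N lam s0 1 = 1 := mu_mult.1
  have h1' : ls lam s0 1 = 1 := ls_mult.1
  have hp1 := hpp p 1 hp
  rw [pow_one] at hp1
  have hp1' := hls p 1 hp
  rw [pow_one] at hp1'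
  match k with
  | 0 =>
    rw [pow_zero, (mu_mult.mul ls_mult).1, ArithmeticFunction.one_one]
  | 1 =>
    rw [conv_p _ _ hp, h1, h1', hp1, hp1', pow_one,
      ArithmeticFunction.one_apply_ne hp.ne_one]
    simp only [one_ne_zero, if_false]
    split_ifs with h2
    · simp
    · simp [gi]
  | k + 2 =>
    rw [conv_pp _ _ hp (fun j hj => by
      rw [hpp p j hp]
      have hj0 : j ≠ 0 := by omega
      have hj1 : j ≠ 1 := by omega
      have hj2 : j ≠ 2 := by omega
      simp [hj0, gi, hj1, hj2]), h1, hpp p 2 hp, hp1, hls p (k + 2) hp, hls p (k + 1) hp,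
      hls p k hp, ArithmeticFunction.one_apply_ne (by
        intro h
        have := (Nat.pow_eq_one.mp h)
        rcases this with h | h
        · exact hp.ne_one h
        · omega)]
    have hk : k + 2 ≠ 0 := by omega
    have hk1 : k + 1 ≠ 0 := by omega
    simp only [one_ne_zero, if_false, OfNat.ofNat_ne_zero, hk, hk1]
    split_ifs with h2 h3 h3
    · simp
    · simp
    · have := hecke_zero hlam hp k
      rw [gi_zero, h3, pow_zero, hlam.one] at this
      rw [h3]
      linarith
    · have := hecke_zero hlam hp k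
      rw [gi_zero] at this
      exact this

end

end Pool.Agent.H13.TD
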