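import Pool.Agent.Helper13.TD.Dens
import Pool.Graph.R_seed8.W165.CE.Pack
import Pool.Graph.R_seed8.W165.CE.Euler

/-!
# The twists of the newform of an elliptic curve (helper13)
-/

set_option autoImplicit false
set_option maxHeartbeats 4000000

open Complex Filter Topology UpperHalfPlane MatrixGroups CongruenceSubgroup

namespace Pool.Agent.H13.TD

open W388

/-- everything about the twists of a newform -/
theorem pack {N : ℕ} [NeZero N] {f : CuspForm (Gamma0 N : Subgroup (GL (Fin 2) ℝ)) 2} {ε : ℝ}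
    (hf : IsNewf N 2 f ε) :
    ∃ (A : ℝ) (F : (q : ℕ) → DirichletCharacter ℂ q → ℂ → ℂ), 1 ≤ A ∧
      ∀ (q : ℕ) (χ : DirichletCharacter ℂ q), 1 ≤ q → Nat.Coprime q N → χ.IsPrimitive →
        IsL N (lamf f) χ (F q χ) ∧ (∀ s : ℂ, 1 < s.re →
          HasProd (fun p : Nat.Primes =>
            (1 - χ ((p : ℕ) : ZMod q) * (lamf f p : ℂ) * ((p : ℕ) : ℂ) ^ (-s) +
              (if (p : ℕ) ∣ N then 0 else
                χ ((p : ℕ) : ZMod q) ^ 2 * ((p : ℕ) : ℂ) ^ (-2 * s)))⁻¹) (F q χ s)) ∧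
        ∃ a : ℕ → ℂ, GoodE 2 A q (F q χ) a := by
  obtain ⟨A, F, hA, h1, h2, h3⟩ := W165.CE.newf_twists1 Pool.Agent.W440.TW.t_twist
    Pool.Agent.W108.TW.t_mellin Pool.Agent.W820.TW.t_fe p_dir p_nzr p_rs p_sel (k := 2)
    (by norm_num) hf
  refine ⟨A, F, hA, fun q χ hq hqN hχ => ?_⟩
  obtain ⟨e1, e2⟩ := h3 q χ hq hqN hχ
  refine ⟨?_, e2, _, h1 q χ hq hqN hχ⟩
  haveI : NeZero q := ⟨by omega⟩
  have hN : 0 < N := Nat.pos_of_ne_zero (NeZero.ne N)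
  have hH := heckeSeq_lamf hf
  have hR := p_rs N 2 (by norm_num) f ε hf
  obtain ⟨A1, hA1, d1, d2, d3⟩ := p_dir N hN (lamf f) hH hR
  have hsum : ∀ (q : ℕ) [NeZero q] (χ : DirichletCharacter ℂ q) (s : ℂ), 1 < s.re →
      Summable (fun n : ℕ => ‖χ (n : ZMod q) * (lamf f n : ℂ) * (n : ℂ) ^ (-s)‖) := by
    intro q _ χ s hs
    exact (d3 q χ (fun s => ∑' n : ℕ, χ (n : ZMod q) * (lamf f n : ℂ) * (n : ℂ) ^ (-s))
      (fun _ _ => rfl)).1 s hs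
  obtain ⟨G, hG1, hG2⟩ := exists_twist Pool.Agent.W440.TW.t_twist Pool.Agent.W108.TW.t_mellin
    (k := 2) (by norm_num) hf hsum q χ hχ hqN
  have hprod := (d3 q χ G hG2).2.2.2.2.2
  have hFG : F q χ = G := by
    have g1 : AnalyticOnNhd ℂ (F q χ) Set.univ := fun z _ => e1.analyticAt z
    have g2 : AnalyticOnNhd ℂ G Set.univ := fun z _ => hG1.diff.analyticAt z
    have g3 : F q χ =ᶠ[𝓝 (2 : ℂ)] G := by
      have : {z : ℂ | 1 < z.re} ∈ 𝓝 (2 : ℂ) :=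
        (isOpen_lt continuous_const Complex.continuous_re).mem_nhds (by simp)
      filter_upwards [this] with z hz
      exact (e2 z hz).unique (hprod z hz)
    exact g1.eq_of_eventuallyEq g2 g3
  rw [hFG]
  exact ⟨hG1, hG2⟩

/-- the bound of Rankin and Selberg -/
theorem rsb {N : ℕ} [NeZero N] {f : CuspForm (Gamma0 N : Subgroup (GL (Fin 2) ℝ)) 2} {ε : ℝ}
    (hf : IsNewf N 2 f ε) : ∃ C₁ : ℝ, 0 < C₁ ∧ RSB (lamf f) C₁ :=
  rs_bound (p_rs N 2 (by norm_num) f ε hf)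

/-- the bound of Hasse -/
theorem ram {N : ℕ} [NeZero N] {f : CuspForm (Gamma0 N : Subgroup (GL (Fin 2) ℝ)) 2} {a b : ℤ}
    (H : ∀ p : ℕ, p.Prime → ¬ (p : ℤ) ∣ 2 * (4 * a ^ 3 + 27 * b ^ 2) →
      ¬ p ∣ N ∧ (qExpansion 1 f).coeff p = ((W165.CE.ap0 a b p : ℤ) : ℂ)) :
    Ram N (lamf f) (2 * (4 * a ^ 3 + 27 * b ^ 2)).natAbs := by
  classical
  intro p hp hps
  have h1 : ¬ (p : ℤ) ∣ 2 * (4 * a ^ 3 + 27 * b ^ 2) := fun h => hps (Int.natCast_dvd.mp h)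
  obtain ⟨h2, h3⟩ := H p hp h1
  refine ⟨h2, ?_⟩
  have hp2 : p ≠ 2 := by
    intro h; apply h1; rw [h]; exact dvd_mul_right 2 _
  have : Fact p.Prime := ⟨hp⟩
  have hring : ringChar (ZMod p) ≠ 2 := by rw [ZMod.ringChar_zmod_n]; exact hp2
  have h4 := W165.CE.hasse hring (a : ZMod p) (b : ZMod p)
  rw [ZMod.card] at h4
  have h5 : |((W165.CE.ap0 a b p : ℤ) : ℝ)| ≤ 2 * Real.sqrt p := by
    unfold W165.CE.ap0
    push_cast at h4 ⊢
    exact h4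
  have hp0 : (0 : ℝ) < p := by exact_mod_cast hp.pos
  have h6 : lamf f p = ((W165.CE.ap0 a b p : ℤ) : ℝ) / Real.sqrt p := by
    unfold lamf
    rw [h3]
    have : ((((2 : ℤ) : ℝ) - 1) / 2 : ℝ) = 1 / 2 := by norm_num
    rw [this, ← Real.sqrt_eq_rpow]
    simp
  have hs : 0 < Real.sqrt p := Real.sqrt_pos.mpr hp0
  rw [h6, abs_div, abs_of_pos hs, div_le_iff₀ hs]
  exact h5

end Pool.Agent.H13.TD
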