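import Pool.Agent.Helper13.TD.Bd
import Pool.Agent.Helper13.TD.LS

/-!
# The Dirichlet series (helper13)
-/

set_option autoImplicit false

open Finset Complex Filter Topology

namespace Pool.Agent.H13.TD

/-- the bound of Rankin and Selberg -/
theorem rs_bound {lam : ℕ → ℝ} (h : W388.RSLim lam) : ∃ C : ℝ, 0 < C ∧ ∀ σ : ℝ, 0 < σ → σ ≤ 1 →
    Summable (fun n : ℕ => lam n ^ 2 * (n : ℝ) ^ (-(1 + σ))) ∧
      ∑' n : ℕ, lam n ^ 2 * (n : ℝ) ^ (-(1 + σ)) ≤ C / σ := by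
  obtain ⟨hs, κ, hκ, hlim⟩ := h
  have h1 : ∀ᶠ σ in 𝓝[>] (0 : ℝ), σ * ∑' n : ℕ, lam n ^ 2 * (n : ℝ) ^ (-(1 + σ)) < κ + 1 :=
    hlim.eventually (gt_mem_nhds (by linarith))
  rw [eventually_nhdsWithin_iff, Metric.eventually_nhds_iff] at h1
  obtain ⟨ε, hε, h1⟩ := h1
  set e : ℝ := min (ε / 2) 1 with he
  have he0 : 0 < e := lt_min (by linarith) one_pos
  have he1 : e ≤ 1 := min_le_right _ _
  have h2 : ∀ σ : ℝ, 0 < σ → σ ≤ e → ∑' n : ℕ, lam n ^ 2 * (n : ℝ) ^ (-(1 + σ)) ≤ (κ + 1) / σ := by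
    intro σ hσ hσe
    have := h1 (y := σ) (by
      rw [Real.dist_eq, sub_zero, abs_of_pos hσ]
      have := min_le_left (ε / 2) 1
      linarith) hσ
    rw [le_div_iff₀ hσ, mul_comm]
    exact this.le
  refine ⟨(κ + 1) / e, by positivity, fun σ hσ hσ1 => ⟨hs σ hσ, ?_⟩⟩
  rcases le_total σ e with h3 | h3
  · refine (h2 σ hσ h3).trans ?_
    apply div_le_div_of_nonneg_right _ hσ.le
    rw [le_div_iff₀ he0]
    nlinarith
  · have h4 : ∑' n : ℕ, lam n ^ 2 * (n : ℝ) ^ (-(1 + σ)) ≤ ∑' n : ℕ, lam n ^ 2 * (n : ℝ) ^ (-(1 + e)) := by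
      refine (hs σ hσ).tsum_le_tsum (fun n => ?_) (hs e he0)
      apply mul_le_mul_of_nonneg_left _ (sq_nonneg _)
      rcases Nat.eq_zero_or_pos n with rfl | hn
      · rw [Nat.cast_zero, Real.zero_rpow (by linarith), Real.zero_rpow (by linarith)]
      · exact Real.rpow_le_rpow_of_exponent_le (by exact_mod_cast hn) (by linarith)
    refine h4.trans ((h2 e he0 le_rfl).trans ?_)
    rw [le_div_iff₀ hσ]
    have h5 : 0 < (κ + 1) / e := by positivity
    nlinarith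

/-- series with bounded partial sums -/
lemma sum_of_partial {f : ℕ → ℝ} (hf : ∀ n, 0 ≤ f n) (h0 : f 0 = 0) {B : ℝ}
    (h : ∀ Y : ℕ, ∑ n ∈ Icc 1 Y, f n ≤ B) : Summable f ∧ ∑' n, f n ≤ B := by
  have h1 : ∀ Y : ℕ, ∑ n ∈ range Y, f n ≤ B := by
    intro Y
    refine le_trans ?_ (h Y)
    apply le_of_eq_of_le (Finset.sum_subset (s₁ := (range Y).filter (fun n => n ≠ 0)) (s₂ := range Y)
      (Finset.filter_subset _ _) (fun n hn hn' => by
        rw [Finset.mem_filter, not_and, not_not] at hn'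
        rw [hn' hn, h0])).symm
    apply Finset.sum_le_sum_of_subset_of_nonneg _ (fun n _ _ => hf n)
    intro n hn
    rw [Finset.mem_filter, Finset.mem_range] at hn
    rw [Finset.mem_Icc]
    omega
  exact ⟨summable_of_sum_range_le hf h1, Real.tsum_le_of_sum_range_le hf h1⟩

section

variable {r : ℕ} [NeZero r] (χ : DirichletCharacter ℂ r)

/-- Dirichlet polynomials -/
noncomputable def Dp (T : Finset ℕ) (a : ℕ → ℝ) (z : ℂ) : ℂ :=
  ∑ n ∈ T, (a n : ℂ) * χ (n : ZMod r) * (n : ℂ) ^ (-z)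

lemma Dp_diff {T : Finset ℕ} (hT : 0 ∉ T) (a : ℕ → ℝ) : Differentiable ℂ (Dp χ T a) := by
  unfold Dp
  refine Differentiable.fun_sum fun n hn => ?_
  have h0 : (n : ℂ) ≠ 0 := by
    have : n ≠ 0 := by rintro rfl; exact hT hn
    exact_mod_cast this
  intro z
  exact ((differentiableAt_id.neg).const_cpow (Or.inl h0)).const_mul _

lemma norm_Dp_le {T : Finset ℕ} (hT : 0 ∉ T) (a : ℕ → ℝ) {z : ℂ} {x : ℝ} (hx : x ≤ z.re) :
    ‖Dp χ T a z‖ ≤ ∑ n ∈ T, |a n| * (n : ℝ) ^ (-x) := by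
  unfold Dp
  refine (norm_sum_le _ _).trans (Finset.sum_le_sum fun n hn => ?_)
  have hn0 : n ≠ 0 := by rintro rfl; exact hT hn
  have hn1 : (1 : ℝ) ≤ n := by exact_mod_cast Nat.one_le_iff_ne_zero.mpr hn0
  rw [norm_mul, norm_mul, Complex.norm_real, Real.norm_eq_abs,
    Complex.norm_natCast_cpow_of_pos (Nat.pos_of_ne_zero hn0)]
  have h1 := χ.norm_le_one (n : ZMod r)
  have h2 : (n : ℝ) ^ (-z).re ≤ (n : ℝ) ^ (-x) :=
    Real.rpow_le_rpow_of_exponent_le hn1 (by simp only [Complex.neg_re]; linarith)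
  calc |a n| * ‖χ (n : ZMod r)‖ * (n : ℝ) ^ (-z).re ≤ |a n| * 1 * (n : ℝ) ^ (-x) := by gcongr
    _ = _ := by ring

lemma term_eq (f : ℕ → ℂ) {s : ℂ} (hs : s ≠ 0) (n : ℕ) : LSeries.term f s n = f n * (n : ℂ) ^ (-s) := by
  rcases eq_or_ne n 0 with rfl | hn
  · rw [LSeries.term_zero, Nat.cast_zero, Complex.zero_cpow (neg_ne_zero.mpr hs), mul_zero]
  · rw [LSeries.term_of_ne_zero hn, Complex.cpow_neg, div_eq_mul_inv]

lemma LSeries_fin (a : ℕ → ℝ) {T : Finset ℕ} (hT : ∀ n, n ∉ T → a n = 0) {s : ℂ} (hs : s ≠ 0) :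
    LSeriesSummable (((fun n : ℕ => χ (n : ZMod r)) : ℕ → ℂ) * fun n => (a n : ℂ)) s ∧
    LSeries (((fun n : ℕ => χ (n : ZMod r)) : ℕ → ℂ) * fun n => (a n : ℂ)) s = Dp χ T a s := by
  have h1 : ∀ n, LSeries.term (((fun n : ℕ => χ (n : ZMod r)) : ℕ → ℂ) * fun n => (a n : ℂ)) s n =
      (a n : ℂ) * χ (n : ZMod r) * (n : ℂ) ^ (-s) := by
    intro n
    rw [term_eq _ hs, Pi.mul_apply]
    ring
  have h2 : ∀ n, n ∉ T → LSeries.term (((fun n : ℕ => χ (n : ZMod r)) : ℕ → ℂ) *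
      fun n => (a n : ℂ)) s n = 0 := by
    intro n hn
    rw [h1, hT n hn]
    simp
  refine ⟨summable_of_ne_finset_zero h2, ?_⟩
  unfold LSeries Dp
  rw [tsum_eq_sum h2]
  exact Finset.sum_congr rfl fun n _ => h1 n

/-- **the mollified series** -/
theorem ser_prod {N : ℕ} {lam : ℕ → ℝ} {s0 : ℕ} (hlam : W388.HeckeSeq N lam) (hs0 : s0 ≠ 0)
    (X : ℕ) {s : ℂ} (hs : 1 < s.re)
    (hsum : Summable (fun n : ℕ => ‖χ (n : ZMod r) * (lam n : ℂ) * (n : ℂ) ^ (-s)‖)) :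
    (∑' n : ℕ, χ (n : ZMod r) * (lam n : ℂ) * (n : ℂ) ^ (-s)) *
      (Dp χ (s0 ^ 2).divisors (nu N lam s0) s * Dp χ (Icc 1 X) (mu N lam s0) s) =
    ∑' n : ℕ, (cX N lam s0 X n : ℂ) * χ (n : ZMod r) * (n : ℂ) ^ (-s) ∧
    Summable (fun n : ℕ => ‖(cX N lam s0 X n : ℂ) * χ (n : ZMod r) * (n : ℂ) ^ (-s)‖) := by
  have hs' : s ≠ 0 := by rintro rfl; simp at hs; linarith
  set X' : ℕ → ℂ := fun n : ℕ => χ (n : ZMod r) with hX'
  -- the three series
  have hl1 : LSeriesSummable (X' * fun n => (lam n : ℂ)) s := by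
    refine hsum.of_norm.congr fun n => ?_
    rw [term_eq _ hs', Pi.mul_apply]
  have hl2 : LSeries (X' * fun n => (lam n : ℂ)) s =
      ∑' n : ℕ, χ (n : ZMod r) * (lam n : ℂ) * (n : ℂ) ^ (-s) := by
    unfold LSeries
    refine tsum_congr fun n => ?_
    rw [term_eq _ hs', Pi.mul_apply]
  obtain ⟨hn1, hn2⟩ := LSeries_fin χ (nu N lam s0) (T := (s0 ^ 2).divisors) (fun n hn => by
    by_contra h
    exact hn (Nat.mem_divisors.mpr ⟨nu_supp hs0 h, pow_ne_zero 2 hs0⟩)) hs'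
  obtain ⟨hm1, hm2⟩ := LSeries_fin χ (muX N lam s0 X) (T := Icc 1 X) (fun n hn => by
    unfold muX
    split_ifs with h
    · have : n = 0 := by
        rw [Finset.mem_Icc] at hn
        omega
      rw [this]; simp
    · rfl) hs'
  have hm3 : Dp χ (Icc 1 X) (muX N lam s0 X) s = Dp χ (Icc 1 X) (mu N lam s0) s := by
    unfold Dp
    refine Finset.sum_congr rfl fun n hn => ?_
    unfold muX
    rw [if_pos (Finset.mem_Icc.mp hn).2]
  -- products
  have e1 : LSeries.convolution (X' * fun n => (lam n : ℂ)) (X' * fun n => (nu N lam s0 n : ℂ)) =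
      X' * fun n => (ls lam s0 n : ℂ) := by
    rw [χ.mul_convolution_distrib]
    congr 1
    ext n
    rw [LSeries.convolution_def]
    have := nu_mul (s0 := s0) hlam
    have h2 : (nu N lam s0 * lamA N lam hlam) n = ls lam s0 n := by rw [this]
    rw [mul_comm, ArithmeticFunction.mul_apply] at h2
    rw [← h2]
    push_cast
    rfl
  have e2 : LSeries.convolution (X' * fun n => (ls lam s0 n : ℂ)) (X' * fun n => (muX N lam s0 X n : ℂ)) =
      X' * fun n => (cX N lam s0 X n : ℂ) := by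
    rw [χ.mul_convolution_distrib]
    congr 1
    ext n
    rw [LSeries.convolution_def]
    unfold cX cv
    push_cast
    rw [Nat.sum_divisorsAntidiagonal' (f := fun a b => (ls lam s0 a : ℂ) * (muX N lam s0 X b : ℂ)),
      Nat.sum_divisorsAntidiagonal (f := fun a b => (muX N lam s0 X a : ℂ) * (ls lam s0 b : ℂ))]
    exact Finset.sum_congr rfl fun _ _ => mul_comm _ _
  have f1 := LSeries_convolution' hl1 hn1
  have f2 := hl1.convolution hn1
  rw [e1] at f1 f2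
  have f3 := LSeries_convolution' f2 hm1
  have f4 := f2.convolution hm1
  rw [e2] at f3 f4
  have h5 : ∀ n, LSeries.term (X' * fun n => (cX N lam s0 X n : ℂ)) s n =
      (cX N lam s0 X n : ℂ) * χ (n : ZMod r) * (n : ℂ) ^ (-s) := by
    intro n
    rw [term_eq _ hs', Pi.mul_apply]
    ring
  refine ⟨?_, ?_⟩
  · rw [← hl2, ← hn2, ← hm3, ← hm2, ← mul_assoc, ← f1, ← f3]
    unfold LSeries
    exact tsum_congr h5
  · have := f4.norm
    refine this.congr fun n => ?_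
    rw [h5]

end

end Pool.Agent.H13.TD
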