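import Pool.Agent.Helper13.TD.Ser

/-!
# Mean squares of tails and of polynomials (helper13)
-/

set_option autoImplicit false

open Finset Complex Filter Topology

namespace Pool.Agent.H13.TD

section

variable {r : ℕ} [NeZero r]

/-- the terms of a tail -/
lemma tail_summable (a : ℕ → ℝ) {η x : ℝ} (hη : 0 < η) (hx : 1 + η ≤ x)
    (ha0 : a 0 = 0)
    (hs : Summable fun n : ℕ => a n ^ 2 * (n : ℝ) ^ (-(1 + η))) {z : ℂ} (hz : z.re = x) :
    Summable fun n : ℕ => ‖(a n : ℂ) * (n : ℂ) ^ (-z)‖ := by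
  have h1 : Summable fun n : ℕ => (n : ℝ) ^ (-(1 + η)) := by
    refine (Real.summable_nat_rpow.mpr (by linarith))
  refine Summable.of_nonneg_of_le (fun _ => norm_nonneg _) (fun n => ?_) ((hs.add h1).mul_left (1 / 2))
  rcases Nat.eq_zero_or_pos n with rfl | hn
  · rw [ha0]
    simp
    rw [Real.zero_rpow (by linarith)]
  · have hn1 : (1 : ℝ) ≤ n := by exact_mod_cast hn
    rw [norm_mul, Complex.norm_real, Real.norm_eq_abs, Complex.norm_natCast_cpow_of_pos hn]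
    have h2 : (n : ℝ) ^ (-z).re ≤ (n : ℝ) ^ (-(1 + η)) :=
      Real.rpow_le_rpow_of_exponent_le hn1 (by simp only [Complex.neg_re]; linarith)
    have h3 : |a n| * (n : ℝ) ^ (-z).re ≤ |a n| * (n : ℝ) ^ (-(1 + η)) :=
      mul_le_mul_of_nonneg_left h2 (abs_nonneg _)
    refine h3.trans ?_
    have h4 : |a n| ≤ 1 / 2 * (a n ^ 2 + 1) := by
      have := sq_nonneg (|a n| - 1)
      have h5 := sq_abs (a n)
      nlinarith
    calc |a n| * (n : ℝ) ^ (-(1 + η)) ≤ (1 / 2 * (a n ^ 2 + 1)) * (n : ℝ) ^ (-(1 + η)) :=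
          mul_le_mul_of_nonneg_right h4 (by positivity)
      _ = _ := by ring

/-- **mean square of a tail** -/
theorem tail_ms (a : ℕ → ℝ) {η x : ℝ} (hη : 0 < η) (hx : 1 + η ≤ x) {Y : ℝ} (hY : 1 ≤ Y)
    (haY : ∀ n, a n ≠ 0 → Y ≤ n)
    (hs : Summable fun n : ℕ => a n ^ 2 * (n : ℝ) ^ (-(1 + η))) {z : ℂ} (hz : z.re = x) :
    ∑ χ : DirichletCharacter ℂ r, ‖∑' n : ℕ, (a n : ℂ) * χ (n : ZMod r) * (n : ℂ) ^ (-z)‖ ^ 2 ≤
      (r / Y + (1 + η) / η) * (Y ^ (-(2 * (x - (1 + η)))) *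
        ∑' n : ℕ, a n ^ 2 * (n : ℝ) ^ (-(1 + η))) := by
  have ha0 : a 0 = 0 := by
    by_contra h
    have := haY 0 h
    rw [Nat.cast_zero] at this
    linarith
  have h1 := tail_summable a hη hx ha0 hs hz
  -- the weighted terms
  have h2 : ∀ n : ℕ, (n : ℝ) ^ (1 + η) * ‖(a n : ℂ) * (n : ℂ) ^ (-z)‖ ^ 2 ≤
      Y ^ (-(2 * (x - (1 + η)))) * (a n ^ 2 * (n : ℝ) ^ (-(1 + η))) := by
    intro n
    by_cases han : a n = 0
    · rw [han]; simp
    · have hYn := haY n han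
      have hn0 : (0 : ℝ) < n := by linarith
      have hn : 0 < n := by exact_mod_cast hn0
      rw [norm_mul, Complex.norm_real, Real.norm_eq_abs, Complex.norm_natCast_cpow_of_pos hn,
        mul_pow, sq_abs]
      have h3 : (n : ℝ) ^ (1 + η) * ((n : ℝ) ^ (-z).re) ^ 2 =
          (n : ℝ) ^ (-(2 * (x - (1 + η)))) * (n : ℝ) ^ (-(1 + η)) := by
        rw [← Real.rpow_natCast, ← Real.rpow_mul hn0.le, ← Real.rpow_add hn0, ← Real.rpow_add hn0]
        congr 1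
        rw [Complex.neg_re, hz]
        push_cast
        ring
      have h4 : (n : ℝ) ^ (-(2 * (x - (1 + η)))) ≤ Y ^ (-(2 * (x - (1 + η)))) :=
        Real.rpow_le_rpow_of_nonpos (by linarith) hYn (by linarith)
      calc (n : ℝ) ^ (1 + η) * (a n ^ 2 * ((n : ℝ) ^ (-z).re) ^ 2)
          = a n ^ 2 * ((n : ℝ) ^ (1 + η) * ((n : ℝ) ^ (-z).re) ^ 2) := by ring
        _ = (n : ℝ) ^ (-(2 * (x - (1 + η)))) * (a n ^ 2 * (n : ℝ) ^ (-(1 + η))) := by
            rw [h3]; ring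
        _ ≤ _ := mul_le_mul_of_nonneg_right h4 (by positivity)
  have h5 : Summable fun n : ℕ => (n : ℝ) ^ (1 + η) * ‖(a n : ℂ) * (n : ℂ) ^ (-z)‖ ^ 2 :=
    Summable.of_nonneg_of_le (fun _ => by positivity) h2 (hs.mul_left _)
  have h6 := ls_tail (r := r) (fun n => (a n : ℂ) * (n : ℂ) ^ (-z)) hη hY (fun n hn => by
    apply haY
    intro h
    apply hn
    simp [h]) h1 h5
  have h7 : ∀ χ : DirichletCharacter ℂ r, ∑' n : ℕ, (a n : ℂ) * χ (n : ZMod r) * (n : ℂ) ^ (-z) =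
      ∑' n : ℕ, (a n : ℂ) * (n : ℂ) ^ (-z) * χ (n : ZMod r) := fun χ =>
    tsum_congr fun n => by ring
  rw [Finset.sum_congr rfl fun χ _ => by rw [h7 χ]]
  refine h6.trans ?_
  apply mul_le_mul_of_nonneg_left _ (by positivity)
  refine (h5.tsum_le_tsum h2 (hs.mul_left _)).trans ?_
  rw [tsum_mul_left]

/-- mean square of a polynomial -/
theorem poly_ms (a : ℕ → ℝ) (Y : ℕ) (z : ℂ) :
    ∑ χ : DirichletCharacter ℂ r, ‖Dp χ (Icc 1 Y) a z‖ ^ 2 ≤
      ((r : ℝ) + Y) * ∑ n ∈ Icc 1 Y, a n ^ 2 * (n : ℝ) ^ (-(2 * z.re)) := by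
  have h1 := ls_poly (r := r) (fun n => (a n : ℂ) * (n : ℂ) ^ (-z)) (Y := Y)
  have h2 : ∀ χ : DirichletCharacter ℂ r, Dp χ (Icc 1 Y) a z =
      ∑ n ∈ Icc 1 Y, (a n : ℂ) * (n : ℂ) ^ (-z) * χ (n : ZMod r) := fun χ => by
    unfold Dp
    exact Finset.sum_congr rfl fun n _ => by ring
  rw [Finset.sum_congr rfl fun χ _ => by rw [h2 χ]]
  refine h1.trans (le_of_eq ?_)
  congr 1
  refine Finset.sum_congr rfl fun n hn => ?_
  have hn0 : (0 : ℝ) < n := by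
    have := (Finset.mem_Icc.mp hn).1
    exact_mod_cast this
  have hn : 0 < n := by exact_mod_cast hn0
  rw [norm_mul, Complex.norm_real, Real.norm_eq_abs, Complex.norm_natCast_cpow_of_pos hn,
    mul_pow, sq_abs]
  congr 1
  rw [← Real.rpow_natCast, ← Real.rpow_mul hn0.le]
  congr 1
  rw [Complex.neg_re]
  push_cast
  ring

end

end Pool.Agent.H13.TD
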