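import Pool.Agent.Helper13.TD.Pack
import Pool.Agent.Helper13.TD.Ar
import Pool.Graph.R_seed8.H82R3.EK.Avg
import Pool.Graph.R_seed8.H82R3.EK.Count

/-!
# The sums over all characters modulo `q` (helper13)
-/

set_option autoImplicit false
set_option maxHeartbeats 4000000

open Complex Filter Topology

namespace Pool.Agent.H13.TD

open Pool.Agent.A856.SD (Zst Zst_bdd fin_zeros cnt_cover)
open Pool.Agent.H82R3.EK (cnt PP SS SS_eq)

/-- the part of the critical strip with `δ ≤ |Re s - 1/2|`, `|Im s| ≤ T` -/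
def Rg (δ T : ℝ) : Set ℂ := {s : ℂ | 0 < s.re ∧ s.re < 1 ∧ δ ≤ |s.re - 1 / 2| ∧ |s.im| ≤ T}

lemma Zst_eq (F : ℂ → ℂ) (δ T : ℝ) : {s : ℂ | s ∈ Rg δ T ∧ F s = 0} = Zst F δ 0 T := by
  ext s
  constructor
  · rintro ⟨⟨h1, h2, h3, h4⟩, h5⟩
    exact ⟨h5, h1, h2, h3, by rw [sub_zero]; exact h4⟩
  · rintro ⟨h5, h1, h2, h3, h4⟩
    rw [sub_zero] at h4
    exact ⟨⟨h1, h2, h3, h4⟩, h5⟩

lemma Zst_fin {F : ℂ → ℂ} (hF : Differentiable ℂ F) (h0 : ∃ z, F z ≠ 0) (δ t r : ℝ) :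
    (Zst F δ t r).Finite := fin_zeros hF h0 (Zst_bdd _ _ _ _) fun _ hz => hz.1

lemma cnt_cast {F : ℂ → ℂ} (hF : Differentiable ℂ F) (h0 : ∃ z, F z ≠ 0) (δ T : ℝ) :
    (cnt F (Rg δ T) : ℝ) = ∑ᶠ ρ ∈ Zst F δ 0 T, (analyticOrderNatAt F ρ : ℝ) := by
  have hf := Zst_fin hF h0 δ 0 T
  unfold cnt
  rw [Zst_eq, finsum_mem_eq_finite_toFinset_sum _ hf, finsum_mem_eq_finite_toFinset_sum _ hf]
  push_cast
  rfl

/-- one conductor, height `T` -/
theorem dens_T {N : ℕ} [NeZero N] {lam : ℕ → ℝ} {C₁ : ℝ} {s0 : ℕ} (hlam : W388.HeckeSeq N lam)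
    (hrs : RSB lam C₁) (hC₁ : 0 ≤ C₁) (hs0 : s0 ≠ 0) (hR : Ram N lam s0) :
    ∃ (C : ℝ) (X0 : ℕ), 1 ≤ C ∧ Real.exp 32 ≤ X0 ∧ ∀ (r : ℕ) [NeZero r]
      (Y : Finset (DirichletCharacter ℂ r)) (F : DirichletCharacter ℂ r → ℂ → ℂ),
      (∀ χ ∈ Y, IsL N lam χ (F χ)) → ∀ δ T : ℝ, 0 ≤ δ → 0 ≤ T →
        ∑ χ ∈ Y, (cnt (F χ) (Rg δ T) : ℝ) ≤
          C * Real.log ((r + X0 : ℕ) : ℝ) ^ 10 * (1 + T) ^ 3 * ((r + X0 : ℕ) : ℝ) ^ (1 - δ) := by
  obtain ⟨C, X0, hC1, hX0, hC⟩ := dens_r hlam hrs hC₁ hs0 hR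
  refine ⟨12 * C, X0, by linarith, hX0, ?_⟩
  intro r _ Y F hF δ T hδ hT
  have hCY := hC r Y F hF δ
  obtain ⟨R, hRe⟩ : ∃ R : ℕ, R = r + X0 := ⟨_, rfl⟩
  obtain ⟨L, hL⟩ : ∃ L : ℝ, L = Real.log (R : ℝ) := ⟨_, rfl⟩
  rw [← hRe, ← hL] at hCY ⊢
  have hR32 : Real.exp 32 ≤ R := by
    refine hX0.trans ?_
    rw [hRe]; push_cast; linarith [Nat.cast_nonneg (α := ℝ) r]
  have hR0 : (0 : ℝ) < R := lt_of_lt_of_le (Real.exp_pos _) hR32
  have hL32 : 32 ≤ L := by rw [hL, Real.le_log_iff_exp_le hR0]; exact hR32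
  have hL0 : 0 < L := by linarith
  have hne : ∀ χ ∈ Y, ∃ z, F χ z ≠ 0 := fun χ hχ => F_ne hlam hrs hs0 hR χ (hF χ hχ)
  have hr : 0 < 1 / L := by positivity
  obtain ⟨J, hJ⟩ : ∃ J : Finset ℤ, J = Finset.Icc (-⌈T / (1 / L)⌉₊ : ℤ) ⌈T / (1 / L)⌉₊ := ⟨_, rfl⟩
  have h1 : ∑ χ ∈ Y, (cnt (F χ) (Rg δ T) : ℝ) ≤
      ∑ χ ∈ Y, ∑ j ∈ J, ∑ᶠ ρ ∈ Zst (F χ) δ ((j : ℝ) * (1 / L)) (1 / L),
        (analyticOrderNatAt (F χ) ρ : ℝ) := by
    refine Finset.sum_le_sum fun χ hχ => ?_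
    rw [cnt_cast (hF χ hχ).1.diff (hne χ hχ), hJ]
    exact cnt_cover (hF χ hχ).1.diff (hne χ hχ) δ hr
  rw [Finset.sum_comm] at h1
  have hceil : (⌈T / (1 / L)⌉₊ : ℝ) ≤ T * L + 1 := by
    have h0 := (Nat.ceil_lt_add_one (show 0 ≤ T / (1 / L) by positivity)).le
    have h1' : T / (1 / L) = T * L := by rw [div_div_eq_mul_div, div_one]
    calc (⌈T / (1 / L)⌉₊ : ℝ) ≤ T / (1 / L) + 1 := h0
      _ = T * L + 1 := by rw [h1']
  have hJc : (J.card : ℝ) ≤ 3 * (1 + T) * L := by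
    rw [hJ, Int.card_Icc]
    have h2 : ((⌈T / (1 / L)⌉₊ : ℤ) + 1 - (-(⌈T / (1 / L)⌉₊ : ℤ))).toNat = 2 * ⌈T / (1 / L)⌉₊ + 1 := by
      omega
    rw [h2]
    push_cast
    nlinarith
  have h2 : ∀ j ∈ J, ∑ χ ∈ Y, ∑ᶠ ρ ∈ Zst (F χ) δ ((j : ℝ) * (1 / L)) (1 / L),
        (analyticOrderNatAt (F χ) ρ : ℝ) ≤
      C * L ^ 9 * (4 * (1 + T) ^ 2) * (R : ℝ) ^ (1 - δ) := by
    intro j hj
    have h3 := hCY ((j : ℝ) * (1 / L)) hδ
    refine h3.trans ?_
    have h4 : |(j : ℝ) * (1 / L)| ≤ T + 1 := by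
      rw [abs_mul, abs_of_pos hr]
      have h5 : |(j : ℝ)| ≤ T * L + 1 := by
        rw [hJ, Finset.mem_Icc] at hj
        refine le_trans ?_ hceil
        rw [abs_le]
        constructor
        · have := hj.1
          have h6 : ((-(⌈T / (1 / L)⌉₊ : ℤ) : ℤ) : ℝ) ≤ (j : ℝ) := by exact_mod_cast this
          push_cast at h6
          exact h6
        · have h6 : (j : ℝ) ≤ ((⌈T / (1 / L)⌉₊ : ℤ) : ℝ) := by exact_mod_cast hj.2
          push_cast at h6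
          exact h6
      rw [mul_one_div, div_le_iff₀ hL0]
      nlinarith
    have h5 : (1 + |(j : ℝ) * (1 / L)|) ^ 2 ≤ 4 * (1 + T) ^ 2 := by
      have h6 : (1 + |(j : ℝ) * (1 / L)|) ^ 2 ≤ (2 * (1 + T)) ^ 2 :=
        pow_le_pow_left₀ (by positivity) (by linarith) 2
      refine h6.trans (le_of_eq ?_)
      ring
    gcongr
  refine (h1.trans (Finset.sum_le_sum h2)).trans ?_
  rw [Finset.sum_const, nsmul_eq_mul]
  calc (J.card : ℝ) * (C * L ^ 9 * (4 * (1 + T) ^ 2) * (R : ℝ) ^ (1 - δ))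
      ≤ (3 * (1 + T) * L) * (C * L ^ 9 * (4 * (1 + T) ^ 2) * (R : ℝ) ^ (1 - δ)) := by
        gcongr
    _ = _ := by ring

open Classical in
lemma PP_eq (f : (q : ℕ) → DirichletCharacter ℂ q → ℝ) (d : ℕ) [NeZero d] : PP f d =
    ∑ χ ∈ Finset.univ.filter (fun χ : DirichletCharacter ℂ d => χ.IsPrimitive), f d χ := by
  unfold PP
  rw [finsum_eq_sum_of_fintype]
  exact (Finset.sum_subtype _ (by simp) _).symm

/-- **all characters modulo `q`** -/
theorem dens_q {N : ℕ} [NeZero N] {lam : ℕ → ℝ} {C₁ : ℝ} {s0 : ℕ} (hlam : W388.HeckeSeq N lam)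
    (hrs : RSB lam C₁) (hC₁ : 0 ≤ C₁) (hs0 : s0 ≠ 0) (hR : Ram N lam s0)
    {F : (q : ℕ) → DirichletCharacter ℂ q → ℂ → ℂ}
    (hF : ∀ (q : ℕ) (χ : DirichletCharacter ℂ q), 1 ≤ q → Nat.Coprime q N → χ.IsPrimitive →
      IsL N lam χ (F q χ)) : ∃ C : ℝ, 1 ≤ C ∧ ∀ q : ℕ, 1 ≤ q → Nat.Coprime q N →
        ∀ δ T : ℝ, 0 ≤ δ → 0 ≤ T → SS (fun d χ => (cnt (F d χ) (Rg δ T) : ℝ)) q ≤
          C * Real.log (q + 2) ^ 10 * (1 + T) ^ 3 * ∑ d ∈ q.divisors, (d : ℝ) ^ (1 - δ) := by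
  classical
  obtain ⟨C, X0, hC1, hX0, hC⟩ := dens_T hlam hrs hC₁ hs0 hR
  have hX00 : (0 : ℝ) ≤ X0 := Nat.cast_nonneg _
  have hlX : 0 ≤ Real.log (1 + X0) := Real.log_nonneg (by linarith)
  obtain ⟨K, hK⟩ : ∃ K : ℝ, K = 1 + 2 * Real.log (1 + X0) := ⟨_, rfl⟩
  have hK1 : 1 ≤ K := by rw [hK]; linarith
  refine ⟨C * K ^ 10 * (1 + X0), ?_, ?_⟩
  · have h1 : 1 ≤ K ^ 10 := one_le_pow₀ hK1
    have h2 := one_le_mul_of_one_le_of_one_le hC1 h1
    exact one_le_mul_of_one_le_of_one_le h2 (by linarith)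
  intro q hq hqN δ T hδ hT
  have hlq : 0 < Real.log ((q : ℝ) + 2) := Real.log_pos (by
    have : (0 : ℝ) ≤ q := Nat.cast_nonneg _
    linarith)
  rcases lt_or_ge (1 / 2) δ with hδ2 | hδ2
  · -- no zeros
    have hemp : Rg δ T = ∅ := by
      ext ρ
      simp only [Set.mem_empty_iff_false, iff_false]
      rintro ⟨h1, h2, h3, -⟩
      have : |ρ.re - 1 / 2| ≤ 1 / 2 := by rw [abs_le]; constructor <;> linarith
      linarith
    have h0 : SS (fun d χ => (cnt (F d χ) (Rg δ T) : ℝ)) q = 0 := by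
      unfold SS
      rw [← finsum_zero (α := DirichletCharacter ℂ q)]
      refine finsum_congr fun χ => ?_
      rw [hemp]
      unfold cnt
      simp
    rw [h0]
    positivity
  rw [SS_eq _ q hq, Finset.mul_sum]
  refine Finset.sum_le_sum fun d hd => ?_
  have hdq : d ∣ q := Nat.dvd_of_mem_divisors hd
  have hd0 : 0 < d := Nat.pos_of_mem_divisors hd
  have hd1 : (1 : ℝ) ≤ d := by exact_mod_cast hd0
  have hdle : (d : ℝ) ≤ q := by exact_mod_cast Nat.divisor_le hd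
  haveI : NeZero d := ⟨hd0.ne'⟩
  rw [PP_eq]
  refine (hC d _ (F d) (fun χ hχ => hF d χ hd0 (Nat.Coprime.coprime_dvd_left hdq hqN)
    (Finset.mem_filter.mp hχ).2) δ T hδ hT).trans ?_
  push_cast
  have h1 : Real.log ((d : ℝ) + X0) ≤ K * Real.log ((q : ℝ) + 2) := by
    have e1 : (d : ℝ) + X0 ≤ ((q : ℝ) + 2) * (1 + X0) := by nlinarith
    have e2 := Real.log_le_log (by linarith : (0 : ℝ) < (d : ℝ) + X0) e1
    rw [Real.log_mul (by linarith) (by linarith)] at e2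
    have e3 : (1 : ℝ) / 2 ≤ Real.log ((q : ℝ) + 2) := by
      have := Real.log_two_gt_d9
      have e4 : Real.log 2 ≤ Real.log ((q : ℝ) + 2) :=
        Real.log_le_log (by norm_num) (by linarith)
      linarith
    rw [hK]
    nlinarith
  have h2 : ((d : ℝ) + X0) ^ (1 - δ) ≤ (1 + X0) * (d : ℝ) ^ (1 - δ) := by
    have e1 : (d : ℝ) + X0 ≤ (1 + X0) * d := by nlinarith
    calc ((d : ℝ) + X0) ^ (1 - δ) ≤ ((1 + X0) * d) ^ (1 - δ) :=
          Real.rpow_le_rpow (by positivity) e1 (by linarith)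
      _ = (1 + X0) ^ (1 - δ) * (d : ℝ) ^ (1 - δ) := Real.mul_rpow (by linarith) (by linarith)
      _ ≤ (1 + X0) * (d : ℝ) ^ (1 - δ) := by
          apply mul_le_mul_of_nonneg_right _ (by positivity)
          calc (1 + (X0 : ℝ)) ^ (1 - δ) ≤ (1 + (X0 : ℝ)) ^ (1 : ℝ) :=
                Real.rpow_le_rpow_of_exponent_le (by linarith) (by linarith)
            _ = _ := Real.rpow_one _
  have h3 : 0 ≤ Real.log ((d : ℝ) + X0) := Real.log_nonneg (by linarith)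
  have h4 : Real.log ((d : ℝ) + X0) ^ 10 ≤ (K * Real.log ((q : ℝ) + 2)) ^ 10 :=
    pow_le_pow_left₀ h3 h1 10
  calc C * Real.log ((d : ℝ) + X0) ^ 10 * (1 + T) ^ 3 * ((d : ℝ) + X0) ^ (1 - δ)
      ≤ C * (K * Real.log ((q : ℝ) + 2)) ^ 10 * (1 + T) ^ 3 * ((1 + X0) * (d : ℝ) ^ (1 - δ)) := by
        gcongr
    _ = _ := by ring

/-! ### lower bound for the number of zeros -/

open H370 (zset mult NN)

lemma NN_le {F : ℂ → ℂ} (hF : Differentiable ℂ F) (h0 : ∃ z, F z ≠ 0) {T : ℝ} (hT : 0 ≤ T) :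
    (NN F (T / 2) (2 * (T / 2)) : ℝ) ≤ (cnt F (Rg 0 T) : ℝ) := by
  have hf : {s : ℂ | s ∈ Rg 0 T ∧ F s = 0}.Finite := by
    rw [Zst_eq]; exact Zst_fin hF h0 0 0 T
  have hsub : zset F (T / 2) (2 * (T / 2)) ⊆ {s : ℂ | s ∈ Rg 0 T ∧ F s = 0} := by
    rintro s ⟨h1, h2, h3, h4, h5⟩
    refine ⟨⟨h1, h2, abs_nonneg _, ?_⟩, h5⟩
    rw [abs_of_nonneg (by linarith)]
    linarith
  have hf1 := hf.subset hsub
  have : NN F (T / 2) (2 * (T / 2)) ≤ cnt F (Rg 0 T) := by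
    unfold NN cnt
    rw [finsum_mem_eq_finite_toFinset_sum _ hf, finsum_mem_eq_finite_toFinset_sum _ hf1]
    apply Finset.sum_le_sum_of_subset
    intro s hs
    rw [Set.Finite.mem_toFinset] at hs ⊢
    exact hsub hs
  exact_mod_cast this

/-- one character -/
theorem low_one {A : ℝ} (hA : 1 ≤ A) : ∃ ℓ0 : ℝ, 1 ≤ ℓ0 ∧ ∀ (q Q : ℝ) (F : ℂ → ℂ) (a : ℕ → ℂ) (T : ℝ),
    1 ≤ q → ℓ0 ≤ Real.log (Real.log q) → 1 ≤ Q → Real.log q / 8 ≤ Real.log Q → Q ≤ q →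
    Real.log (Real.log q) ≤ T → T ≤ q → Differentiable ℂ F → (∃ z, F z ≠ 0) →
    W388.GoodE 2 A Q F a → 1 / 128 * (T * Real.log q) ≤ (cnt F (Rg 0 T) : ℝ) := by
  obtain ⟨C, hC, h⟩ := W388.N_lower_D 2 A (by norm_num) hA
  refine ⟨(2561 * (C + 1)) ^ 2, one_le_pow₀ (by linarith), ?_⟩
  intro q Q F a T hq1 hl hQ1 hQl hQq hT1 hT2 hFd hF0 hG
  obtain ⟨l, hle⟩ : ∃ l : ℝ, l = Real.log q := ⟨_, rfl⟩
  obtain ⟨m, hme⟩ : ∃ m : ℝ, m = Real.log l := ⟨_, rfl⟩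
  rw [← hle] at hQl hT1 hl ⊢
  rw [← hme] at hT1 hl
  have hq0 : 0 < q := by linarith
  have hm1 : (1 : ℝ) ≤ m := le_trans (one_le_pow₀ (by linarith)) hl
  have hl0 : 0 ≤ l := by rw [hle]; exact Real.log_nonneg hq1
  have hl1 : 0 < l := by
    rcases hl0.eq_or_lt with h0 | h0
    · rw [hme, ← h0, Real.log_zero] at hm1
      linarith
    · exact h0
  have hlm : l = Real.exp m := by rw [hme, Real.exp_log hl1]
  obtain ⟨s, hs⟩ : ∃ s : ℝ, s = Real.sqrt (m + 1) := ⟨_, rfl⟩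
  have hs2 : s ^ 2 = m + 1 := by rw [hs]; exact Real.sq_sqrt (by linarith)
  have hs0 : 0 ≤ s := by rw [hs]; exact Real.sqrt_nonneg _
  have hsK : 2561 * (C + 1) ≤ s := by
    rw [hs]
    apply Real.le_sqrt_of_sq_le
    linarith
  have hs1 : 2561 ≤ s := by nlinarith
  have hT1' : 1 ≤ T := hm1.trans hT1
  obtain ⟨κ, hκ⟩ : ∃ κ : ℝ, κ = 3 + 2 * s := ⟨_, rfl⟩
  have hκ5 : κ ≤ 5 * s := by rw [hκ]; linarith
  have hκT : 512 * (C + 1) * κ ≤ T := by
    have h1 : 512 * (C + 1) * κ ≤ 512 * (C + 1) * (5 * s) := by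
      apply mul_le_mul_of_nonneg_left hκ5; positivity
    have h2 : 512 * (C + 1) * (5 * s) ≤ m := by
      have h3 : m = s ^ 2 - 1 := by linarith
      rw [h3]
      nlinarith
    linarith
  have hκ3 : 3 ≤ κ := by rw [hκ]; linarith
  have h8 : 8 * κ ≤ T / 2 := by nlinarith
  have key := h Q F a hQ1 hG (T / 2) κ hκ3 h8
  refine le_trans ?_ (key.trans (NN_le hFd hF0 (by linarith)))
  -- the logarithm
  have hQ0 : 0 < Q := by linarith
  obtain ⟨w, hw⟩ : ∃ w : ℝ, w = Real.log (Q * (T / 2)) := ⟨_, rfl⟩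
  rw [← hw]
  have hT4 : 1 ≤ T / 2 := by nlinarith
  have hw1 : l / 8 ≤ w := by
    rw [hw, Real.log_mul hQ0.ne' (by linarith)]
    have := Real.log_nonneg hT4
    linarith
  have hw2 : w ≤ 2 * l := by
    have h1 : Q * (T / 2) ≤ q * q := mul_le_mul hQq (by linarith) (by linarith) hq0.le
    have h2 := Real.log_le_log (by positivity) h1
    rw [Real.log_mul hq0.ne' hq0.ne'] at h2
    rw [hw, hle]; linarith
  have hw0 : 0 ≤ w := by linarith
  -- the exponential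
  have hexp : w ^ 2 * Real.exp (-κ ^ 2 / 2) ≤ 1 := by
    have h1 : -κ ^ 2 / 2 ≤ -(2 * m + 2) := by
      have : κ ^ 2 = 9 + 12 * s + 4 * s ^ 2 := by rw [hκ]; ring
      rw [this, hs2]
      linarith
    have h2 : Real.exp (-κ ^ 2 / 2) ≤ Real.exp (-(2 * m + 2)) := Real.exp_le_exp.mpr h1
    have h3 : w ^ 2 ≤ 4 * Real.exp (2 * m) := by
      have h4 := pow_le_pow_left₀ hw0 hw2 2
      have h5 : Real.exp (2 * m) = l ^ 2 := by
        rw [hlm, ← Real.exp_nat_mul]; norm_num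
      rw [h5]
      linarith
    have h6 : (4 : ℝ) ≤ Real.exp 2 := by
      have := Real.exp_one_gt_d9
      have h7 : Real.exp 2 = Real.exp 1 ^ 2 := by rw [← Real.exp_nat_mul]; norm_num
      rw [h7]; nlinarith
    calc w ^ 2 * Real.exp (-κ ^ 2 / 2) ≤ (4 * Real.exp (2 * m)) * Real.exp (-(2 * m + 2)) :=
          mul_le_mul h3 h2 (Real.exp_pos _).le (by positivity)
      _ = 4 * Real.exp (-2) := by rw [mul_assoc, ← Real.exp_add]; congr 2; ring
      _ ≤ 1 := by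
          rw [Real.exp_neg, ← div_eq_mul_inv, div_le_one (Real.exp_pos _)]
          exact h6
  have hT0 : 0 < T := by linarith
  have t1 : T * l / 64 ≤ T / 2 / (2 * Real.pi) * (2 * w) := by
    have hpi := Real.pi_pos
    have hpi4 : Real.pi ≤ 4 := Real.pi_le_four
    have e1 : T / 2 / (2 * Real.pi) * (2 * w) = T * w / (2 * Real.pi) := by field_simp
    rw [e1, div_le_div_iff₀ (by norm_num) (by positivity)]
    have e2 : T * l ≤ 8 * (T * w) := by nlinarith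
    have e3 : 0 ≤ T * w := by positivity
    nlinarith
  have t2 : C * (T / 2 + κ * w + T / 2 * w ^ 2 * Real.exp (-κ ^ 2 / 2)) ≤
      C * T + T * l / 256 := by
    have e1 : T / 2 * w ^ 2 * Real.exp (-κ ^ 2 / 2) ≤ T / 2 := by
      rw [mul_assoc]
      exact mul_le_of_le_one_right (by linarith) hexp
    have e2 : C * (κ * w) ≤ T * l / 256 := by
      have e3 : C * κ ≤ T / 512 := by nlinarith
      calc C * (κ * w) = (C * κ) * w := by ring
        _ ≤ (T / 512) * (2 * l) := mul_le_mul e3 hw2 hw0 (by positivity)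
        _ = _ := by ring
    calc C * (T / 2 + κ * w + T / 2 * w ^ 2 * Real.exp (-κ ^ 2 / 2))
        ≤ C * (T / 2 + κ * w + T / 2) := by gcongr
      _ = C * T + C * (κ * w) := by ring
      _ ≤ _ := by linarith
  have t3 : C * T ≤ T * l / 256 := by
    have e1 : 256 * C ≤ l := by
      have e2 := Real.add_one_le_exp m
      rw [← hlm] at e2
      rw [← hs2] at e2
      nlinarith
    nlinarith
  linarith

/-- **lower bound for the number of zeros** -/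
theorem low_q {N : ℕ} {A : ℝ} (hA : 1 ≤ A) {F : (q : ℕ) → DirichletCharacter ℂ q → ℂ → ℂ}
    (hF : ∀ (q : ℕ) (χ : DirichletCharacter ℂ q), 1 ≤ q → Nat.Coprime q N → χ.IsPrimitive →
      Differentiable ℂ (F q χ) ∧ (∃ z, F q χ z ≠ 0) ∧ ∃ a : ℕ → ℂ, W388.GoodE 2 A q (F q χ) a) :
    ∃ q0 : ℕ, 3 ≤ q0 ∧ ∀ q : ℕ, q0 ≤ q → Nat.Coprime q N → ∀ T : ℝ,
      Real.log (Real.log q) ≤ T → T ≤ q →
        1 / 256 * ((q.totient : ℝ) * T * Real.log q) ≤
          SS (fun d χ => (cnt (F d χ) (Rg 0 T) : ℝ)) q := by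
  classical
  obtain ⟨ℓ0, hℓ0, h⟩ := low_one hA
  refine ⟨max 600 ⌈Real.exp (Real.exp ℓ0)⌉₊, le_trans (by norm_num) (le_max_left _ _), ?_⟩
  intro q hq hqN T hT1 hT2
  have hq600 : 600 ≤ q := (le_max_left _ _).trans hq
  have hq600' : (600 : ℝ) ≤ q := by exact_mod_cast hq600
  have hqe : Real.exp (Real.exp ℓ0) ≤ q := by
    refine (Nat.le_ceil _).trans ?_
    exact_mod_cast (le_max_right _ _).trans hq
  have hq0 : (0 : ℝ) < q := by linarith
  haveI : NeZero q := ⟨by omega⟩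
  have hl1 : Real.exp ℓ0 ≤ Real.log q := by rw [Real.le_log_iff_exp_le hq0]; exact hqe
  have hl0 : 0 < Real.log q := lt_of_lt_of_le (Real.exp_pos _) hl1
  have hll : ℓ0 ≤ Real.log (Real.log q) := by rw [Real.le_log_iff_exp_le hl0]; exact hl1
  have hT0 : 0 ≤ T := by linarith
  obtain ⟨B, hB⟩ : ∃ B : ℝ, B = 1 / 128 * (T * Real.log q) := ⟨_, rfl⟩
  have hB0 : 0 ≤ B := by rw [hB]; positivity
  -- the small conductors
  obtain ⟨x, hx⟩ : ∃ x : ℝ, x = (q : ℝ) ^ (1 / 8 : ℝ) := ⟨_, rfl⟩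
  have hx1 : 1 ≤ x := by rw [hx]; exact Real.one_le_rpow (by linarith) (by norm_num)
  obtain ⟨g, hg⟩ : ∃ g : (d : ℕ) → DirichletCharacter ℂ d → ℝ, g = fun (d : ℕ) (_ : DirichletCharacter ℂ d) => if (d : ℝ) < x then (1 : ℝ) else 0 :=
    ⟨_, rfl⟩
  have hSSg : SS g q ≤ x ^ 2 := by
    rw [SS_eq g q (by omega)]
    have e1 : ∀ d ∈ q.divisors, PP g d ≤ if (d : ℝ) < x then x else 0 := by
      intro d hd
      have hd0 : 0 < d := Nat.pos_of_mem_divisors hd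
      haveI : NeZero d := ⟨hd0.ne'⟩
      rw [PP_eq, hg]
      simp only
      split_ifs with h1
      · rw [Finset.sum_const, nsmul_eq_mul, mul_one]
        exact (card_le _).trans h1.le
      · rw [Finset.sum_const_zero]
    refine (Finset.sum_le_sum e1).trans ?_
    rw [← Finset.sum_filter, Finset.sum_const, nsmul_eq_mul, sq]
    apply mul_le_mul_of_nonneg_right _ (by linarith)
    have h6 : q.divisors.filter (fun d : ℕ => (d : ℝ) < x) ⊆ Finset.Icc 1 ⌊x⌋₊ := by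
      intro d hd
      rw [Finset.mem_filter] at hd
      rw [Finset.mem_Icc]
      exact ⟨Nat.pos_of_mem_divisors hd.1, Nat.le_floor hd.2.le⟩
    have h7 := Finset.card_le_card h6
    rw [Nat.card_Icc] at h7
    have h8 : ((q.divisors.filter (fun d : ℕ => (d : ℝ) < x)).card : ℝ) ≤ (⌊x⌋₊ : ℝ) := by
      exact_mod_cast (by omega : (q.divisors.filter (fun d : ℕ => (d : ℝ) < x)).card ≤ ⌊x⌋₊)
    exact h8.trans (Nat.floor_le (by linarith))
  -- one character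
  have hone : ∀ χ : DirichletCharacter ℂ q, B * (1 - g χ.conductor χ.primitiveCharacter) ≤
      (cnt (F χ.conductor χ.primitiveCharacter) (Rg 0 T) : ℝ) := by
    intro χ
    have hc1 : 1 ≤ χ.conductor := Nat.one_le_iff_ne_zero.2 χ.conductor_ne_zero
    have hcq : χ.conductor ≤ q := Nat.le_of_dvd (by omega) χ.conductor_dvd_level
    rw [hg]
    simp only
    split_ifs with h1
    · rw [sub_self, mul_zero]
      exact Nat.cast_nonneg _
    · obtain ⟨k1, k2, a, k3⟩ := hF χ.conductor χ.primitiveCharacter hc1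
        (Nat.Coprime.coprime_dvd_left χ.conductor_dvd_level hqN) χ.primitiveCharacter_isPrimitive
      rw [sub_zero, mul_one, hB]
      refine h q χ.conductor _ a T (by linarith) hll (by exact_mod_cast hc1) ?_
        (by exact_mod_cast hcq) hT1 hT2 k1 k2 k3
      have h2 := Real.log_le_log (by linarith) (not_lt.mp h1)
      rw [hx, Real.log_rpow hq0] at h2
      linarith
  have hsum : B * ((q.totient : ℝ) - SS g q) ≤ SS (fun d χ => (cnt (F d χ) (Rg 0 T) : ℝ)) q := by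
    unfold SS
    rw [finsum_eq_sum_of_fintype, finsum_eq_sum_of_fintype]
    refine le_trans (le_of_eq ?_) (Finset.sum_le_sum fun χ _ => hone χ)
    rw [← Finset.mul_sum, Finset.sum_sub_distrib, Finset.sum_const, nsmul_eq_mul, mul_one,
      Finset.card_univ]
    congr 2
    have h2 : Fintype.card (DirichletCharacter ℂ q) = q.totient := by
      rw [← Nat.card_eq_fintype_card]
      exact DirichletCharacter.card_eq_totient_of_hasEnoughRootsOfUnity ℂ q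
    rw [h2]
  -- the number of characters
  have hphi : 2 * x ^ 2 ≤ q.totient := by
    refine le_trans ?_ (totient_ge (by omega))
    have hx8 : x ^ 8 = q := by
      rw [hx, ← Real.rpow_natCast, ← Real.rpow_mul hq0.le]
      norm_num
    have hlx : Real.log q ≤ 4 * x ^ 2 := by
      have e1 : Real.log q = 4 * Real.log (x ^ 2) := by
        rw [← hx8, Real.log_pow, Real.log_pow]; push_cast; ring
      have e2 := Real.log_le_sub_one_of_pos (by positivity : 0 < x ^ 2)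
      rw [e1]; linarith
    rw [le_div_iff₀ (by positivity)]
    have hx4 : 24 ≤ x ^ 4 := by
      have e1 : (24 : ℝ) ^ 2 ≤ (x ^ 4) ^ 2 := by
        rw [← pow_mul]; norm_num; rw [hx8]; linarith
      exact le_of_sq_le_sq e1 (by positivity)
    calc 2 * x ^ 2 * (3 * Real.log q) ≤ 2 * x ^ 2 * (3 * (4 * x ^ 2)) := by gcongr
      _ = 24 * x ^ 4 := by ring
      _ ≤ x ^ 4 * x ^ 4 := by gcongr
      _ = x ^ 8 := by ring
      _ = q := hx8
  refine le_trans ?_ hsum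
  have hphi2 : (q.totient : ℝ) / 2 ≤ (q.totient : ℝ) - SS g q := by linarith
  calc 1 / 256 * ((q.totient : ℝ) * T * Real.log q) = B * ((q.totient : ℝ) / 2) := by
        rw [hB]; ring
    _ ≤ _ := mul_le_mul_of_nonneg_left hphi2 hB0

end Pool.Agent.H13.TD
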